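import Pool.Agent.Lib.MP_413903_an.Spec

/-!
# MP_413903_an: open mapping theorem for two sequences of seminorms
-/

set_option autoImplicit false

namespace Pool.Agent.Lib.MP_413903_an

open Complex Set Filter Topology OnePoint NNReal TopologicalSpace

section AbsSec

variable {E : Type} [AddCommGroup E] [Module ℂ E]

theorem abs_half_pos (m : ℕ) : (0 : ℝ) < (1 / 2) ^ m := by positivity

theorem abs_half_small (ε : ℝ) (hε : 0 < ε) : ∃ m : ℕ, ((1 : ℝ) / 2) ^ m ≤ ε := by
  obtain ⟨m, hm⟩ := exists_pow_lt_of_lt_one hε (by norm_num : (1 / 2 : ℝ) < 1)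
  exact ⟨m, hm.le⟩

theorem abs_half_anti {m n : ℕ} (h : m ≤ n) : ((1 : ℝ) / 2) ^ n ≤ (1 / 2) ^ m :=
  pow_le_pow_of_le_one (by norm_num) (by norm_num) h

/-- the Baire argument -/
theorem abs_baire (p : ℕ → Seminorm ℂ E) (P : Seminorm ℂ E)
    (hp : ∀ f : E, Monotone fun j => p j f) (hc : SCompl p) :
    ∃ (n m : ℕ) (x0 : E), ∀ y, p m (y - x0) ≤ (1 / 2) ^ m → ∀ m', ∃ z, P z ≤ n ∧
      p m' (y - z) ≤ (1 / 2) ^ m' := by
  by_contra hcon
  push Not at hcon
  -- the step
  have hstep : ∀ (n m : ℕ) (x : E), ∃ q : E × ℕ, m < q.2 ∧ p m (q.1 - x) ≤ (1 / 2) ^ m ∧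
      ∀ z, P z ≤ n → (1 / 2) ^ q.2 < p q.2 (q.1 - z) := by
    intro n m x
    obtain ⟨y, hy, m', hm'⟩ := hcon n m x
    refine ⟨(y, max m' (m + 1)), lt_of_lt_of_le (Nat.lt_succ_self m) (le_max_right _ _), hy, ?_⟩
    intro z hz
    calc ((1 : ℝ) / 2) ^ (max m' (m + 1)) ≤ (1 / 2) ^ m' := abs_half_anti (le_max_left _ _)
      _ < p m' (y - z) := hm' z hz
      _ ≤ p (max m' (m + 1)) (y - z) := hp _ (le_max_left _ _)
  choose F hF1 hF2 hF3 using hstep
  let s : ℕ → E × ℕ := fun k => Nat.rec ((0 : E), 0) (fun k q => F k (q.2 + 2) q.1) k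
  have hs : ∀ k, s (k + 1) = F k ((s k).2 + 2) (s k).1 := fun k => rfl
  have h1 : ∀ k, (s k).2 + 2 < (s (k + 1)).2 := fun k => by
    rw [hs]
    exact hF1 _ _ _
  have h2 : ∀ k, p ((s k).2 + 2) ((s (k + 1)).1 - (s k).1) ≤ (1 / 2) ^ ((s k).2 + 2) := fun k => by
    rw [hs]
    exact hF2 _ _ _
  have h3 : ∀ (k : ℕ) (z : E), P z ≤ k →
      (1 / 2) ^ (s (k + 1)).2 < p (s (k + 1)).2 ((s (k + 1)).1 - z) := by
    intro k z hz
    have := hF3 k ((s k).2 + 2) (s k).1 z hz
    rw [← hs] at this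
    exact this
  have hmono : Monotone fun k => (s k).2 := monotone_nat_of_le_succ fun k => by
    have := h1 k
    omega
  have hge : ∀ k, k ≤ (s k).2 := by
    intro k
    induction k with
    | zero => exact Nat.zero_le _
    | succ k ih =>
      have := h1 k
      omega
  have h4 : ∀ k l, p (s k).2 ((s (k + l)).1 - (s k).1) ≤
      (1 / 2) ^ ((s k).2 + 1) - (1 / 2) ^ ((s (k + l)).2 + 1) := by
    intro k l
    induction l with
    | zero => simp
    | succ l ih =>
      have e : (s (k + (l + 1))).1 - (s k).1 =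
          ((s (k + l + 1)).1 - (s (k + l)).1) + ((s (k + l)).1 - (s k).1) := by
        rw [← add_assoc]
        abel
      have a1 : p (s k).2 ((s (k + l + 1)).1 - (s (k + l)).1) ≤ (1 / 2) ^ ((s (k + l)).2 + 2) :=
        (hp _ (show (s k).2 ≤ (s (k + l)).2 + 2 from
          (hmono (Nat.le_add_right k l)).trans (Nat.le_add_right _ _))).trans (h2 (k + l))
      have a2 : ((1 : ℝ) / 2) ^ ((s (k + (l + 1))).2 + 1) ≤ (1 / 2) ^ ((s (k + l)).2 + 2) := by
        refine abs_half_anti ?_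
        have := h1 (k + l)
        rw [← add_assoc]
        omega
      have a3 : ((1 : ℝ) / 2) ^ ((s (k + l)).2 + 1) = 2 * (1 / 2) ^ ((s (k + l)).2 + 2) := by
        rw [pow_succ ((1 : ℝ) / 2) ((s (k + l)).2 + 1)]
        ring
      rw [e]
      have a4 := map_add_le_add (p (s k).2) ((s (k + l + 1)).1 - (s (k + l)).1)
        ((s (k + l)).1 - (s k).1)
      linarith
  have h5 : ∀ k l, k ≤ l → p (s k).2 ((s l).1 - (s k).1) ≤ (1 / 2) ^ ((s k).2 + 1) := by
    intro k l hkl
    obtain ⟨d, rfl⟩ := Nat.exists_eq_add_of_le hkl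
    have := h4 k d
    have h0 := abs_half_pos ((s (k + d)).2 + 1)
    linarith
  -- the limit
  obtain ⟨x, hx⟩ := hc (fun k => (s k).1) (by
    intro j ε hε
    obtain ⟨N0, hN0⟩ := abs_half_small ε hε
    refine ⟨max N0 j, ?_⟩
    have key : ∀ m, max N0 j ≤ m →
        p j ((s m).1 - (s (max N0 j)).1) ≤ (1 / 2) ^ ((s (max N0 j)).2 + 1) := by
      intro m hm
      refine (hp _ ?_).trans (h5 _ m hm)
      exact (le_max_right N0 j).trans (hge _)
    intro m hm n hn
    have e : (s m).1 - (s n).1 =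
        ((s m).1 - (s (max N0 j)).1) - ((s n).1 - (s (max N0 j)).1) := by abel
    have a1 := key m hm
    have a2 := key n hn
    have a3 := map_sub_le_add (p j) ((s m).1 - (s (max N0 j)).1) ((s n).1 - (s (max N0 j)).1)
    rw [← e] at a3
    have a4 : ((1 : ℝ) / 2) ^ ((s (max N0 j)).2 + 1) ≤ ε / 2 := by
      have : ((1 : ℝ) / 2) ^ ((s (max N0 j)).2 + 1) ≤ (1 / 2) ^ (N0 + 1) := by
        refine abs_half_anti ?_
        have := (le_max_left N0 j).trans (hge (max N0 j))
        omega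
      rw [pow_succ ((1 : ℝ) / 2) N0] at this
      linarith
    linarith)
  obtain ⟨k, hk⟩ := exists_nat_ge (P x)
  have a1 := h3 k x hk
  have a2 : p (s (k + 1)).2 ((s (k + 1)).1 - x) ≤ (1 / 2) ^ ((s (k + 1)).2 + 1) := by
    have ht : Tendsto (fun l => (1 / 2 : ℝ) ^ ((s (k + 1)).2 + 1) + p (s (k + 1)).2 ((s l).1 - x))
        atTop (𝓝 ((1 / 2 : ℝ) ^ ((s (k + 1)).2 + 1) + 0)) :=
      tendsto_const_nhds.add (hx _)
    rw [add_zero] at ht
    refine ge_of_tendsto ht ?_
    filter_upwards [eventually_ge_atTop (k + 1)] with l hl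
    have b1 := h5 (k + 1) l hl
    have e : (s (k + 1)).1 - x = ((s l).1 - x) - ((s l).1 - (s (k + 1)).1) := by abel
    have b2 := map_sub_le_add (p (s (k + 1)).2) ((s l).1 - x) ((s l).1 - (s (k + 1)).1)
    rw [← e] at b2
    linarith
  have a3 : ((1 : ℝ) / 2) ^ ((s (k + 1)).2 + 1) ≤ (1 / 2) ^ ((s (k + 1)).2) :=
    abs_half_anti (Nat.le_succ _)
  linarith

/-- homogeneous form -/
theorem abs_hom (p : ℕ → Seminorm ℂ E) (P : Seminorm ℂ E)
    (hp : ∀ f : E, Monotone fun j => p j f) (hc : SCompl p) (j : ℕ) :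
    ∃ (i : ℕ) (D : ℝ), j ≤ i ∧ 1 ≤ D ∧ ∀ (y : E) (t : ℝ), 0 < t → p i y ≤ t →
      ∀ (i' : ℕ) (ε : ℝ), 0 < ε → ∃ z, P z ≤ D * t ∧ p i' (y - z) ≤ ε := by
  obtain ⟨n, m, x0, h⟩ := abs_baire p P hp hc
  -- symmetric form
  have h1 : ∀ y, p m y ≤ (1 / 2) ^ m → ∀ m', ∃ z, P z ≤ n ∧ p m' (y - z) ≤ (1 / 2) ^ m' := by
    intro y hy m'
    obtain ⟨z1, hz1, hz1'⟩ := h (x0 + y) (by simpa using hy) m'
    obtain ⟨z2, hz2, hz2'⟩ := h (x0 - y) (by
      have : x0 - y - x0 = -y := by abel
      rw [this, map_neg_eq_map]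
      exact hy) m'
    have n2 : ‖(1 / 2 : ℂ)‖ = 1 / 2 := by norm_num
    refine ⟨(1 / 2 : ℂ) • (z1 - z2), ?_, ?_⟩
    · rw [map_smul_eq_mul, n2]
      have := map_sub_le_add P z1 z2
      linarith
    · have e : y - (1 / 2 : ℂ) • (z1 - z2) =
          (1 / 2 : ℂ) • ((x0 + y - z1) - (x0 - y - z2)) := by
        have : (x0 + y - z1) - (x0 - y - z2) = (2 : ℂ) • y - (z1 - z2) := by
          rw [two_smul]
          abel
        have h12 : (1 / 2 : ℂ) * 2 = 1 := by norm_num
        rw [this, smul_sub (1 / 2 : ℂ) ((2 : ℂ) • y) (z1 - z2), smul_smul, h12, one_smul]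
      rw [e, map_smul_eq_mul, n2]
      have := map_sub_le_add (p m') (x0 + y - z1) (x0 - y - z2)
      linarith
  refine ⟨max m j, (n + 1) * 2 ^ m, le_max_right _ _, ?_, ?_⟩
  · have : (1 : ℝ) ≤ 2 ^ m := one_le_pow₀ (by norm_num)
    have h0 : (0 : ℝ) ≤ n := Nat.cast_nonneg n
    calc (1 : ℝ) = 1 * 1 := by ring
      _ ≤ (n + 1) * 2 ^ m := mul_le_mul (by linarith) this (by norm_num) (by linarith)
  · intro y t ht hy i' ε hε
    have hy' : p m y ≤ t := (hp y (le_max_left m j)).trans hy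
    have hpm : (0 : ℝ) < 2 ^ m := by positivity
    obtain ⟨m1, hm1⟩ := abs_half_small (ε / (t * 2 ^ m)) (by positivity)
    have hc1 : 0 < t * 2 ^ m := by positivity
    have n1 : ‖((t * 2 ^ m : ℝ) : ℂ)‖ = t * 2 ^ m := by
      rw [Complex.norm_real, Real.norm_eq_abs, abs_of_pos hc1]
    have n2 : ‖(((t * 2 ^ m)⁻¹ : ℝ) : ℂ)‖ = (t * 2 ^ m)⁻¹ := by
      rw [Complex.norm_real, Real.norm_eq_abs, abs_of_pos (inv_pos.2 hc1)]
    obtain ⟨z, hz, hz'⟩ := h1 ((((t * 2 ^ m)⁻¹ : ℝ) : ℂ) • y) (by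
      rw [map_smul_eq_mul, n2, inv_mul_le_iff₀ hc1, one_div, inv_pow]
      rw [mul_assoc, mul_inv_cancel₀ hpm.ne', mul_one]
      exact hy') (max m1 i')
    refine ⟨((t * 2 ^ m : ℝ) : ℂ) • z, ?_, ?_⟩
    · rw [map_smul_eq_mul, n1]
      calc t * 2 ^ m * P z ≤ t * 2 ^ m * (n + 1) :=
            mul_le_mul_of_nonneg_left (by linarith) hc1.le
        _ = (n + 1) * 2 ^ m * t := by ring
    · have e : y - ((t * 2 ^ m : ℝ) : ℂ) • z =
          ((t * 2 ^ m : ℝ) : ℂ) • ((((t * 2 ^ m)⁻¹ : ℝ) : ℂ) • y - z) := by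
        rw [smul_sub, smul_smul, ← Complex.ofReal_mul, mul_inv_cancel₀ hc1.ne', Complex.ofReal_one,
          one_smul]
      rw [e, map_smul_eq_mul, n1]
      have a1 : p i' ((((t * 2 ^ m)⁻¹ : ℝ) : ℂ) • y - z) ≤ (1 / 2) ^ (max m1 i') :=
        (hp _ (le_max_right m1 i')).trans hz'
      have a2 : ((1 : ℝ) / 2) ^ (max m1 i') ≤ ε / (t * 2 ^ m) :=
        (abs_half_anti (le_max_left m1 i')).trans hm1
      calc t * 2 ^ m * p i' ((((t * 2 ^ m)⁻¹ : ℝ) : ℂ) • y - z)
          ≤ t * 2 ^ m * (ε / (t * 2 ^ m)) :=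
            mul_le_mul_of_nonneg_left (a1.trans a2) hc1.le
        _ = ε := by field_simp

end AbsSec

theorem absStmt : AbsStmt := by
  intro E _ _ p π hp hπ hpπ hsep hcp hcπ j
  have hpm : ∀ f : E, Monotone fun j => p j f := fun f => monotone_nat_of_le_succ fun k => hp k f
  have hπm : ∀ f : E, Monotone fun j => π j f := fun f => monotone_nat_of_le_succ fun k => hπ k f
  have hex := fun j => abs_hom p (π j) hpm hcp j
  choose I D hI hD hex using hex
  refine ⟨I j, 2 * D j, by linarith [hD j], ?_⟩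
  have hDj : 0 < D j := by linarith [hD j]
  -- the main claim
  have main : ∀ (f : E) (t : ℝ), 0 < t → p (I j) f ≤ t → π j f ≤ 2 * D j * t := by
    intro f t ht hf
    let T : ℕ → ℝ := fun k => D j * t / (D (j + k) * 2 ^ k)
    have hD0 : ∀ k, 0 < D k := fun k => by linarith [hD k]
    have hT : ∀ k, 0 < T k := fun k => by
      have := hD0 (j + k)
      dsimp only [T]
      positivity
    have hTD : ∀ k, D (j + k) * T k = D j * t * (1 / 2) ^ k := fun k => by
      have := (hD0 (j + k)).ne'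
      dsimp only [T]
      rw [one_div, inv_pow]
      field_simp
    have hT0 : T 0 = t := by
      dsimp only [T]
      rw [add_zero, pow_zero, mul_one]
      field_simp
    have hTle : ∀ k, T k ≤ D j * t * (1 / 2) ^ k := fun k => by
      rw [← hTD k]
      have := hT k
      have h1 := hD (j + k)
      calc T k = 1 * T k := by ring
        _ ≤ D (j + k) * T k := mul_le_mul_of_nonneg_right h1 this.le
    have hstep : ∀ (k : ℕ) (y : E), ∃ z, p (I (j + k)) y ≤ T k →
        (π (j + k) z ≤ D j * t * (1 / 2) ^ k ∧ p (I (j + (k + 1))) (y - z) ≤ T (k + 1)) := by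
      intro k y
      by_cases hy : p (I (j + k)) y ≤ T k
      · obtain ⟨z, hz1, hz2⟩ := hex (j + k) y (T k) (hT k) hy (I (j + (k + 1))) (T (k + 1))
          (hT (k + 1))
        rw [hTD] at hz1
        exact ⟨z, fun _ => ⟨hz1, hz2⟩⟩
      · exact ⟨0, fun h => absurd h hy⟩
    choose Z hZ using hstep
    let r : ℕ → E := fun k => Nat.rec f (fun k y => y - Z k y) k
    have hr0 : r 0 = f := rfl
    have hr : ∀ k, r (k + 1) = r k - Z k (r k) := fun k => rfl
    have hrb : ∀ k, p (I (j + k)) (r k) ≤ T k := by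
      intro k
      induction k with
      | zero =>
        rw [hT0, hr0]
        exact hf
      | succ k ih =>
        rw [hr]
        exact (hZ k (r k) ih).2
    have hz : ∀ k, π (j + k) (Z k (r k)) ≤ D j * t * (1 / 2) ^ k := fun k => (hZ k _ (hrb k)).1
    -- sums
    let S : ℕ → E := fun k => f - r k
    have hS : ∀ k, S (k + 1) - S k = Z k (r k) := fun k => by
      dsimp only [S]
      rw [hr]
      abel
    have hSd : ∀ i k l, i ≤ j + k → π i (S (k + l) - S k) ≤
        D j * t * (2 * (1 / 2) ^ k - 2 * (1 / 2) ^ (k + l)) := by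
      intro i k l hik
      induction l with
      | zero => simp
      | succ l ih =>
        have e : S (k + (l + 1)) - S k = (S (k + l + 1) - S (k + l)) + (S (k + l) - S k) := by
          rw [← add_assoc]
          abel
        rw [e]
        have a1 : π i (S (k + l + 1) - S (k + l)) ≤ D j * t * (1 / 2) ^ (k + l) := by
          rw [hS]
          exact (hπm _ (show i ≤ j + (k + l) by omega)).trans (hz (k + l))
        have a2 := map_add_le_add (π i) (S (k + l + 1) - S (k + l)) (S (k + l) - S k)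
        have a3 : ((1 : ℝ) / 2) ^ (k + (l + 1)) = (1 / 2) * (1 / 2) ^ (k + l) := by
          rw [← add_assoc, pow_succ]
          ring
        rw [a3]
        have a4 : D j * t * (2 * (1 / 2) ^ k - 2 * (1 / 2 * (1 / 2) ^ (k + l))) =
            D j * t * (1 / 2) ^ (k + l) +
              D j * t * (2 * (1 / 2) ^ k - 2 * (1 / 2) ^ (k + l)) := by ring
        rw [a4]
        linarith
    have hDt : 0 < D j * t := by positivity
    have hSd' : ∀ i k l, i ≤ j + k → k ≤ l → π i (S l - S k) ≤ 2 * (D j * t) * (1 / 2) ^ k := by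
      intro i k l hik hkl
      obtain ⟨d, rfl⟩ := Nat.exists_eq_add_of_le hkl
      refine (hSd i k d hik).trans ?_
      have h0 : 0 ≤ D j * t * (2 * (1 / 2) ^ (k + d)) := by positivity
      have : D j * t * (2 * (1 / 2) ^ k - 2 * (1 / 2) ^ (k + d)) =
          2 * (D j * t) * (1 / 2) ^ k - D j * t * (2 * (1 / 2) ^ (k + d)) := by ring
      linarith
    obtain ⟨g, hg⟩ := hcπ S (by
      intro i ε hε
      obtain ⟨N0, hN0⟩ := abs_half_small (ε / (4 * (D j * t))) (by positivity)
      refine ⟨max N0 i, fun m hm n hn => ?_⟩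
      have b0 : i ≤ j + max N0 i := (le_max_right N0 i).trans (Nat.le_add_left _ _)
      have b1 := hSd' i (max N0 i) m b0 hm
      have b2 := hSd' i (max N0 i) n b0 hn
      have e : S m - S n = (S m - S (max N0 i)) - (S n - S (max N0 i)) := by abel
      have b3 := map_sub_le_add (π i) (S m - S (max N0 i)) (S n - S (max N0 i))
      rw [← e] at b3
      have b4 : ((1 : ℝ) / 2) ^ (max N0 i) ≤ ε / (4 * (D j * t)) :=
        (abs_half_anti (le_max_left N0 i)).trans hN0
      have b5 : 2 * (D j * t) * (1 / 2) ^ (max N0 i) ≤ ε / 2 := by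
        calc 2 * (D j * t) * (1 / 2) ^ (max N0 i) ≤ 2 * (D j * t) * (ε / (4 * (D j * t))) :=
              mul_le_mul_of_nonneg_left b4 (by positivity)
          _ = ε / 2 := by
              field_simp
              norm_num
      linarith)
    -- `f = g`
    have hfg : f - g = 0 := by
      refine hsep _ fun i => ?_
      refine le_antisymm ?_ (apply_nonneg _ _)
      have hh0 : Tendsto (fun k : ℕ => (1 / 2 : ℝ) ^ k) atTop (𝓝 0) :=
        tendsto_pow_atTop_nhds_zero_of_lt_one (by norm_num) (by norm_num)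
      have hh : Tendsto (fun k : ℕ => D j * t * (1 / 2) ^ k + π i (S k - g)) atTop
          (𝓝 (D j * t * 0 + 0)) := (hh0.const_mul (D j * t)).add (hg i)
      rw [mul_zero, add_zero] at hh
      refine ge_of_tendsto hh ?_
      filter_upwards [eventually_ge_atTop i] with k hk
      have e : f - g = r k + (S k - g) := by
        dsimp only [S]
        abel
      rw [e]
      have c1 : p i (r k) ≤ D j * t * (1 / 2) ^ k := by
        refine (hpm _ ?_).trans ((hrb k).trans (hTle k))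
        exact hk.trans ((Nat.le_add_left k j).trans (hI (j + k)))
      have c2 : p i (S k - g) ≤ π i (S k - g) := hpπ i _
      have c3 := map_add_le_add (p i) (r k) (S k - g)
      linarith
    have hfg' : f = g := sub_eq_zero.1 hfg
    -- the bound
    have hS0 : S 0 = 0 := by
      dsimp only [S]
      rw [hr0, sub_self]
    have hh : Tendsto (fun k : ℕ => 2 * D j * t + π j (S k - g)) atTop
        (𝓝 (2 * D j * t + 0)) := tendsto_const_nhds.add (hg j)
    rw [add_zero] at hh
    refine ge_of_tendsto hh (Eventually.of_forall fun k => ?_)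
    have d1 := hSd' j 0 k (by omega) (Nat.zero_le k)
    rw [hS0, sub_zero, pow_zero, mul_one] at d1
    have e : f = S k - (S k - g) := by
      rw [sub_sub_cancel, hfg']
    have d2 := map_sub_le_add (π j) (S k) (S k - g)
    rw [← e] at d2
    linarith
  intro f
  refine le_of_forall_pos_le_add fun ε hε => ?_
  have h0 : 0 ≤ p (I j) f := apply_nonneg _ _
  have h1 := main f (p (I j) f + ε / (2 * D j)) (by positivity) (by
    have : 0 < ε / (2 * D j) := by positivity
    linarith)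
  have h2 : 2 * D j * (p (I j) f + ε / (2 * D j)) = 2 * D j * p (I j) f + ε := by
    field_simp
  rw [h2] at h1
  exact h1

end Pool.Agent.Lib.MP_413903_an
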