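import Pool.Agent.Lib.MP_413903_an.Defs

/-!
# MP_413903_an: basic facts

Sup norms over compact sets, the elements `(z - c)^(-b)` of `O(D)`.
-/

set_option autoImplicit false

namespace Pool.Agent.Lib.MP_413903_an

open Complex Set Filter Topology OnePoint NNReal TopologicalSpace

variable {D : Set (OnePoint ℂ)}

/-- The sup norm over the compact subset `K` of `D`. -/
noncomputable def nrm (K : Compacts D) (f : C(D, ℂ)) : ℝ := ‖f.restrict (K : Set D)‖

theorem nrm_nonneg (K : Compacts D) (f : C(D, ℂ)) : 0 ≤ nrm K f := norm_nonneg _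

theorem le_nrm (K : Compacts D) (f : C(D, ℂ)) {p : D} (hp : p ∈ K) : ‖f p‖ ≤ nrm K f :=
  (f.restrict (K : Set D)).norm_coe_le_norm ⟨p, hp⟩

theorem nrm_le (K : Compacts D) (f : C(D, ℂ)) {M : ℝ} (hM : 0 ≤ M)
    (h : ∀ p ∈ K, ‖f p‖ ≤ M) : nrm K f ≤ M := by
  refine (ContinuousMap.norm_le _ hM).2 fun p => ?_
  exact h p.1 p.2

theorem nrm_add (K : Compacts D) (f g : C(D, ℂ)) : nrm K (f + g) ≤ nrm K f + nrm K g :=
  nrm_le K _ (add_nonneg (nrm_nonneg _ _) (nrm_nonneg _ _)) fun _ hp =>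
    (norm_add_le _ _).trans (add_le_add (le_nrm K f hp) (le_nrm K g hp))

theorem nrm_sub (K : Compacts D) (f g : C(D, ℂ)) : nrm K (f - g) ≤ nrm K f + nrm K g :=
  nrm_le K _ (add_nonneg (nrm_nonneg _ _) (nrm_nonneg _ _)) fun _ hp =>
    (norm_sub_le _ _).trans (add_le_add (le_nrm K f hp) (le_nrm K g hp))

theorem nrm_smul (K : Compacts D) (c : ℂ) (f : C(D, ℂ)) : nrm K (c • f) = ‖c‖ * nrm K f := by
  unfold nrm
  rw [← norm_smul]
  rfl

theorem nrm_mono {K L : Compacts D} (h : (K : Set D) ⊆ L) (f : C(D, ℂ)) : nrm K f ≤ nrm L f :=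
  nrm_le K f (nrm_nonneg _ _) fun _ hp => le_nrm L f (h hp)

/-- The compact subset of `D` given by a compact subset of the plane. -/
def mkK (K : Set ℂ) (hK : IsCompact K) (h : ∀ z ∈ K, (z : OnePoint ℂ) ∈ D) : Compacts D where
  carrier := range (fun z : K => (⟨(z.1 : OnePoint ℂ), h z.1 z.2⟩ : D))
  isCompact' := by
    have := isCompact_iff_compactSpace.1 hK
    refine isCompact_range ?_
    exact Continuous.subtype_mk (OnePoint.continuous_coe.comp continuous_subtype_val) _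

theorem le_nrm_mkK {K : Set ℂ} (hK : IsCompact K) (h : ∀ z ∈ K, (z : OnePoint ℂ) ∈ D)
    (f : C(D, ℂ)) {z : ℂ} (hz : z ∈ K) : ‖ext f z‖ ≤ nrm (mkK K hK h) f := by
  rw [ext_of_mem f (h z hz)]
  exact le_nrm _ f ⟨⟨z, hz⟩, rfl⟩

theorem nrm_mkK_le {K : Set ℂ} (hK : IsCompact K) (h : ∀ z ∈ K, (z : OnePoint ℂ) ∈ D)
    (f : C(D, ℂ)) {M : ℝ} (hM : 0 ≤ M) (hf : ∀ z ∈ K, ‖ext f z‖ ≤ M) :
    nrm (mkK K hK h) f ≤ M := by
  refine nrm_le _ f hM ?_
  rintro p ⟨⟨z, hz⟩, rfl⟩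
  have := hf z hz
  rwa [ext_of_mem f (h z hz)] at this

/-- A compact subset of `D` stays away from a point `c ∉ D` of the plane. -/
theorem far (K : Compacts D) (c : ℂ) (hc : (c : OnePoint ℂ) ∉ D) :
    ∃ ρ : ℝ, 0 < ρ ∧ ∀ p ∈ K, ∀ z : ℂ, (p : OnePoint ℂ) = z → ρ ≤ ‖z - c‖ := by
  have h1 : IsCompact ((fun p : D => (p : OnePoint ℂ)) '' (K : Set D)) :=
    K.isCompact.image continuous_subtype_val
  have h2 : IsClosed ((fun z : ℂ => (z : OnePoint ℂ)) ⁻¹'
      ((fun p : D => (p : OnePoint ℂ)) '' (K : Set D))) :=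
    h1.isClosed.preimage OnePoint.continuous_coe
  have h3 : c ∉ ((fun z : ℂ => (z : OnePoint ℂ)) ⁻¹'
      ((fun p : D => (p : OnePoint ℂ)) '' (K : Set D))) := by
    rintro ⟨p, _, hp⟩
    have hp' : (p : OnePoint ℂ) = (c : OnePoint ℂ) := hp
    exact hc (hp' ▸ p.2)
  obtain ⟨ε, hε, hb⟩ := Metric.isOpen_iff.1 h2.isOpen_compl c h3
  refine ⟨ε, hε, fun p hp z hz => ?_⟩
  by_contra hlt
  have : z ∈ Metric.ball c ε := by
    rw [mem_ball_iff_norm]
    exact not_le.1 hlt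
  exact hb this ⟨p, hp, hz⟩

/-- The function `(z - c)^(-b)`, `0` at infinity. -/
noncomputable def pwFun (c : ℂ) (b : ℕ) (p : OnePoint ℂ) : ℂ :=
  p.elim 0 (fun z => ((z - c)⁻¹) ^ b)

theorem pwFun_continuousAt (c : ℂ) (b : ℕ) (hb : b ≠ 0) (p : OnePoint ℂ)
    (hp : p ≠ (c : OnePoint ℂ)) : ContinuousAt (pwFun c b) p := by
  induction p using OnePoint.rec with
  | infty =>
    rw [OnePoint.continuousAt_infty']
    have h0 : pwFun c b ∞ = 0 := rfl
    rw [h0]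
    have h1 : (pwFun c b ∘ fun z : ℂ => (z : OnePoint ℂ)) = fun z : ℂ => ((z - c)⁻¹) ^ b := rfl
    rw [h1, Filter.coclosedCompact_eq_cocompact, ← Metric.cobounded_eq_cocompact]
    have h2 : Tendsto (fun z : ℂ => z - c) (Bornology.cobounded ℂ) (Bornology.cobounded ℂ) := by
      simp [sub_eq_add_neg]
    have h3 := (tendsto_inv₀_cobounded (α := ℂ)).comp h2
    have h4 := h3.pow b
    rw [zero_pow hb] at h4
    exact h4
  | coe z =>
    rw [OnePoint.continuousAt_coe]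
    have h1 : (pwFun c b ∘ fun z : ℂ => (z : OnePoint ℂ)) = fun z : ℂ => ((z - c)⁻¹) ^ b := rfl
    rw [h1]
    have hz : z - c ≠ 0 := by
      intro h
      exact hp (by rw [sub_eq_zero.1 h])
    exact ((continuousAt_id.sub continuousAt_const).inv₀ hz).pow b

theorem openD_nhds (hD : IsOpen D) {z : ℂ} (hz : (z : OnePoint ℂ) ∈ D) :
    ∀ᶠ w : ℂ in 𝓝 z, (w : OnePoint ℂ) ∈ D :=
  (OnePoint.continuous_coe.continuousAt (x := z)).eventually_mem (hD.mem_nhds hz)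

theorem chartInf_nhds (hD : IsOpen D) (h : ∞ ∈ D) : ∀ᶠ w : ℂ in 𝓝 0, chartInf w ∈ D := by
  have h1 : Tendsto (fun z : ℂ => (z : OnePoint ℂ)) (Bornology.cobounded ℂ)
      (𝓝 (∞ : OnePoint ℂ)) := by
    have := OnePoint.tendsto_coe_infty (X := ℂ)
    rwa [Filter.coclosedCompact_eq_cocompact, ← Metric.cobounded_eq_cocompact] at this
  have h2 := h1.eventually (hD.mem_nhds h)
  have h3 : ∀ᶠ w : ℂ in 𝓝[≠] 0, ((w⁻¹ : ℂ) : OnePoint ℂ) ∈ D :=
    tendsto_inv₀_nhdsNE_zero.eventually h2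
  rw [eventually_nhdsWithin_iff] at h3
  filter_upwards [h3] with w hw
  unfold chartInf
  split_ifs with hw0
  · exact h
  · exact hw hw0

/-- The element `(z - c)^(-b)`, `b ≥ 1`, of `O(D)` for a point `c ∉ D` of the plane. -/
noncomputable def pw (hD : IsOpen D) (c : ℂ) (hc : (c : OnePoint ℂ) ∉ D) (b : ℕ) (hb : b ≠ 0) :
    OO D :=
  ⟨⟨fun p => pwFun c b p, by
    rw [continuous_iff_continuousAt]
    intro p
    refine (pwFun_continuousAt c b hb p ?_).comp continuous_subtype_val.continuousAt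
    intro h
    exact hc (h ▸ p.2)⟩, by
    refine ⟨fun z hz => ?_, fun h => ?_⟩
    · have h1 : AnalyticAt ℂ (fun w : ℂ => ((w - c)⁻¹) ^ b) z := by
        have hz' : z - c ≠ 0 := by
          intro h
          exact hc (by rw [← sub_eq_zero.1 h]; exact hz)
        exact ((analyticAt_id.sub analyticAt_const).inv hz').pow b
      refine h1.congr ?_
      filter_upwards [openD_nhds hD hz] with w hw
      rw [ext_of_mem _ hw]
      rfl
    · have h1 : AnalyticAt ℂ (fun w : ℂ => (w * (1 - c * w)⁻¹) ^ b) 0 := by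
        refine (analyticAt_id.mul ((analyticAt_const.sub
          (analyticAt_const.mul analyticAt_id)).inv ?_)).pow b
        simp
      refine h1.congr ?_
      filter_upwards [chartInf_nhds hD h] with w hw
      rw [ext_of_mem _ hw]
      show _ = pwFun c b (chartInf w)
      by_cases hw0 : w = 0
      · subst hw0
        have : chartInf 0 = ∞ := by simp [chartInf]
        rw [this]
        show _ = (0 : ℂ)
        simp [hb]
      · have : chartInf w = ((w⁻¹ : ℂ) : OnePoint ℂ) := by simp [chartInf, hw0]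
        rw [this]
        show _ = ((w⁻¹ - c)⁻¹) ^ b
        congr 1
        have h2 : w⁻¹ - c = (1 - c * w) * w⁻¹ := by
          field_simp
        rw [h2, mul_inv, inv_inv, mul_comm]⟩

theorem pw_apply (hD : IsOpen D) (c : ℂ) (hc : (c : OnePoint ℂ) ∉ D) (b : ℕ) (hb : b ≠ 0)
    {z : ℂ} (hz : (z : OnePoint ℂ) ∈ D) : ext (pw hD c hc b hb : C(D, ℂ)) z = ((z - c)⁻¹) ^ b := by
  rw [ext_of_mem _ hz]
  rfl

theorem pw_coe (hD : IsOpen D) (c : ℂ) (hc : (c : OnePoint ℂ) ∉ D) (b : ℕ) (hb : b ≠ 0)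
    (p : D) : (pw hD c hc b hb : C(D, ℂ)) p = pwFun c b p := rfl

theorem removed_compact {q : ℝ} {r : ℕ → ℝ} (hq0 : 0 < q) (hq1 : q < 1)
    (hr1 : ∀ j, 1 ≤ j → r j < q ^ j) : IsCompact (Removed q r) := by
  refine Metric.isCompact_of_isClosed_isBounded ?_ ?_
  · rw [← isOpen_compl_iff, isOpen_iff_eventually]
    intro z hz
    have hz0 : z ≠ 0 := fun h => hz (Or.inl h)
    have hzj : ∀ j, 1 ≤ j → r j < ‖z - (q : ℂ) ^ j‖ := fun j hj => by
      by_contra h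
      exact hz (Or.inr ⟨j, hj, not_lt.1 h⟩)
    have hzn : 0 < ‖z‖ := norm_pos_iff.2 hz0
    obtain ⟨J, hJ⟩ := exists_pow_lt_of_lt_one (show 0 < ‖z‖ / 4 by positivity) hq1
    have hA : ∀ᶠ w : ℂ in 𝓝 z, ‖z‖ / 2 < ‖w‖ :=
      (continuous_norm.continuousAt (x := z)).eventually (lt_mem_nhds (by linarith))
    have hB : ∀ᶠ w : ℂ in 𝓝 z, ∀ j ∈ Finset.Icc 1 J, r j < ‖w - (q : ℂ) ^ j‖ := by
      rw [Filter.eventually_all_finset]
      intro j hj
      have hc : ContinuousAt (fun w : ℂ => ‖w - (q : ℂ) ^ j‖) z := by fun_prop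
      exact hc.eventually (lt_mem_nhds (hzj j (Finset.mem_Icc.1 hj).1))
    filter_upwards [hA, hB] with w hw1 hw2
    rintro (h | ⟨j, hj, h⟩)
    · rw [h, norm_zero] at hw1
      linarith
    · by_cases hjJ : j ≤ J
      · exact absurd h (not_le.2 (hw2 j (Finset.mem_Icc.2 ⟨hj, hjJ⟩)))
      · have h1 : q ^ j ≤ q ^ J := pow_le_pow_of_le_one hq0.le hq1.le (by omega)
        have h2 : ‖w‖ ≤ ‖w - (q : ℂ) ^ j‖ + ‖(q : ℂ) ^ j‖ := by
          simpa using norm_add_le (w - (q : ℂ) ^ j) ((q : ℂ) ^ j)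
        have h3 : ‖(q : ℂ) ^ j‖ = q ^ j := by
          rw [norm_pow, Complex.norm_real, Real.norm_of_nonneg hq0.le]
        have h4 := hr1 j hj
        linarith
  · refine (Metric.isBounded_closedBall (x := (0 : ℂ)) (r := 2)).subset ?_
    intro z hz
    rw [mem_closedBall_zero_iff]
    rcases hz with h | ⟨j, hj, h⟩
    · rw [h, norm_zero]
      norm_num
    · have h2 : ‖z‖ ≤ ‖z - (q : ℂ) ^ j‖ + ‖(q : ℂ) ^ j‖ := by
        simpa using norm_add_le (z - (q : ℂ) ^ j) ((q : ℂ) ^ j)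
      have h3 : ‖(q : ℂ) ^ j‖ = q ^ j := by
        rw [norm_pow, Complex.norm_real, Real.norm_of_nonneg hq0.le]
      have h4 := hr1 j hj
      have h5 : q ^ j ≤ 1 := pow_le_one₀ hq0.le hq1.le
      linarith

theorem isOpen_dom {q : ℝ} {r : ℕ → ℝ} (hq0 : 0 < q) (hq1 : q < 1)
    (hr1 : ∀ j, 1 ≤ j → r j < q ^ j) : IsOpen (Dom q r) := by
  have h := removed_compact hq0 hq1 hr1
  exact OnePoint.isOpen_compl_image_coe.2 ⟨h.isClosed, h⟩

theorem coe_mem_dom {q : ℝ} {r : ℕ → ℝ} {z : ℂ} : (z : OnePoint ℂ) ∈ Dom q r ↔ z ∉ Removed q r := by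
  unfold Dom
  rw [mem_compl_iff, not_iff_not]
  constructor
  · rintro ⟨w, hw, h⟩
    rwa [OnePoint.coe_eq_coe.1 h] at hw
  · intro h
    exact ⟨z, h, rfl⟩

end Pool.Agent.Lib.MP_413903_an
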