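import Pool.Agent.Lib.MP_413903_an.Spec

/-!
# MP_413903_an: automatic continuity of the coefficient functionals

First an abstract version for a vector space with a sequence of seminorms, then `basis`.
-/

set_option autoImplicit false

namespace Pool.Agent.Lib.MP_413903_an

open Complex Set Filter Topology OnePoint NNReal TopologicalSpace

section basisAbstract

variable {E : Type} [AddCommGroup E] [Module ℂ E]

/-- the finite sums of `∑ c_k v_k` tend to `f` in all seminorms -/
def basisTo (p : ℕ → Seminorm ℂ E) (v : ℕ → E) (c : ℕ → ℂ) (f : E) : Prop :=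
  ∀ j, Tendsto (fun N => p j (∑ k ∈ Finset.range N, c k • v k - f)) atTop (𝓝 0)

variable {p : ℕ → Seminorm ℂ E} {v : ℕ → E}

theorem basisTo_add {c d : ℕ → ℂ} {f g : E} (hc : basisTo p v c f) (hd : basisTo p v d g) :
    basisTo p v (c + d) (f + g) := by
  intro j
  have h := (hc j).add (hd j)
  rw [add_zero] at h
  refine squeeze_zero (fun N => apply_nonneg _ _) (fun N => ?_) h
  have e : ∑ k ∈ Finset.range N, (c + d) k • v k - (f + g) =
      (∑ k ∈ Finset.range N, c k • v k - f) + (∑ k ∈ Finset.range N, d k • v k - g) := by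
    simp only [Pi.add_apply, add_smul, Finset.sum_add_distrib]
    abel
  rw [e]
  exact map_add_le_add _ _ _

theorem basisTo_smul (a : ℂ) {c : ℕ → ℂ} {f : E} (hc : basisTo p v c f) :
    basisTo p v (a • c) (a • f) := by
  intro j
  have h := (hc j).const_mul ‖a‖
  rw [mul_zero] at h
  refine h.congr fun N => ?_
  rw [← map_smul_eq_mul]
  congr 1
  rw [smul_sub, Finset.smul_sum]
  simp only [Pi.smul_apply, smul_eq_mul, smul_smul]

theorem basisTo_single (j : ℕ) :
    basisTo p v (fun k => if k = j then 1 else 0) (v j) := by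
  intro i
  refine tendsto_const_nhds.congr' ?_
  filter_upwards [eventually_gt_atTop j] with N hN
  have e : ∑ k ∈ Finset.range N, (if k = j then (1 : ℂ) else 0) • v k = v j := by
    rw [Finset.sum_eq_single j]
    · rw [if_pos rfl, one_smul]
    · intro k _ hk
      rw [if_neg hk, zero_smul]
    · intro h
      exact absurd (Finset.mem_range.2 hN) h
  rw [e, sub_self, map_zero]

/-- supremum of a seminorm over a sequence of linear maps -/
noncomputable def basisPi (q : Seminorm ℂ E) (S : ℕ → E →ₗ[ℂ] E)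
    (hb : ∀ f, BddAbove (range fun N => q (S N f))) : Seminorm ℂ E :=
  Seminorm.of (fun f => ⨆ N, q (S N f))
    (fun f g => ciSup_le fun N => by
      rw [map_add]
      exact (map_add_le_add q _ _).trans (add_le_add (le_ciSup (hb f) N) (le_ciSup (hb g) N)))
    (fun c f => by
      rw [Real.mul_iSup_of_nonneg (norm_nonneg c)]
      refine iSup_congr fun N => ?_
      rw [_root_.map_smul, map_smul_eq_mul])

theorem basisPi_apply (q : Seminorm ℂ E) (S : ℕ → E →ₗ[ℂ] E)
    (hb : ∀ f, BddAbove (range fun N => q (S N f))) (f : E) :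
    basisPi q S hb f = ⨆ N, q (S N f) := rfl

theorem le_basisPi (q : Seminorm ℂ E) (S : ℕ → E →ₗ[ℂ] E)
    (hb : ∀ f, BddAbove (range fun N => q (S N f))) (f : E) (N : ℕ) :
    q (S N f) ≤ basisPi q S hb f := le_ciSup (hb f) N

theorem basisPi_le (q : Seminorm ℂ E) (S : ℕ → E →ₗ[ℂ] E)
    (hb : ∀ f, BddAbove (range fun N => q (S N f))) (f : E) {M : ℝ}
    (h : ∀ N, q (S N f) ≤ M) : basisPi q S hb f ≤ M := ciSup_le h

theorem basis_bdd (q : Seminorm ℂ E) (S : ℕ → E →ₗ[ℂ] E) (f : E)
    (h : Tendsto (fun N => q (S N f - f)) atTop (𝓝 0)) :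
    BddAbove (range fun N => q (S N f)) := by
  obtain ⟨B, hB⟩ := h.bddAbove_range
  refine ⟨B + q f, ?_⟩
  rintro _ ⟨N, rfl⟩
  have h1 : q (S N f - f) ≤ B := hB ⟨N, rfl⟩
  have h2 : q (S N f) ≤ q (S N f - f) + q f := by
    have := map_add_le_add q (S N f - f) f
    rwa [sub_add_cancel] at this
  have h3 : q (S N f) ≤ B + q f := by linarith
  exact h3

theorem basis_le_pi (q : Seminorm ℂ E) (S : ℕ → E →ₗ[ℂ] E)
    (hb : ∀ f, BddAbove (range fun N => q (S N f))) (f : E)
    (h : Tendsto (fun N => q (S N f - f)) atTop (𝓝 0)) : q f ≤ basisPi q S hb f := by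
  have h1 : Tendsto (fun N => q (S N f - f) + basisPi q S hb f) atTop
      (𝓝 (0 + basisPi q S hb f)) := h.add tendsto_const_nhds
  rw [zero_add] at h1
  refine ge_of_tendsto' h1 fun N => ?_
  have h2 : q f ≤ q (S N f - f) + q (S N f) := by
    have := map_sub_le_add q (S N f) (S N f - f)
    rw [sub_sub_cancel] at this
    linarith
  linarith [le_basisPi q S hb f N]

/-- abstract version: the coefficient functionals of a basis are continuous -/
theorem basis_abstract (h4 : AbsStmt) (p : ℕ → Seminorm ℂ E)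
    (hmono : ∀ j f, p j f ≤ p (j + 1) f) (hsep : ∀ f, (∀ j, p j f = 0) → f = 0)
    (hcomp : SCompl p) (v : ℕ → E) (hv : ∀ f : E, ∃! c : ℕ → ℂ, basisTo p v c f) :
    ∃ η : ℕ → E →ₗ[ℂ] ℂ, (∀ f, basisTo p v (fun k => η k f) f) ∧
      (∀ k j, η k (v j) = if k = j then 1 else 0) ∧
      ∀ j, ∃ (i : ℕ) (C : ℝ), 0 ≤ C ∧ ∀ f k, ‖η k f‖ * p j (v k) ≤ C * p i f := by
  have hv' : ∀ f : E, ∃ c : ℕ → ℂ, basisTo p v c f ∧ ∀ d, basisTo p v d f → d = c := hv
  choose coef hcoef huniq using hv'
  let η : ℕ → E →ₗ[ℂ] ℂ := fun k =>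
    { toFun := fun f => coef f k
      map_add' := fun f g => by
        rw [← huniq (f + g) (coef f + coef g) (basisTo_add (hcoef f) (hcoef g))]
        rfl
      map_smul' := fun a f => by
        rw [← huniq (a • f) (a • coef f) (basisTo_smul a (hcoef f))]
        rfl }
  have hη : ∀ k f, η k f = coef f k := fun k f => rfl
  have hηv : ∀ k j, η k (v j) = if k = j then 1 else 0 := by
    intro k j
    rw [hη, ← huniq (v j) _ (basisTo_single j)]
  let S : ℕ → E →ₗ[ℂ] E := fun N => ∑ k ∈ Finset.range N, (η k).smulRight (v k)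
  have hS : ∀ N f, S N f = ∑ k ∈ Finset.range N, η k f • v k := by
    intro N f
    simp only [S, LinearMap.sum_apply, LinearMap.smulRight_apply]
  have hSt : ∀ f j, Tendsto (fun N => p j (S N f - f)) atTop (𝓝 0) := by
    intro f j
    simp only [hS]
    exact hcoef f j
  have hb : ∀ j f, BddAbove (range fun N => p j (S N f)) := fun j f =>
    basis_bdd (p j) S f (hSt f j)
  let π : ℕ → Seminorm ℂ E := fun j => basisPi (p j) S (hb j)
  have hπ1 : ∀ j f N, p j (S N f) ≤ π j f := fun j f N => le_basisPi (p j) S (hb j) f N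
  have hπ2 : ∀ j f (M : ℝ), (∀ N, p j (S N f) ≤ M) → π j f ≤ M := fun j f M h =>
    basisPi_le (p j) S (hb j) f h
  have hpπ : ∀ j f, p j f ≤ π j f := fun j f => basis_le_pi (p j) S (hb j) f (hSt f j)
  have hπm : ∀ j f, π j f ≤ π (j + 1) f := fun j f => hπ2 j f _ fun N =>
    (hmono j _).trans (hπ1 (j + 1) f N)
  -- the coefficients are controlled by `π`
  have hco : ∀ j f k, ‖η k f‖ * p j (v k) ≤ 2 * π j f := by
    intro j f k
    have e : η k f • v k = S (k + 1) f - S k f := by
      rw [hS, hS, Finset.sum_range_succ, add_sub_cancel_left]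
    rw [← map_smul_eq_mul, e]
    have := map_sub_le_add (p j) (S (k + 1) f) (S k f)
    linarith [hπ1 j f (k + 1), hπ1 j f k]
  -- completeness for `π`
  have hcπ : SCompl π := by
    intro F hF
    obtain ⟨g, hg⟩ := hcomp F (fun j ε hε => by
      obtain ⟨N, hN⟩ := hF j ε hε
      exact ⟨N, fun m hm n hn => (hpπ j _).trans (hN m hm n hn)⟩)
    -- limits of the coefficients
    have hlim : ∀ k, ∃ a : ℂ, Tendsto (fun m => η k (F m)) atTop (𝓝 a) := by
      intro k
      refine cauchySeq_tendsto_of_complete ?_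
      have hvk : v k ≠ 0 := by
        intro h0
        have h1 := hηv k k
        rw [h0, map_zero, if_pos rfl] at h1
        exact zero_ne_one h1
      obtain ⟨j, hj⟩ : ∃ j, p j (v k) ≠ 0 := by
        by_contra hc
        exact hvk (hsep _ fun j => by
          by_contra h
          exact hc ⟨j, h⟩)
      have hj0 : 0 < p j (v k) := lt_of_le_of_ne (apply_nonneg _ _) (Ne.symm hj)
      rw [Metric.cauchySeq_iff]
      intro ε hε
      obtain ⟨N, hN⟩ := hF j (ε * p j (v k) / 4) (by positivity)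
      refine ⟨N, fun m hm n hn => ?_⟩
      have h1 := hco j (F m - F n) k
      have h2 := hN m hm n hn
      rw [map_sub] at h1
      rw [dist_eq_norm]
      have h3 : ‖η k (F m) - η k (F n)‖ * p j (v k) ≤ ε / 2 * p j (v k) := by
        have : (2 : ℝ) * (ε * p j (v k) / 4) = ε / 2 * p j (v k) := by ring
        linarith
      have h4 := le_of_mul_le_mul_right h3 hj0
      linarith
    choose a ha using hlim
    have hSm : ∀ N j, Tendsto (fun n => p j (S N (F n) - ∑ k ∈ Finset.range N, a k • v k))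
        atTop (𝓝 0) := by
      intro N j
      have h1 : Tendsto (fun n => ∑ k ∈ Finset.range N, ‖η k (F n) - a k‖ * p j (v k)) atTop
          (𝓝 (∑ k ∈ Finset.range N, (0 : ℝ) * p j (v k))) := by
        refine tendsto_finsetSum _ fun k _ => ?_
        exact (tendsto_iff_norm_sub_tendsto_zero.1 (ha k)).mul_const _
      simp only [zero_mul, Finset.sum_const_zero] at h1
      refine squeeze_zero (fun n => apply_nonneg _ _) (fun n => ?_) h1
      rw [hS, ← Finset.sum_sub_distrib]
      refine (Finset.le_sum_of_subadditive (p j) (map_zero _).le (map_add_le_add _) _ _).trans ?_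
      refine Finset.sum_le_sum fun k _ => ?_
      rw [← sub_smul, map_smul_eq_mul]
    have hu : ∀ (j : ℕ) (ε : ℝ), 0 < ε → ∃ m0, ∀ m, m0 ≤ m → ∀ N,
        p j (S N (F m) - ∑ k ∈ Finset.range N, a k • v k) ≤ ε := by
      intro j ε hε
      obtain ⟨m0, hm0⟩ := hF j ε hε
      refine ⟨m0, fun m hm N => ?_⟩
      have h1 : Tendsto (fun n => ε + p j (S N (F n) - ∑ k ∈ Finset.range N, a k • v k)) atTop
          (𝓝 (ε + 0)) := tendsto_const_nhds.add (hSm N j)
      rw [add_zero] at h1
      refine ge_of_tendsto h1 ?_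
      filter_upwards [eventually_ge_atTop m0] with n hn
      have h2 : p j (S N (F m - F n)) ≤ ε := (hπ1 j _ N).trans (hm0 m hm n hn)
      rw [map_sub] at h2
      have h3 := map_add_le_add (p j) (S N (F m) - S N (F n))
        (S N (F n) - ∑ k ∈ Finset.range N, a k • v k)
      rw [sub_add_sub_cancel] at h3
      linarith
    have hto : basisTo p v a g := by
      intro j
      rw [Metric.tendsto_atTop]
      intro ε hε
      obtain ⟨m0, hm0⟩ := hu j (ε / 4) (by positivity)
      have h1 : ∀ᶠ m in atTop, p j (F m - g) < ε / 4 := (hg j).eventually (gt_mem_nhds (by positivity))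
      obtain ⟨m, hm1, hm2⟩ := (h1.and (eventually_ge_atTop m0)).exists
      have h2 : ∀ᶠ N in atTop, p j (S N (F m) - F m) < ε / 4 :=
        (hSt (F m) j).eventually (gt_mem_nhds (by positivity))
      obtain ⟨N0, hN0⟩ := eventually_atTop.1 h2
      refine ⟨N0, fun N hN => ?_⟩
      rw [Real.dist_eq, sub_zero, abs_of_nonneg (apply_nonneg _ _)]
      have h3 := hm0 m hm2 N
      have h4 := hN0 N hN
      have e : ∑ k ∈ Finset.range N, a k • v k - g =
          (F m - g) + (S N (F m) - F m) - (S N (F m) - ∑ k ∈ Finset.range N, a k • v k) := by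
        abel
      rw [e]
      have h5 := map_sub_le_add (p j) ((F m - g) + (S N (F m) - F m))
        (S N (F m) - ∑ k ∈ Finset.range N, a k • v k)
      have h6 := map_add_le_add (p j) (F m - g) (S N (F m) - F m)
      linarith
    have hac : a = coef g := huniq g a hto
    refine ⟨g, fun j => ?_⟩
    rw [Metric.tendsto_atTop]
    intro ε hε
    obtain ⟨m0, hm0⟩ := hu j (ε / 2) (by positivity)
    refine ⟨m0, fun m hm => ?_⟩
    rw [Real.dist_eq, sub_zero, abs_of_nonneg (apply_nonneg _ _)]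
    have h1 : π j (F m - g) ≤ ε / 2 := by
      refine hπ2 j _ _ fun N => ?_
      rw [map_sub, hS N g]
      have h2 := hm0 m hm N
      rw [hac] at h2
      exact h2
    linarith
  have hA := h4 E p π hmono hπm hpπ hsep hcomp hcπ
  refine ⟨η, fun f => hcoef f, hηv, fun j => ?_⟩
  obtain ⟨i, C, hC, h⟩ := hA j
  refine ⟨i, 2 * C, by positivity, fun f k => ?_⟩
  have h1 := hco j f k
  have h2 := h f
  calc ‖η k f‖ * p j (v k) ≤ 2 * π j f := h1
    _ ≤ 2 * (C * p i f) := by linarith
    _ = 2 * C * p i f := by ring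

end basisAbstract

/-- the seminorm of uniform convergence on `K` -/
noncomputable def basisSemi {D : Set (OnePoint ℂ)} (K : Compacts D) : Seminorm ℂ (OO D) :=
  Seminorm.of (fun f => nrm K (f : C(D, ℂ))) (fun f g => nrm_add K f g)
    (fun c f => nrm_smul K c f)

theorem basisSemi_apply {D : Set (OnePoint ℂ)} (K : Compacts D) (f : OO D) :
    basisSemi K f = nrm K (f : C(D, ℂ)) := rfl

theorem basis (h1 : ExhStmt) (h2 : NhStmt) (h3 : CompStmt) (h4 : AbsStmt) : BasisStmt := by
  intro P v hv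
  obtain ⟨K, hK1, hK2⟩ := h1 P
  obtain ⟨-, -, hN⟩ := h2 P.D
  let p : ℕ → Seminorm ℂ (OO P.D) := fun j => basisSemi (K j)
  have hp : ∀ j f, p j f = nrm (K j) (f : C(P.D, ℂ)) := fun j f => rfl
  have hiff : ∀ (c : ℕ → ℂ) (f : OO P.D),
      Tendsto (fun N => ∑ k ∈ Finset.range N, c k • v k) atTop (𝓝 f) ↔ basisTo p v c f := by
    intro c f
    rw [hN]
    constructor
    · intro h j
      exact h (K j)
    · intro h L
      obtain ⟨j, hj⟩ := hK2 L
      exact squeeze_zero (fun N => nrm_nonneg _ _) (fun N => nrm_mono hj _) (h j)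
  have hv' : ∀ f : OO P.D, ∃! c : ℕ → ℂ, basisTo p v c f := by
    intro f
    obtain ⟨c, hc, hu⟩ := hv f
    exact ⟨c, (hiff c f).1 hc, fun d hd => hu d ((hiff d f).2 hd)⟩
  have hmono : ∀ j f, p j f ≤ p (j + 1) f := fun j f => nrm_mono (hK1 j) _
  have hsep : ∀ f, (∀ j, p j f = 0) → f = 0 := by
    intro f hf
    apply Subtype.ext
    ext x
    obtain ⟨j, hj⟩ := hK2 ⟨{x}, isCompact_singleton⟩
    have hx : x ∈ K j := hj (mem_singleton x)
    have h5 := le_nrm (K j) (f : C(P.D, ℂ)) hx
    rw [← hp, hf j] at h5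
    exact norm_le_zero_iff.1 h5
  have hcomp : SCompl p := by
    intro F hF
    obtain ⟨g, hg⟩ := h3 P.D P.isOpen F (fun L ε hε => by
      obtain ⟨j, hj⟩ := hK2 L
      obtain ⟨N, hN'⟩ := hF j ε hε
      exact ⟨N, fun m hm n hn => (nrm_mono hj _).trans (hN' m hm n hn)⟩)
    exact ⟨g, fun j => hg (K j)⟩
  obtain ⟨η, he1, he2, he3⟩ := basis_abstract h4 p hmono hsep hcomp v hv'
  refine ⟨η, fun f => (hiff _ f).2 (he1 f), he2, fun L => ?_⟩
  obtain ⟨j, hj⟩ := hK2 L
  obtain ⟨i, C, hC, h⟩ := he3 j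
  refine ⟨K i, C, hC, fun f k => ?_⟩
  exact (mul_le_mul_of_nonneg_left (nrm_mono hj _) (norm_nonneg _)).trans (h f k)

end Pool.Agent.Lib.MP_413903_an
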