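import Pool.Agent.Lib.MP_413903_an.Spec

set_option autoImplicit false

namespace Pool.Agent.Lib.MP_413903_an

open Complex Set Filter Topology

theorem bin_choose_le (n i : ℕ) :
    ‖((n - 1 + i).choose i : ℂ)‖ ≤ 2 ^ (n - 1) * 2 ^ i := by
  rw [Complex.norm_natCast, ← pow_add]
  exact_mod_cast Nat.choose_le_two_pow (n - 1 + i) i

theorem bin : BinStmt := by
  intro n N ρ z c hn hρ hz hc
  have hzc : 3 / 4 * ρ ≤ ‖z - c‖ := by
    have := norm_sub_norm_le z c
    linarith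
  have hpos : 0 < ‖z - c‖ := by linarith [show (0 : ℝ) < 3 / 4 * ρ by positivity]
  have hne : z - c ≠ 0 := norm_pos_iff.1 hpos
  have hzne : z ≠ 0 := by
    intro h
    rw [h, norm_zero] at hz
    linarith
  obtain ⟨u, hu⟩ : ∃ u, u = c * (z - c)⁻¹ := ⟨_, rfl⟩
  have hun : ‖u‖ ≤ 1 / 3 := by
    rw [hu, norm_mul, norm_inv]
    rw [← div_eq_mul_inv, div_le_iff₀ hpos]
    linarith
  have hz1 : z = (z - c) * (1 + u) := by
    rw [hu]
    field_simp
    ring
  have h1u : 1 + u ≠ 0 := by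
    intro h
    rw [h, mul_zero] at hz1
    exact hzne hz1
  have hs := hasSum_choose_mul_geometric_of_norm_lt_one (n - 1) (r := -u) (by
    rw [norm_neg]; linarith)
  have hn1 : n - 1 + 1 = n := Nat.sub_add_cancel hn
  rw [hn1, sub_neg_eq_add] at hs
  have hs2 := (hasSum_nat_add_iff' N).2 hs
  have hf : (z⁻¹) ^ n - ∑ i ∈ Finset.range N, (-1) ^ i * ((n - 1 + i).choose i : ℂ) * c ^ i *
      ((z - c)⁻¹) ^ (n + i) = ((z - c)⁻¹) ^ n * (1 / (1 + u) ^ n -
      ∑ i ∈ Finset.range N, (((i + (n - 1)).choose (n - 1) : ℕ) : ℂ) * (-u) ^ i) := by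
    rw [mul_sub, Finset.mul_sum]
    congr 1
    · rw [one_div, ← inv_pow, ← mul_pow, ← mul_inv, ← hz1]
    · refine Finset.sum_congr rfl fun i _ => ?_
      have e1 : (i + (n - 1)).choose (n - 1) = (n - 1 + i).choose i := by
        rw [add_comm i (n - 1)]
        exact Nat.choose_symm_add
      rw [e1, hu, neg_pow (c * (z - c)⁻¹) i, mul_pow, pow_add]
      ring
  rw [hf, norm_mul]
  have hg : HasSum (fun i : ℕ => 2 ^ (n - 1) * (2 / 3 : ℝ) ^ N * (2 / 3 : ℝ) ^ i)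
      (2 ^ (n - 1) * (2 / 3 : ℝ) ^ N * (1 - 2 / 3)⁻¹) :=
    (hasSum_geometric_of_lt_one (by norm_num) (by norm_num)).mul_left _
  have hb := hs2.norm_le_of_bounded hg (by
    intro i
    rw [norm_mul, norm_pow, norm_neg]
    have e1 : (i + N + (n - 1)).choose (n - 1) = (n - 1 + (i + N)).choose (i + N) := by
      rw [add_comm (i + N) (n - 1)]
      exact Nat.choose_symm_add
    rw [e1]
    have h1 := bin_choose_le n (i + N)
    have h2 : ‖u‖ ^ (i + N) ≤ (1 / 3) ^ (i + N) := pow_le_pow_left₀ (norm_nonneg _) hun _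
    calc ‖((n - 1 + (i + N)).choose (i + N) : ℂ)‖ * ‖u‖ ^ (i + N) ≤
        (2 ^ (n - 1) * 2 ^ (i + N)) * (1 / 3) ^ (i + N) :=
          mul_le_mul h1 h2 (by positivity) (by positivity)
      _ = 2 ^ (n - 1) * (2 / 3 : ℝ) ^ N * (2 / 3 : ℝ) ^ i := by
        rw [mul_assoc, ← mul_pow, mul_assoc, ← pow_add, add_comm N i]
        norm_num)
  have h3 : ‖((z - c)⁻¹) ^ n‖ ≤ (4 / (3 * ρ)) ^ n := by
    rw [norm_pow, norm_inv]
    refine pow_le_pow_left₀ (by positivity) ?_ n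
    rw [inv_le_comm₀ hpos (by positivity)]
    rw [inv_div]
    linarith
  calc ‖((z - c)⁻¹) ^ n‖ * _ ≤ (4 / (3 * ρ)) ^ n * (2 ^ (n - 1) * (2 / 3 : ℝ) ^ N * (1 - 2 / 3)⁻¹) :=
        mul_le_mul h3 hb (norm_nonneg _) (by positivity)
    _ = 3 * (2 / 3) ^ N * ((4 / (3 * ρ)) ^ n * 2 ^ (n - 1)) := by ring
    _ ≤ 3 * (2 / 3) ^ N * (4 / ρ) ^ n := by
        refine mul_le_mul_of_nonneg_left ?_ (by positivity)
        have e2 : (4 / ρ) ^ n = (4 / (3 * ρ)) ^ n * 3 ^ n := by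
          rw [← mul_pow]
          congr 1
          field_simp
        rw [e2]
        refine mul_le_mul_of_nonneg_left ?_ (by positivity)
        calc (2 : ℝ) ^ (n - 1) ≤ 2 ^ n := pow_le_pow_right₀ (by norm_num) (Nat.sub_le n 1)
          _ ≤ 3 ^ n := pow_le_pow_left₀ (by norm_num) (by norm_num) n

theorem binB : BinBStmt := by
  intro n N a z c hn ha ha1 hz hc
  have hx : 2 ≤ 2 / a := by
    rw [le_div_iff₀ ha]
    linarith
  have hzc : 0 < ‖z - c‖ := lt_of_lt_of_le ha hz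
  have hinv : ‖(z - c)⁻¹‖ ≤ 1 / a := by
    rw [norm_inv, one_div]
    exact inv_anti₀ ha hz
  have hterm : ∀ i : ℕ, ‖(-1) ^ i * ((n - 1 + i).choose i : ℂ) * c ^ i *
      ((z - c)⁻¹) ^ (n + i)‖ ≤ (2 / a) ^ (n + i) := by
    intro i
    rw [norm_mul, norm_mul, norm_mul, norm_pow, norm_neg, norm_one, one_pow, one_mul, norm_pow,
      norm_pow]
    have h1 := bin_choose_le n i
    have h2 : ‖c‖ ^ i ≤ 1 := pow_le_one₀ (norm_nonneg _) hc
    have h3 : ‖(z - c)⁻¹‖ ^ (n + i) ≤ (1 / a) ^ (n + i) := pow_le_pow_left₀ (norm_nonneg _) hinv _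
    calc ‖((n - 1 + i).choose i : ℂ)‖ * ‖c‖ ^ i * ‖(z - c)⁻¹‖ ^ (n + i) ≤
        (2 ^ (n - 1) * 2 ^ i) * 1 * (1 / a) ^ (n + i) := by
          refine mul_le_mul (mul_le_mul h1 h2 (by positivity) (by positivity)) h3 (by positivity)
            (by positivity)
      _ ≤ (2 ^ n * 2 ^ i) * 1 * (1 / a) ^ (n + i) := by
          have : (2 : ℝ) ^ (n - 1) ≤ 2 ^ n := pow_le_pow_right₀ (by norm_num) (Nat.sub_le n 1)
          gcongr
      _ = (2 / a) ^ (n + i) := by
          rw [mul_one, ← pow_add, ← mul_pow]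
          congr 1
          ring
  induction N with
  | zero =>
    simp only [Finset.range_zero, Finset.sum_empty, norm_zero]
    positivity
  | succ N ih =>
    rw [Finset.sum_range_succ]
    refine le_trans (norm_add_le _ _) ?_
    have h1 := hterm N
    have h2 : (2 / a) ^ (n + (N + 1)) = (2 / a) ^ (n + N) * (2 / a) := by
      rw [← add_assoc, pow_succ]
    rw [h2]
    have h3 : 0 ≤ (2 / a) ^ (n + N) := by positivity
    nlinarith

end Pool.Agent.Lib.MP_413903_an
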