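import Pool.Agent.Lib.MP_413903_an.Spec

/-!
# MP_413903_an: `O(D)` is closed in `C(D, ℂ)`
-/

set_option autoImplicit false

namespace Pool.Agent.Lib.MP_413903_an

open Complex Set Filter Topology OnePoint NNReal TopologicalSpace

theorem clos_chartInf_continuousAt_zero : ContinuousAt chartInf 0 := by
  unfold ContinuousAt
  have h0 : chartInf 0 = ∞ := by simp [chartInf]
  rw [h0, tendsto_nhds]
  intro s hs hm
  exact chartInf_nhds hs hm

theorem clos_chartInf_eventually {w : ℂ} (hw : w ≠ 0) :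
    chartInf =ᶠ[𝓝 w] fun v : ℂ => ((v⁻¹ : ℂ) : OnePoint ℂ) := by
  filter_upwards [isOpen_ne.mem_nhds hw] with v hv
  have hv' : v ≠ 0 := hv
  simp [chartInf, hv']

theorem clos_chartInf_continuous : Continuous chartInf := by
  rw [continuous_iff_continuousAt]
  intro w
  by_cases hw : w = 0
  · rw [hw]
    exact clos_chartInf_continuousAt_zero
  · refine ContinuousAt.congr ?_ (clos_chartInf_eventually hw).symm
    exact OnePoint.continuous_coe.continuousAt.comp (continuousAt_inv₀ hw)

/-- the limit of functions which are analytic in a chart is analytic in the chart -/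
theorem clos_limit {D : Set (OnePoint ℂ)} (hD : IsOpen D) (φ : ℂ → OnePoint ℂ)
    (hφ : Continuous φ) (U : Set ℂ) (hU : IsOpen U) (hUD : ∀ w ∈ U, φ w ∈ D)
    (hg : ∀ g ∈ OO D, DifferentiableOn ℂ (fun w : ℂ => ext g (φ w)) U)
    (f : C(D, ℂ)) (hf : f ∈ closure (OO D : Set C(D, ℂ))) {z : ℂ} (hz : z ∈ U) :
    AnalyticAt ℂ (fun w : ℂ => ext f (φ w)) z := by
  have : LocallyCompactSpace D := hD.locallyCompactSpace
  have hne : (𝓝[(OO D : Set C(D, ℂ))] f).NeBot := mem_closure_iff_nhdsWithin_neBot.1 hf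
  have h1 : Tendsto (fun g : C(D, ℂ) => g) (𝓝[(OO D : Set C(D, ℂ))] f) (𝓝 f) :=
    tendsto_id.mono_left nhdsWithin_le_nhds
  rw [ContinuousMap.tendsto_iff_tendstoLocallyUniformly] at h1
  have hψ : Continuous (fun w : U => (⟨φ w, hUD w w.2⟩ : D)) :=
    Continuous.subtype_mk (hφ.comp continuous_subtype_val) _
  have h2 := h1.comp (fun w : U => (⟨φ w, hUD w w.2⟩ : D)) hψ
  have h3 : TendstoLocallyUniformlyOn (fun (g : C(D, ℂ)) (w : ℂ) => ext g (φ w))
      (fun w : ℂ => ext f (φ w)) (𝓝[(OO D : Set C(D, ℂ))] f) U := by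
    rw [tendstoLocallyUniformlyOn_iff_tendstoLocallyUniformly_comp_coe]
    have e1 : (fun (g : C(D, ℂ)) (w : U) => ext g (φ w)) =
        fun (g : C(D, ℂ)) => (fun a : D => g a) ∘ (fun w : U => (⟨φ w, hUD w w.2⟩ : D)) := by
      funext g w
      exact ext_of_mem g (hUD w w.2)
    have e2 : ((fun w : ℂ => ext f (φ w)) ∘ (Subtype.val : U → ℂ)) =
        (fun a : D => f a) ∘ (fun w : U => (⟨φ w, hUD w w.2⟩ : D)) := by
      funext w
      exact ext_of_mem f (hUD w w.2)
    rw [e2]
    show TendstoLocallyUniformly (fun (g : C(D, ℂ)) (w : U) => ext g (φ w)) _ _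
    rw [e1]
    exact h2
  have h4 : ∀ᶠ g in 𝓝[(OO D : Set C(D, ℂ))] f,
      DifferentiableOn ℂ (fun w : ℂ => ext g (φ w)) U := by
    filter_upwards [self_mem_nhdsWithin] with g hgm
    exact hg g hgm
  have h5 : DifferentiableOn ℂ (fun w : ℂ => ext f (φ w)) U := h3.differentiableOn h4 hU
  exact h5.analyticAt (hU.mem_nhds hz)

theorem clos : ClosStmt := by
  intro D hD
  refine isClosed_of_closure_subset fun f hf => ?_
  refine ⟨fun z hz => ?_, fun h => ?_⟩
  · refine clos_limit hD (fun w : ℂ => (w : OnePoint ℂ)) OnePoint.continuous_coe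
      ((fun w : ℂ => (w : OnePoint ℂ)) ⁻¹' D) (hD.preimage OnePoint.continuous_coe)
      (fun w hw => hw) (fun g hg w hw => ?_) f hf hz
    exact (hg.1 w hw).differentiableAt.differentiableWithinAt
  · refine clos_limit hD chartInf clos_chartInf_continuous (chartInf ⁻¹' D)
      (hD.preimage clos_chartInf_continuous) (fun w hw => hw) (fun g hg w hw => ?_) f hf ?_
    · by_cases hw0 : w = 0
      · rw [hw0]
        exact (hg.2 h).differentiableAt.differentiableWithinAt
      · have h1 : chartInf w = ((w⁻¹ : ℂ) : OnePoint ℂ) := by simp [chartInf, hw0]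
        have hw' : ((w⁻¹ : ℂ) : OnePoint ℂ) ∈ D := by
          rw [← h1]
          exact hw
        have h2 : DifferentiableAt ℂ (fun v : ℂ => ext g ((v⁻¹ : ℂ) : OnePoint ℂ)) w := by
          have h3 : DifferentiableAt ℂ (fun v : ℂ => ext g (v : OnePoint ℂ)) (w⁻¹) :=
            (hg.1 _ hw').differentiableAt
          exact h3.comp w (differentiableAt_inv hw0)
        refine (h2.congr_of_eventuallyEq ?_).differentiableWithinAt
        filter_upwards [clos_chartInf_eventually hw0] with v hv
        rw [hv]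
    · show chartInf 0 ∈ D
      have h0 : chartInf 0 = ∞ := by simp [chartInf]
      rw [h0]
      exact h

end Pool.Agent.Lib.MP_413903_an
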