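import Pool.Agent.Lib.MP_413903_an.Spec

/-!
# MP_413903_an: counting
-/

set_option autoImplicit false

namespace Pool.Agent.Lib.MP_413903_an

open Complex Set Filter Topology OnePoint NNReal TopologicalSpace

theorem cnt_nrm_zero {D : Set (OnePoint ℂ)} (K : Compacts D) :
    nrm K (0 : C(D, ℂ)) = 0 := by
  refine le_antisymm ?_ (nrm_nonneg _ _)
  exact nrm_le K _ le_rfl fun p _ => by simp

theorem cnt_nrm_sum {D : Set (OnePoint ℂ)} (K : Compacts D) (J : Finset ℕ) (b : ℕ → ℂ)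
    (u : ℕ → OO D) :
    nrm K ((∑ k ∈ J, b k • u k : OO D) : C(D, ℂ)) ≤
      ∑ k ∈ J, ‖b k‖ * nrm K (u k : C(D, ℂ)) := by
  classical
  induction J using Finset.induction_on with
  | empty => simp [cnt_nrm_zero]
  | insert a s ha ih =>
    rw [Finset.sum_insert ha, Finset.sum_insert ha]
    have h1 : ((b a • u a + ∑ k ∈ s, b k • u k : OO D) : C(D, ℂ)) =
        b a • (u a : C(D, ℂ)) + ((∑ k ∈ s, b k • u k : OO D) : C(D, ℂ)) := rfl
    rw [h1]
    refine (nrm_add _ _ _).trans ?_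
    rw [nrm_smul]
    linarith

theorem cnt_card {D : Set (OnePoint ℂ)} (v : ℕ → OO D) (η : ℕ → OO D →ₗ[ℂ] ℂ)
    (hη : ∀ k j, η k (v j) = if k = j then 1 else 0) (K K1 K'' : Compacts D) (C s : ℝ)
    (hC : 0 ≤ C) (_hs : 0 ≤ s)
    (hK1 : ∀ (f : OO D) (k : ℕ), ‖η k f‖ * nrm K (v k : C(D, ℂ)) ≤ C * nrm K1 (f : C(D, ℂ)))
    (N M : ℕ) (ℓ : Fin N → (OO D →ₗ[ℂ] ℂ))
    (hℓ : ∀ f : OO D, (∀ i, ℓ i f = 0) →
      nrm K1 (f : C(D, ℂ)) ≤ (1 / 2) ^ M * nrm K'' (f : C(D, ℂ)))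
    (hM : C * (N + 1) * s < 2 ^ M) (I : Finset ℕ)
    (hI : ∀ k ∈ I, 0 < nrm K (v k : C(D, ℂ)) ∧
      nrm K'' (v k : C(D, ℂ)) ≤ s * nrm K (v k : C(D, ℂ))) : I.card ≤ N := by
  classical
  by_contra hcon
  push Not at hcon
  obtain ⟨J, hJI, hJ⟩ := Finset.exists_subset_card_eq (show N + 1 ≤ I.card by omega)
  let u : ℕ → OO D := fun k => ((nrm K (v k : C(D, ℂ)) : ℂ))⁻¹ • v k
  let L : (J → ℂ) →ₗ[ℂ] (Fin N → ℂ) :=
    { toFun := fun b i => ∑ k : J, b k * ℓ i (u k)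
      map_add' := by
        intro b b'
        funext i
        simp [add_mul, Finset.sum_add_distrib]
      map_smul' := by
        intro c b
        funext i
        simp [mul_assoc, Finset.mul_sum] }
  have hker : LinearMap.ker L ≠ ⊥ := by
    apply LinearMap.ker_ne_bot_of_finrank_lt
    simp [hJ]
  obtain ⟨b, hb, hb0⟩ := (Submodule.ne_bot_iff _).1 hker
  rw [LinearMap.mem_ker] at hb
  have hne : Nonempty J := by
    by_contra hem
    rw [not_nonempty_iff] at hem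
    exact hb0 (Subsingleton.elim _ _)
  obtain ⟨k0, hk0⟩ := Finite.exists_max (fun k : J => ‖b k‖)
  have hβ : 0 < ‖b k0‖ := by
    rcases (norm_nonneg (b k0)).lt_or_eq with h | h
    · exact h
    · exfalso
      apply hb0
      funext k
      have := hk0 k
      rw [← h] at this
      simpa using this
  let b' : ℕ → ℂ := fun k => if h : k ∈ J then b ⟨k, h⟩ else 0
  have hb'1 : ∀ k : J, b' k = b k := fun k => by simp [b']
  have hb'2 : ∀ k ∈ J, ‖b' k‖ ≤ ‖b k0‖ := fun k hk => by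
    have := hk0 ⟨k, hk⟩
    rw [← hb'1 ⟨k, hk⟩] at this
    exact this
  let f : OO D := ∑ k ∈ J, b' k • u k
  have hf : ∀ i, ℓ i f = 0 := by
    intro i
    have h1 : ℓ i f = ∑ k ∈ J, b' k * ℓ i (u k) := by
      simp [f]
    have h2 : ∑ k : J, b k * ℓ i (u k) = 0 := congrFun hb i
    rw [h1, ← Finset.sum_coe_sort, ← h2]
    exact Finset.sum_congr rfl fun k _ => by rw [hb'1]
  have hηf : η k0 f = b k0 * ((nrm K (v k0 : C(D, ℂ)) : ℂ))⁻¹ := by
    have h1 : η k0 f = ∑ k ∈ J, b' k * η k0 (u k) := by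
      simp [f]
    rw [h1, Finset.sum_eq_single (k0 : ℕ)]
    · simp only [u, LinearMap.map_smul, hη, if_true, smul_eq_mul, mul_one, hb'1]
    · intro k _ hk
      simp only [u, LinearMap.map_smul, hη, smul_eq_mul]
      rw [if_neg (fun h => hk h.symm)]
      simp
    · intro h
      exact absurd k0.2 h
  have hpos := (hI k0 (hJI k0.2)).1
  have h3 := hK1 f k0
  rw [hηf, norm_mul, norm_inv, Complex.norm_real, Real.norm_of_nonneg hpos.le,
    mul_assoc, inv_mul_cancel₀ hpos.ne', mul_one] at h3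
  have h4 := hℓ f hf
  have h5 : nrm K'' (f : C(D, ℂ)) ≤ (N + 1) * (‖b k0‖ * s) := by
    refine (cnt_nrm_sum K'' J b' u).trans ?_
    have h6 : ∀ k ∈ J, ‖b' k‖ * nrm K'' (u k : C(D, ℂ)) ≤ ‖b k0‖ * s := by
      intro k hk
      have h7 := hI k (hJI hk)
      have h8 : nrm K'' (u k : C(D, ℂ)) ≤ s := by
        have h9 : (u k : C(D, ℂ)) = ((nrm K (v k : C(D, ℂ)) : ℂ))⁻¹ • (v k : C(D, ℂ)) := rfl
        rw [h9, nrm_smul, norm_inv, Complex.norm_real, Real.norm_of_nonneg h7.1.le]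
        rw [inv_mul_le_iff₀ h7.1, mul_comm]
        exact h7.2
      exact mul_le_mul (hb'2 k hk) h8 (nrm_nonneg _ _) (norm_nonneg _)
    refine (Finset.sum_le_sum h6).trans ?_
    rw [Finset.sum_const, hJ, nsmul_eq_mul]
    push_cast
    exact le_rfl
  have h2M : (0 : ℝ) < 2 ^ M := by positivity
  have h10 : ‖b k0‖ ≤ C * ((1 / 2) ^ M * ((N + 1) * (‖b k0‖ * s))) := by
    refine h3.trans (mul_le_mul_of_nonneg_left (h4.trans ?_) hC)
    exact mul_le_mul_of_nonneg_left h5 (by positivity)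
  have h11 : ‖b k0‖ * 2 ^ M ≤ (C * (N + 1) * s) * ‖b k0‖ := by
    calc ‖b k0‖ * 2 ^ M ≤ C * ((1 / 2) ^ M * ((N + 1) * (‖b k0‖ * s))) * 2 ^ M :=
          mul_le_mul_of_nonneg_right h10 h2M.le
      _ = (C * (N + 1) * s) * ‖b k0‖ * ((1 / 2) ^ M * 2 ^ M) := by ring
      _ = (C * (N + 1) * s) * ‖b k0‖ := by
        rw [← mul_pow]
        norm_num
  have h12 : (C * (N + 1) * s) * ‖b k0‖ < 2 ^ M * ‖b k0‖ :=
    mul_lt_mul_of_pos_right hM hβ
  linarith

theorem cnt_choose (C : ℝ) (A : ℕ) : ∃ B : ℕ, ∀ j : ℕ,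
    C * ((A * (2 * j + B) : ℕ) + 1) * 2 ^ j < 2 ^ (2 * j + B) := by
  have h1 : Tendsto (fun n : ℕ => |C| * (2 * A * ((n : ℝ) ^ 1 * (1 / 2) ^ n) + (1 / 2) ^ n))
      atTop (𝓝 (|C| * (2 * A * 0 + 0))) := by
    have ha := tendsto_pow_const_mul_const_pow_of_abs_lt_one 1
      (show |(1 / 2 : ℝ)| < 1 by rw [abs_of_pos] <;> norm_num)
    have hb : Tendsto (fun n : ℕ => (1 / 2 : ℝ) ^ n) atTop (𝓝 0) :=
      tendsto_pow_atTop_nhds_zero_of_lt_one (by norm_num) (by norm_num)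
    exact ((ha.const_mul _).add hb).const_mul _
  have h2 : (|C| * (2 * A * 0 + 0) : ℝ) < 1 := by simp
  obtain ⟨B, hB⟩ := eventually_atTop.1 (h1.eventually (gt_mem_nhds h2))
  refine ⟨B, fun j => ?_⟩
  have h3 := hB (j + B) (by omega)
  have h4 : (0 : ℝ) < 2 ^ (j + B) := by positivity
  have h5 : |C| * (2 * A * ((j + B : ℕ) : ℝ) + 1) < 2 ^ (j + B) := by
    have h6 := mul_lt_mul_of_pos_right h3 h4
    rw [one_mul] at h6
    refine lt_of_le_of_lt (le_of_eq ?_) h6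
    have h7 : ((1 / 2 : ℝ)) ^ (j + B) * 2 ^ (j + B) = 1 := by
      rw [← mul_pow]
      norm_num
    calc |C| * (2 * A * ((j + B : ℕ) : ℝ) + 1)
        = |C| * (2 * A * ((j + B : ℕ) : ℝ) + 1) * ((1 / 2 : ℝ) ^ (j + B) * 2 ^ (j + B)) := by
          rw [h7, mul_one]
      _ = _ := by ring
  have h8 : C * ((A * (2 * j + B) : ℕ) + 1) ≤ |C| * (2 * A * ((j + B : ℕ) : ℝ) + 1) := by
    refine mul_le_mul (le_abs_self C) ?_ (by positivity) (abs_nonneg C)
    push_cast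
    have hA : (0 : ℝ) ≤ A := Nat.cast_nonneg A
    have hBn : (0 : ℝ) ≤ B := Nat.cast_nonneg B
    nlinarith [mul_nonneg hA hBn]
  have h9 : (2 : ℝ) ^ (2 * j + B) = 2 ^ (j + B) * 2 ^ j := by
    rw [← pow_add]
    congr 1
    ring
  rw [h9]
  exact mul_lt_mul_of_pos_right (lt_of_le_of_lt h8 h5) (by positivity)

theorem cnt_near (a : ℝ) (h0 : 0 < a) (h1 : a ≤ 1) :
    ∃ j : ℕ, (1 / 2 : ℝ) ^ (j + 1) ≤ a ∧ a ≤ (1 / 2) ^ j := by
  classical
  have hex : ∃ n : ℕ, (1 / 2 : ℝ) ^ n ≤ a := by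
    obtain ⟨n, hn⟩ := exists_pow_lt_of_lt_one h0 (show (1 / 2 : ℝ) < 1 by norm_num)
    exact ⟨n, hn.le⟩
  have hspec := Nat.find_spec hex
  rcases Nat.eq_zero_or_pos (Nat.find hex) with h | h
  · rw [h, pow_zero] at hspec
    refine ⟨0, ?_, ?_⟩
    · norm_num
      linarith
    · simpa using h1
  · refine ⟨Nat.find hex - 1, ?_, ?_⟩
    · rwa [Nat.sub_add_cancel h]
    · have := Nat.find_min hex (m := Nat.find hex - 1) (by omega)
      exact (not_le.1 this).le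

theorem cnt_summable (a : ℕ → ℝ) (ha0 : ∀ k, 0 ≤ a k) (ha1 : ∀ k, a k ≤ 1) (A B : ℕ)
    (hcard : ∀ (j : ℕ) (I : Finset ℕ), (∀ k ∈ I, (1 / 2 : ℝ) ^ j ≤ a k) →
      I.card ≤ A * (2 * j + B)) : Summable a := by
  classical
  have hex : ∀ k, ∃ j : ℕ, 0 < a k → (1 / 2 : ℝ) ^ (j + 1) ≤ a k ∧ a k ≤ (1 / 2) ^ j := by
    intro k
    by_cases hk : 0 < a k
    · obtain ⟨j, hj⟩ := cnt_near (a k) hk (ha1 k)
      exact ⟨j, fun _ => hj⟩
    · exact ⟨0, fun h => absurd h hk⟩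
  choose J hJ using hex
  let w : ℕ → ℝ := fun j => (1 / 2 : ℝ) ^ j * ((A * (2 * (j + 1) + B) : ℕ) : ℝ)
  have hw0 : ∀ j, 0 ≤ w j := fun j => by positivity
  have hws : Summable w := by
    have h1 : Summable (fun n : ℕ => (n : ℝ) ^ 1 * (1 / 2 : ℝ) ^ n) :=
      summable_pow_mul_geometric_of_norm_lt_one 1 (by norm_num)
    have h2 : Summable (fun n : ℕ => (1 / 2 : ℝ) ^ n) :=
      summable_geometric_of_lt_one (by norm_num) (by norm_num)
    have h3 := (h1.mul_left (2 * A : ℝ)).add (h2.mul_left (A * (2 + B) : ℝ))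
    refine h3.congr fun n => ?_
    simp only [w]
    push_cast
    ring
  refine summable_of_sum_le ha0 (c := ∑' j, w j) fun u => ?_
  let u' := u.filter (fun k => 0 < a k)
  have h1 : ∑ k ∈ u, a k = ∑ k ∈ u', a k := by
    symm
    refine Finset.sum_filter_of_ne fun k _ hk => lt_of_le_of_ne (ha0 k) (Ne.symm hk)
  rw [h1]
  have h2 : ∑ k ∈ u', a k ≤ ∑ k ∈ u', (1 / 2 : ℝ) ^ (J k) :=
    Finset.sum_le_sum fun k hk => (hJ k (Finset.mem_filter.1 hk).2).2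
  refine h2.trans ?_
  rw [← Finset.sum_fiberwise_of_maps_to (t := u'.image J) (g := J)
    (fun k hk => Finset.mem_image_of_mem J hk)]
  have h3 : ∀ j ∈ u'.image J, ∑ k ∈ u' with J k = j, (1 / 2 : ℝ) ^ (J k) ≤ w j := by
    intro j _
    have h4 : ∑ k ∈ u' with J k = j, (1 / 2 : ℝ) ^ (J k) =
        ∑ k ∈ u' with J k = j, (1 / 2 : ℝ) ^ j :=
      Finset.sum_congr rfl fun k hk => by rw [(Finset.mem_filter.1 hk).2]
    rw [h4, Finset.sum_const, nsmul_eq_mul, mul_comm]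
    refine mul_le_mul_of_nonneg_left ?_ (by positivity)
    have h5 := hcard (j + 1) (u'.filter fun k => J k = j) (by
      intro k hk
      have hk1 := (Finset.mem_filter.1 hk).1
      have hk2 := (Finset.mem_filter.1 hk).2
      have := (hJ k (Finset.mem_filter.1 hk1).2).1
      rwa [hk2] at this)
    exact_mod_cast h5
  refine (Finset.sum_le_sum h3).trans ?_
  exact hws.sum_le_tsum _ fun j _ => hw0 j

theorem cnt (h : CodStmt) : CntStmt := by
  intro D hD v η hη hbd K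
  obtain ⟨K', C0, hC0, hK'⟩ := hbd K
  obtain ⟨K'', A, hKK, hcod⟩ := h D hD (K' ⊔ K)
  have hsup : ((K' ⊔ K : Compacts D) : Set D) = (K' : Set D) ∪ K := Compacts.coe_sup _ _
  have hK1 : (K' : Set D) ⊆ ((K' ⊔ K : Compacts D) : Set D) := by
    rw [hsup]
    exact subset_union_left
  have hK2 : (K : Set D) ⊆ K'' := by
    refine Subset.trans ?_ hKK
    rw [hsup]
    exact subset_union_right
  refine ⟨K'', hK2, ?_⟩
  obtain ⟨B, hB⟩ := cnt_choose C0 A
  have hbound : ∀ (f : OO D) (k : ℕ), ‖η k f‖ * nrm K (v k : C(D, ℂ)) ≤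
      C0 * nrm (K' ⊔ K) (f : C(D, ℂ)) := fun f k =>
    (hK' f k).trans (mul_le_mul_of_nonneg_left (nrm_mono hK1 _) hC0)
  refine cnt_summable _ (fun k => div_nonneg (nrm_nonneg _ _) (nrm_nonneg _ _)) (fun k => ?_)
    A B ?_
  · exact div_le_one_of_le₀ (nrm_mono hK2 _) (nrm_nonneg _ _)
  · intro j I hI
    obtain ⟨ℓ, hℓ⟩ := hcod (2 * j + B)
    refine cnt_card v η hη K (K' ⊔ K) K'' C0 (2 ^ j) hC0 (by positivity) hbound
      (A * (2 * j + B)) (2 * j + B) ℓ hℓ (hB j) I ?_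
    intro k hk
    have h1 := hI k hk
    have h2 : (0 : ℝ) < (1 / 2) ^ j := by positivity
    have h3 : 0 < nrm K (v k : C(D, ℂ)) / nrm K'' (v k : C(D, ℂ)) := lt_of_lt_of_le h2 h1
    have h4 : 0 < nrm K (v k : C(D, ℂ)) := by
      rcases (nrm_nonneg K (v k : C(D, ℂ))).lt_or_eq with h | h
      · exact h
      · rw [← h, zero_div] at h3
        exact absurd h3 (lt_irrefl _)
    have h5 : 0 < nrm K'' (v k : C(D, ℂ)) := h4.trans_le (nrm_mono hK2 _)
    refine ⟨h4, ?_⟩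
    rw [le_div_iff₀ h5] at h1
    have h6 := mul_le_mul_of_nonneg_left h1 (show (0 : ℝ) ≤ 2 ^ j by positivity)
    have h7 : (2 : ℝ) ^ j * ((1 / 2) ^ j * nrm K'' (v k : C(D, ℂ))) =
        nrm K'' (v k : C(D, ℂ)) := by
      rw [← mul_assoc, ← mul_pow]
      norm_num
    rwa [h7] at h6

end Pool.Agent.Lib.MP_413903_an
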