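import Pool.Agent.Lib.MP_413903_an.Spec

/-!
# Subspaces of finite codimension
-/

set_option autoImplicit false

namespace Pool.Agent.Lib.MP_413903_an

open Complex Set Filter Topology OnePoint NNReal TopologicalSpace

theorem cod (h : LocStmt) : CodStmt := by
  classical
  intro D hD K
  choose U hU W hW using h D hD
  choose ℓ hℓ using hW
  obtain ⟨t, -, ht⟩ := K.isCompact.elim_nhds_subcover U (fun p _ => hU p)
  refine ⟨K ⊔ t.sup W, t.card, ?_, fun M => ?_⟩
  · intro p hp
    exact (le_sup_left : K ≤ K ⊔ t.sup W) hp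
  refine ⟨fun i => ℓ (t.equivFin.symm (finProdFinEquiv.symm i).1).1 M (finProdFinEquiv.symm i).2,
    fun f hf => ?_⟩
  refine nrm_le K _ (mul_nonneg (by positivity) (nrm_nonneg _ _)) fun p hp => ?_
  have hp' := ht hp
  simp only [mem_iUnion] at hp'
  obtain ⟨x, hx, hpx⟩ := hp'
  have h1 : ∀ i, ℓ x M i f = 0 := by
    intro i
    have h2 := hf (finProdFinEquiv (t.equivFin ⟨x, hx⟩, i))
    simpa using h2
  refine (hℓ x M f h1 p hpx).trans ?_
  refine mul_le_mul_of_nonneg_left (nrm_mono ?_ _) (by positivity)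
  have h3 : W x ≤ K ⊔ t.sup W := (Finset.le_sup hx).trans le_sup_right
  exact h3

end Pool.Agent.Lib.MP_413903_an
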