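import Pool.Agent.Lib.MP_413903_an.Spec

/-!
# MP_413903_an: completeness of `O(D)`
-/

set_option autoImplicit false

namespace Pool.Agent.Lib.MP_413903_an

open Complex Set Filter Topology OnePoint NNReal TopologicalSpace
open scoped Uniformity

theorem comp (h : ClosStmt) (h2 : NhStmt) : CompStmt := by
  intro D hD F hF
  have : LocallyCompactSpace D := hD.locallyCompactSpace
  have hC : CauchySeq (fun m => (F m : C(D, ℂ))) := by
    rw [ContinuousMap.hasBasis_compactConvergenceUniformity.cauchySeq_iff]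
    rintro ⟨K, V⟩ ⟨hK, hV⟩
    obtain ⟨ε, hε, hb⟩ := Metric.mem_uniformity_dist.1 hV
    obtain ⟨N, hN⟩ := hF ⟨K, hK⟩ (ε / 2) (half_pos hε)
    refine ⟨N, fun m hm n hn x hx => ?_⟩
    apply hb
    rw [dist_eq_norm]
    have h1 := le_nrm (D := D) ⟨K, hK⟩ ((F m : C(D, ℂ)) - (F n : C(D, ℂ))) (p := x) hx
    have h3 := hN m hm n hn
    have h4 : ‖((F m : C(D, ℂ)) - (F n : C(D, ℂ))) x‖ ≤ ε / 2 := h1.trans h3
    have h5 : ((F m : C(D, ℂ)) - (F n : C(D, ℂ))) x = (F m : C(D, ℂ)) x - (F n : C(D, ℂ)) x := rfl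
    rw [h5] at h4
    linarith
  obtain ⟨g, hg⟩ := cauchySeq_tendsto_of_complete hC
  have hgO : g ∈ OO D := (h D hD).mem_of_tendsto hg (Eventually.of_forall fun m => (F m).2)
  refine ⟨⟨g, hgO⟩, ?_⟩
  exact ((h2 D).2.2 F ⟨g, hgO⟩).1 (tendsto_subtype_rng.2 hg)

end Pool.Agent.Lib.MP_413903_an
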