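import Pool.Agent.Lib.MP_413903_an.Spec

/-!
# MP_413903_an: there is no decomposition
-/

set_option autoImplicit false

namespace Pool.Agent.Lib.MP_413903_an

open Complex Set Filter Topology OnePoint NNReal TopologicalSpace

theorem core_zero_notMem (P : Par) : ((0 : ℂ) : OnePoint ℂ) ∉ P.D := by
  intro h
  exact (coe_mem_dom.1 h) (Or.inl rfl)

theorem core_c_notMem (P : Par) {k : ℕ} (hk : 1 ≤ k) : ((P.c k : ℂ) : OnePoint ℂ) ∉ P.D := by
  intro h
  refine (coe_mem_dom.1 h) (Or.inr ⟨k, hk, ?_⟩)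
  simp only [Par.c, sub_self, norm_zero]
  exact (P.r0 k hk).le

theorem core_away (P : Par) (K : Compacts P.D) : ∃ ρ : ℝ, 0 < ρ ∧ ρ ≤ 1 ∧ ∀ p ∈ K, ∀ z : ℂ,
    (p : OnePoint ℂ) = z → ρ ≤ ‖z‖ := by
  obtain ⟨ρ, h0, h⟩ := far K 0 (core_zero_notMem P)
  refine ⟨min ρ 1, lt_min h0 one_pos, min_le_right _ _, fun p hp z hz => ?_⟩
  have := h p hp z hz
  rw [sub_zero] at this
  exact (min_le_left _ _).trans this

theorem core_normc (P : Par) (k : ℕ) : ‖P.c k‖ = P.q ^ k := by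
  unfold Par.c
  rw [norm_pow, Complex.norm_real, Real.norm_of_nonneg P.q0.le]

theorem core_rho_pos (P : Par) (l : ℕ) : 0 < P.ρ l := by
  unfold Par.ρ
  have := P.q0
  positivity

theorem core_rho_le (P : Par) (l : ℕ) : P.ρ l ≤ 1 := by
  unfold Par.ρ
  have h0 := P.q0
  have h1 := P.q1
  have h2 : P.q ^ l ≤ 1 := pow_le_one₀ h0.le h1.le
  have h3 : 0 ≤ P.q ^ l := by positivity
  nlinarith

theorem core_away_c (P : Par) {k : ℕ} (hk : 1 ≤ k) {z : ℂ} (hz : (z : OnePoint ℂ) ∈ P.D) :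
    P.r k ≤ ‖z - P.c k‖ := by
  by_contra h
  exact (coe_mem_dom.1 hz) (Or.inr ⟨k, hk, (not_le.1 h).le⟩)

/-- the rational approximation -/
noncomputable def coreG (P : Par) {k : ℕ} (hk : 1 ≤ k) {n : ℕ} (hn : 1 ≤ n) (N : ℕ) : OO P.D :=
  ∑ i ∈ Finset.range N, ((-1) ^ i * ((n - 1 + i).choose i : ℂ) * P.c k ^ i) •
    pw P.isOpen (P.c k) (core_c_notMem P hk) (n + i) (by omega)

theorem core_coe_sum {D : Set (OnePoint ℂ)} (s : Finset ℕ) (F : ℕ → OO D) :
    ((∑ i ∈ s, F i : OO D) : C(D, ℂ)) = ∑ i ∈ s, (F i : C(D, ℂ)) := by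
  induction s using Finset.cons_induction with
  | empty => simp
  | cons a s ha ih => rw [Finset.sum_cons, Finset.sum_cons, ← ih]; rfl

theorem coreG_apply (P : Par) {k : ℕ} (hk : 1 ≤ k) {n : ℕ} (hn : 1 ≤ n) (N : ℕ) (p : P.D) :
    (coreG P hk hn N : C(P.D, ℂ)) p = ∑ i ∈ Finset.range N,
      (-1) ^ i * ((n - 1 + i).choose i : ℂ) * P.c k ^ i * pwFun (P.c k) (n + i) p := by
  unfold coreG
  rw [core_coe_sum, ContinuousMap.coe_sum, Finset.sum_apply]
  refine Finset.sum_congr rfl fun i _ => ?_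
  rfl

theorem core_pw_infty (c : ℂ) (b : ℕ) : pwFun c b ∞ = 0 := rfl

theorem core_pw_coe (c z : ℂ) (b : ℕ) : pwFun c b (z : OnePoint ℂ) = ((z - c)⁻¹) ^ b := rfl

/-- `z^{-n}` -/
noncomputable def coreF (P : Par) {n : ℕ} (hn : 1 ≤ n) : OO P.D :=
  pw P.isOpen 0 (core_zero_notMem P) n (by omega)

theorem coreF_apply (P : Par) {n : ℕ} (hn : 1 ≤ n) (p : P.D) :
    (coreF P hn : C(P.D, ℂ)) p = pwFun 0 n p := rfl

theorem core_f_le (P : Par) {n : ℕ} (hn : 1 ≤ n) (K : Compacts P.D) {ρ : ℝ} (hρ : 0 < ρ)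
    (h : ∀ p ∈ K, ∀ z : ℂ, (p : OnePoint ℂ) = z → ρ ≤ ‖z‖) :
    nrm K (coreF P hn : C(P.D, ℂ)) ≤ (1 / ρ) ^ n := by
  refine nrm_le K _ (by positivity) ?_
  rintro ⟨p, hpD⟩ hp
  rw [coreF_apply]
  induction p using OnePoint.rec with
  | infty =>
    rw [core_pw_infty, norm_zero]
    positivity
  | coe z =>
    rw [core_pw_coe, sub_zero, norm_pow, norm_inv]
    have h1 := h _ hp z rfl
    refine pow_le_pow_left₀ (by positivity) ?_ n
    rw [← one_div]
    exact one_div_le_one_div_of_le hρ h1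

theorem core_fg_le (hBin : BinStmt) (P : Par) {n : ℕ} (hn : 1 ≤ n) (N : ℕ) {k : ℕ} (hk : 1 ≤ k)
    (K : Compacts P.D) {ρ : ℝ} (hρ : 0 < ρ)
    (h : ∀ p ∈ K, ∀ z : ℂ, (p : OnePoint ℂ) = z → ρ ≤ ‖z‖) (hc : P.q ^ k ≤ ρ / 4) :
    nrm K (coreF P hn - coreG P hk hn N : C(P.D, ℂ)) ≤ 3 * (2 / 3) ^ N * (4 / ρ) ^ n := by
  refine nrm_le K _ (by positivity) ?_
  rintro ⟨p, hpD⟩ hp
  rw [ContinuousMap.sub_apply, coreF_apply, coreG_apply]
  induction p using OnePoint.rec with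
  | infty =>
    simp only [core_pw_infty, mul_zero, Finset.sum_const_zero, sub_zero, norm_zero]
    positivity
  | coe z =>
    simp only [core_pw_coe, sub_zero]
    exact hBin n N ρ z (P.c k) hn hρ (h _ hp z rfl) (by rw [core_normc]; exact hc)

theorem core_g_le (hBinB : BinBStmt) (P : Par) {n : ℕ} (hn : 1 ≤ n) (N : ℕ) {k : ℕ} (hk : 1 ≤ k)
    (K : Compacts P.D) :
    nrm K (coreG P hk hn N : C(P.D, ℂ)) ≤ (2 / P.r k) ^ (n + N) := by
  have hr := P.r0 k hk
  refine nrm_le K _ (by positivity) ?_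
  rintro ⟨p, hpD⟩ hp
  rw [coreG_apply]
  induction p using OnePoint.rec with
  | infty =>
    simp only [core_pw_infty, mul_zero, Finset.sum_const_zero, norm_zero]
    positivity
  | coe z =>
    simp only [core_pw_coe]
    have hq := P.q0
    refine hBinB n N (P.r k) z (P.c k) hn hr ?_ (core_away_c P hk hpD) ?_
    · exact (P.r1 k hk).le.trans (pow_le_one₀ hq.le P.q1.le)
    · rw [core_normc]
      exact pow_le_one₀ hq.le P.q1.le

/-! ### Compact sets -/

theorem core_ann_compact (P : Par) (k : ℕ) : IsCompact (P.Ann k) := by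
  refine Metric.isCompact_of_isClosed_isBounded ?_ ?_
  · have hc : Continuous (fun z : ℂ => ‖z - P.c k‖ ^ 2) := by fun_prop
    exact (isClosed_le continuous_const hc).inter (isClosed_le hc continuous_const)
  · refine (Metric.isBounded_closedBall (x := P.c k) (r := 2 * |P.r k|)).subset ?_
    rintro z ⟨-, hz⟩
    rw [mem_closedBall_iff_norm]
    refine abs_le_of_sq_le_sq' ?_ (by positivity) |>.2
    nlinarith [sq_abs (P.r k), sq_nonneg (P.r k)]

/-- the compact sets `{|z| = ρ} ∪ ⋃ Ann k` -/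
def coreS (P : Par) (k1 l : ℕ) (ρ : ℝ) : Set ℂ :=
  Metric.sphere 0 ρ ∪ ⋃ k ∈ Finset.Ioc k1 l, P.Ann k

theorem coreS_compact (P : Par) (k1 l : ℕ) (ρ : ℝ) : IsCompact (coreS P k1 l ρ) :=
  (isCompact_sphere 0 ρ).union
    ((Finset.Ioc k1 l).isCompact_biUnion fun k _ => core_ann_compact P k)

theorem core_reg_mono (P : Par) (k1 l : ℕ) : P.Reg k1 l 3 ⊆ P.Reg k1 l 2 := by
  rintro z ⟨h1, h2, h3⟩
  refine ⟨h1, h2, fun k hk => ?_⟩
  have := h3 k hk
  nlinarith [sq_nonneg (P.r k)]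

section

variable (hReg : RegSubStmt) (hCirc : CircStmt) (hAnn : AnnSubStmt) (P : Par) {k1 : ℕ}
  (hG : P.Good k1)

include hReg hCirc hG in
theorem core_circ1 {l : ℕ} (hl : k1 ≤ l) {z : ℂ} (hz : ‖z‖ = P.ρ k1 ∨ ‖z‖ = P.ρ l) :
    (z : OnePoint ℂ) ∈ P.D :=
  hReg P k1 l hG hl z (core_reg_mono P k1 l (hCirc P k1 l hG hl z hz))

include hReg hCirc hAnn hG in
theorem coreS_sub {l l' : ℕ} (hl : k1 ≤ l) (hl' : l' = k1 ∨ l' = l) :
    ∀ z ∈ coreS P k1 l (P.ρ l'), (z : OnePoint ℂ) ∈ P.D := by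
  rintro z (hz | hz)
  · rw [mem_sphere_zero_iff_norm] at hz
    refine core_circ1 hReg hCirc P hG hl ?_
    rcases hl' with h | h
    · left; rw [hz, h]
    · right; rw [hz, h]
  · simp only [mem_iUnion, exists_prop] at hz
    obtain ⟨k, hk, hz⟩ := hz
    exact hReg P k1 l hG hl z (hAnn P k1 l k hG hl hk hz)

end

/-! ### Numbers -/

theorem core_23 (t : ℕ) : (2 / 3 : ℝ) ^ (8 * t) ≤ Real.exp (-(3 * (t : ℝ))) := by
  have h1 : (2 / 3 : ℝ) ^ 8 ≤ Real.exp (-3) := by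
    rw [Real.exp_neg, le_inv_comm₀ (by positivity) (Real.exp_pos _)]
    have h2 : Real.exp 3 = Real.exp 1 ^ 3 := by
      rw [← Real.exp_nat_mul]
      norm_num
    rw [h2]
    have h3 : Real.exp 1 ≤ 2.7182818286 := Real.exp_one_lt_d9.le
    calc Real.exp 1 ^ 3 ≤ 2.7182818286 ^ 3 := pow_le_pow_left₀ (Real.exp_pos _).le h3 3
      _ ≤ _ := by norm_num
  rw [pow_mul]
  calc ((2 / 3 : ℝ) ^ 8) ^ t ≤ (Real.exp (-3)) ^ t := pow_le_pow_left₀ (by positivity) h1 t
    _ = Real.exp (-(3 * (t : ℝ))) := by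
      rw [← Real.exp_nat_mul]
      congr 1
      ring

theorem core_pow_exp {x y : ℝ} (hx : 0 < x) (h : Real.log x ≤ y) (n : ℕ) :
    x ^ n ≤ Real.exp (y * n) := by
  have h1 : x ≤ Real.exp y := (Real.log_le_iff_le_exp hx).1 h
  calc x ^ n ≤ (Real.exp y) ^ n := pow_le_pow_left₀ hx.le h1 n
    _ = Real.exp (y * n) := by
      rw [← Real.exp_nat_mul]
      congr 1
      ring

theorem core_limit {A M : ℝ} (hM : 1 ≤ M)
    (h : ∀ n : ℕ, 1 ≤ n → 2 * Real.pi ≤ A * Real.exp (-(M * n / 2))) : False := by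
  have h1 : Tendsto (fun n : ℕ => A * Real.exp (-(M * n / 2))) atTop (𝓝 (A * 0)) := by
    refine Tendsto.const_mul A (Real.tendsto_exp_atBot.comp ?_)
    rw [Filter.tendsto_neg_atBot_iff]
    refine Tendsto.atTop_div_const (by norm_num) ?_
    exact tendsto_natCast_atTop_atTop.const_mul_atTop (by linarith)
  rw [mul_zero] at h1
  have h2 := ge_of_tendsto h1 (Filter.eventually_atTop.2 ⟨1, fun n hn => h n hn⟩)
  have := Real.pi_pos
  linarith

/-- the inequality for one `n` -/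
theorem core_ineq (hBin : BinStmt) (hBinB : BinBStmt) (hQ : QAStmt) (hDiff : DiffStmt)
    (hRes : ResStmt) (hReg : RegSubStmt) (hCirc : CircStmt) (hAnn : AnnSubStmt)
    (P : Par) {k1 k2 l k0 M : ℕ} (hG : P.Good k1) (h12 : k1 ≤ k2) (h2l : k2 ≤ l) (hk0 : 1 ≤ k0)
    (hM : 1 ≤ M) {C ρ'' ρ2 : ℝ} (hC : C = 9 * Real.log (2 / P.r k0))
    (hw1 : ∑ k ∈ Finset.Ioc k1 k2, P.w k ≤ 1 / 100)
    (hw2 : (2 * C + 4) * ∑ k ∈ Finset.Ioc k2 l, P.w k ≤ 1 / 100)
    (hρ'' : 0 < ρ'') (hρ2 : 0 < ρ2) (hqk : P.q ^ k0 ≤ ρ'' / 4)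
    (hM1 : Real.log (1 / ρ2) ≤ (M : ℝ) / 4) (hM2 : Real.log (4 / ρ'') ≤ (M : ℝ) / 8)
    (hρ1 : ρ'' ≤ 1)
    (hl : (2 * C + 4) * M ≤ Real.log (1 / P.ρ l))
    (K1 K2 K3 : Compacts P.D)
    (hK1 : K1 = mkK (Metric.sphere 0 (P.ρ k1)) (isCompact_sphere _ _)
      (fun z hz => core_circ1 hReg hCirc P hG le_rfl (Or.inl (mem_sphere_zero_iff_norm.1 hz))))
    (hK2 : K2 = mkK (coreS P k1 k2 (P.ρ k1)) (coreS_compact _ _ _ _)
      (coreS_sub hReg hCirc hAnn P hG h12 (Or.inl rfl)))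
    (hK3 : K3 = mkK (coreS P k1 l (P.ρ l)) (coreS_compact _ _ _ _)
      (coreS_sub hReg hCirc hAnn P hG (h12.trans h2l) (Or.inr rfl)))
    (Φ : Compacts P.D → Compacts P.D) (c : Compacts P.D → ℝ) (hc : ∀ K, 0 ≤ c K)
    (haw1 : ∀ p ∈ Φ K1, ∀ z : ℂ, (p : OnePoint ℂ) = z → ρ'' ≤ ‖z‖)
    (haw2 : ∀ p ∈ Φ K2, ∀ z : ℂ, (p : OnePoint ℂ) = z → ρ2 ≤ ‖z‖)
    {CS : ℝ} (hCS : 0 ≤ CS)
    (hSt : ∀ (F : ℂ → ℂ) (B : ℝ), 0 ≤ B →
      (∀ z : ℂ, P.ρ l ≤ ‖z‖ → ‖z‖ ≤ P.ρ k1 →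
        (∀ k ∈ Finset.Ioc k1 l, 2 * P.r k ^ 2 ≤ ‖z - P.c k‖ ^ 2) → DifferentiableAt ℂ F z) →
      (∀ z : ℂ, P.ρ l ≤ ‖z‖ → ‖z‖ ≤ P.ρ k1 →
        (∀ k ∈ Finset.Ioc k1 l, 2 * P.r k ^ 2 ≤ ‖z - P.c k‖ ^ 2) →
        (∃ k ∈ Finset.Ioc k1 l, ‖z - P.c k‖ ^ 2 ≤ 3 * P.r k ^ 2) → ‖F z‖ ≤ B) →
      ‖(∮ z in C(0, P.ρ k1), F z) - ∮ z in C(0, P.ρ l), F z‖ ≤ CS * B)
    {n : ℕ} (hn : 1 ≤ n)
    (hT : ∀ (t : ℝ) (f : OO P.D), ∃ T : OO P.D →ₗ[ℂ] OO P.D,
      (∀ K (h : OO P.D), nrm K (T h : C(P.D, ℂ)) ≤ c K * nrm (Φ K) (h : C(P.D, ℂ))) ∧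
      nrm K1 (f - T f : C(P.D, ℂ)) ≤
        Real.exp (-t) * (c K2 * nrm (Φ K2) (f : C(P.D, ℂ)) + 1) ∧
      ∀ h : OO P.D, nrm K2 (T h : C(P.D, ℂ)) ≤
        Real.exp t * (c K1 * nrm (Φ K1) (h : C(P.D, ℂ)))) :
    2 * Real.pi ≤ (Real.exp (∑ k ∈ Finset.Ioc k1 l, P.h k) * (2 * Real.pi * (c K2 + 1) +
      2 * Real.pi * (3 * c K1) + (2 * Real.pi * c K3 + CS * (4 * c K1 + c K3)))) *
        Real.exp (-((M : ℝ) * n / 2)) := by
  have hkl : k1 ≤ l := h12.trans h2l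
  have hk1 : 1 ≤ k1 := hG.1
  set t : ℝ := (M : ℝ) * n with ht
  have hMr : (1 : ℝ) ≤ M := by exact_mod_cast hM
  have hnr : (1 : ℝ) ≤ n := by exact_mod_cast hn
  have ht1 : 1 ≤ t := by
    rw [ht]
    nlinarith
  have ht0 : 0 ≤ t := by linarith
  set H : ℝ := ∑ k ∈ Finset.Ioc k1 l, P.h k with hH
  set f : OO P.D := coreF P hn with hf
  set g : OO P.D := coreG P hk0 hn (8 * (M * n)) with hg
  obtain ⟨T, hT1, hT2, hT3⟩ := hT t f
  set m : ℕ → ℕ := P.mexp k2 C t with hm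
  -- `C ≥ 0`
  have hr0 := P.r0 k0 hk0
  have hr01 : P.r k0 ≤ 1 := (P.r1 k0 hk0).le.trans (pow_le_one₀ P.q0.le P.q1.le)
  have h2r : 2 ≤ 2 / P.r k0 := by
    rw [le_div_iff₀ hr0]
    linarith
  have hlog : 0 ≤ Real.log (2 / P.r k0) := Real.log_nonneg (by linarith)
  have hC0 : 0 ≤ C := by
    rw [hC]
    positivity
  -- `Q`
  obtain ⟨hQ1, hQ2⟩ := hQ P k1 k2 l C t hk1 h12 h2l hC0 ht0
  have hexp : 4 * t * ∑ k ∈ Finset.Ioc k1 k2, P.w k +
      (2 * C + 4) * t * ∑ k ∈ Finset.Ioc k2 l, P.w k + H ≤ t / 20 + H := by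
    have e1 : 4 * t * ∑ k ∈ Finset.Ioc k1 k2, P.w k ≤ 4 * t * (1 / 100) :=
      mul_le_mul_of_nonneg_left hw1 (by positivity)
    have e2 : (2 * C + 4) * t * ∑ k ∈ Finset.Ioc k2 l, P.w k ≤ t * (1 / 100) := by
      have := mul_le_mul_of_nonneg_left hw2 ht0
      calc _ = t * ((2 * C + 4) * ∑ k ∈ Finset.Ioc k2 l, P.w k) := by ring
        _ ≤ _ := this
    linarith
  have hQb : ∀ z : ℂ, ‖z‖ ≤ 1 → ‖P.Q k1 l m z‖ ≤ Real.exp (t / 20 + H) := fun z hz =>
    (hQ1 z hz).trans (Real.exp_le_exp.2 hexp)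
  have hQA : ∀ z : ℂ, ‖z‖ ≤ 1 → ∀ k ∈ Finset.Ioc k1 l, z ∈ P.Ann k → ‖P.Q k1 l m z‖ ≤
      Real.exp (t / 20 + H - (if k ≤ k2 then 4 else 2 * C + 4) * t) := fun z hz k hk hzk =>
    (hQ2 z hz k hk hzk).trans (Real.exp_le_exp.2 (by linarith))
  -- numbers
  have n1 : (1 / ρ2) ^ n ≤ Real.exp (t / 4) := by
    have := core_pow_exp (x := 1 / ρ2) (by positivity) hM1 n
    refine this.trans (le_of_eq ?_)
    congr 1
    rw [ht]
    ring
  have n2 : (4 / ρ'') ^ n ≤ Real.exp (t / 8) := by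
    have := core_pow_exp (x := 4 / ρ'') (by positivity) hM2 n
    refine this.trans (le_of_eq ?_)
    congr 1
    rw [ht]
    ring
  have n3 : (1 / ρ'') ^ n ≤ Real.exp (t / 8) := by
    refine le_trans (pow_le_pow_left₀ (by positivity) ?_ n) n2
    gcongr
    norm_num
  have n4 : (2 / 3 : ℝ) ^ (8 * (M * n)) ≤ Real.exp (-(3 * t)) := by
    have := core_23 (M * n)
    rw [ht]
    push_cast at this
    exact this
  have n5 : (2 / P.r k0) ^ (n + 8 * (M * n)) ≤ Real.exp (C * t) := by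
    have e1 : (2 / P.r k0) ^ (n + 8 * (M * n)) ≤ (2 / P.r k0) ^ (9 * (M * n)) := by
      refine pow_le_pow_right₀ (by linarith) ?_
      have : n ≤ M * n := Nat.le_mul_of_pos_left n (by omega)
      omega
    have e2 := core_pow_exp (x := 2 / P.r k0) (by positivity) (le_refl _) (9 * (M * n))
    refine e1.trans (e2.trans (le_of_eq ?_))
    congr 1
    rw [hC, ht]
    push_cast
    ring
  have n6 : P.ρ l ^ n ≤ Real.exp (-((2 * C + 4) * t)) := by
    have h1 : Real.log (P.ρ l) ≤ -((2 * C + 4) * M) := by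
      rw [one_div, Real.log_inv] at hl
      linarith
    have := core_pow_exp (core_rho_pos P l) h1 n
    refine this.trans (le_of_eq ?_)
    congr 1
    rw [ht]
    ring
  -- norms
  have hf1 : nrm (Φ K1) (f : C(P.D, ℂ)) ≤ Real.exp (t / 8) :=
    (core_f_le P hn (Φ K1) hρ'' haw1).trans n3
  have hf2 : nrm (Φ K2) (f : C(P.D, ℂ)) ≤ Real.exp (t / 4) :=
    (core_f_le P hn (Φ K2) hρ2 haw2).trans n1
  have hfg : nrm (Φ K1) (f - g : C(P.D, ℂ)) ≤ 3 * (Real.exp (-(3 * t)) * Real.exp (t / 8)) := by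
    refine (core_fg_le hBin P hn (8 * (M * n)) hk0 (Φ K1) hρ'' haw1 hqk).trans ?_
    rw [mul_assoc]
    refine mul_le_mul_of_nonneg_left ?_ (by norm_num)
    exact mul_le_mul n4 n2 (by positivity) (Real.exp_pos _).le
  have hg1 : nrm (Φ K1) (g : C(P.D, ℂ)) ≤ 4 * Real.exp (t / 8) := by
    have e1 : (g : C(P.D, ℂ)) = (f : C(P.D, ℂ)) - (f - g : C(P.D, ℂ)) := by abel
    rw [e1]
    refine (nrm_sub _ _ _).trans ?_
    have e2 : Real.exp (-(3 * t)) ≤ 1 := by
      rw [Real.exp_le_one_iff]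
      linarith
    have e3 : Real.exp (-(3 * t)) * Real.exp (t / 8) ≤ 1 * Real.exp (t / 8) :=
      mul_le_mul_of_nonneg_right e2 (Real.exp_pos _).le
    linarith
  have hgall : ∀ K : Compacts P.D, nrm K (g : C(P.D, ℂ)) ≤ Real.exp (C * t) := fun K =>
    (core_g_le hBinB P hn (8 * (M * n)) hk0 K).trans n5
  have hTg2 : nrm K2 (T g : C(P.D, ℂ)) ≤ Real.exp t * (c K1 * (4 * Real.exp (t / 8))) := by
    refine (hT3 g).trans ?_
    gcongr
    exact hc K1
  have hTg3 : nrm K3 (T g : C(P.D, ℂ)) ≤ c K3 * Real.exp (C * t) := by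
    refine (hT1 K3 g).trans ?_
    exact mul_le_mul_of_nonneg_left (hgall _) (hc K3)
  have hTfg : nrm K1 (T (f - g) : C(P.D, ℂ)) ≤
      c K1 * (3 * (Real.exp (-(3 * t)) * Real.exp (t / 8))) := by
    refine (hT1 K1 (f - g)).trans ?_
    exact mul_le_mul_of_nonneg_left hfg (hc K1)
  have hT2' : nrm K1 (f - T f : C(P.D, ℂ)) ≤
      Real.exp (-t) * (c K2 * Real.exp (t / 4) + 1) := by
    refine hT2.trans ?_
    gcongr
    exact hc K2
  -- the integrals
  set W : ℂ → ℂ := fun z => z ^ (n - 1) * P.Q k1 l m z with hW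
  have hdiff : ∀ (u : OO P.D) (z : ℂ), (z : OnePoint ℂ) ∈ P.D →
      DifferentiableAt ℂ (fun z : ℂ => ext (u : C(P.D, ℂ)) z * W z) z :=
    fun u z hz => hDiff P u k1 l m n z hz
  have hρk := core_rho_pos P k1
  have hρl := core_rho_pos P l
  have hcirc1 : ∀ z : ℂ, z ∈ Metric.sphere (0 : ℂ) (P.ρ k1) → (z : OnePoint ℂ) ∈ P.D :=
    fun z hz => core_circ1 hReg hCirc P hG le_rfl (Or.inl (mem_sphere_zero_iff_norm.1 hz))
  have hint : ∀ u : OO P.D, CircleIntegrable (fun z : ℂ => ext (u : C(P.D, ℂ)) z * W z) 0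
      (P.ρ k1) := by
    intro u
    refine ContinuousOn.circleIntegrable hρk.le fun z hz => ?_
    exact (hdiff u z (hcirc1 z hz)).continuousAt.continuousWithinAt
  have hW1 : ∀ z : ℂ, ‖z‖ ≤ 1 → ‖W z‖ ≤ Real.exp (t / 20 + H) := by
    intro z hz
    simp only [hW]
    rw [norm_mul, norm_pow]
    have h1 : ‖z‖ ^ (n - 1) ≤ 1 := pow_le_one₀ (norm_nonneg _) hz
    calc ‖z‖ ^ (n - 1) * ‖P.Q k1 l m z‖ ≤ 1 * Real.exp (t / 20 + H) :=
          mul_le_mul h1 (hQb z hz) (norm_nonneg _) zero_le_one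
      _ = _ := one_mul _
  -- circle bound
  have hcb : ∀ (u : OO P.D) (b : ℝ), nrm K1 (u : C(P.D, ℂ)) ≤ b →
      ‖∮ z in C(0, P.ρ k1), ext (u : C(P.D, ℂ)) z * W z‖ ≤
        2 * Real.pi * (b * Real.exp (t / 20 + H)) := by
    intro u b hb
    have hb0 : 0 ≤ b := (nrm_nonneg _ _).trans hb
    have h1 : ∀ z ∈ Metric.sphere (0 : ℂ) (P.ρ k1), ‖ext (u : C(P.D, ℂ)) z * W z‖ ≤
        b * Real.exp (t / 20 + H) := by
      intro z hz
      rw [norm_mul]
      have hz1 : ‖z‖ ≤ 1 := by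
        rw [mem_sphere_zero_iff_norm.1 hz]
        exact core_rho_le P k1
      refine mul_le_mul ?_ (hW1 z hz1) (norm_nonneg _) hb0
      refine le_trans ?_ hb
      rw [hK1]
      exact le_nrm_mkK _ _ _ hz
    refine (circleIntegral.norm_integral_le_of_norm_le_const hρk.le h1).trans ?_
    have h2 := core_rho_le P k1
    have h3 : 0 ≤ b * Real.exp (t / 20 + H) := by positivity
    have hpi := Real.pi_pos
    calc 2 * Real.pi * P.ρ k1 * (b * Real.exp (t / 20 + H))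
        ≤ 2 * Real.pi * 1 * (b * Real.exp (t / 20 + H)) := by gcongr
      _ = _ := by ring
  -- decomposition
  have hmain : (2 * Real.pi * Complex.I : ℂ) =
      (∮ z in C(0, P.ρ k1), ext ((f - T f : OO P.D) : C(P.D, ℂ)) z * W z) +
      (∮ z in C(0, P.ρ k1), ext ((T (f - g) : OO P.D) : C(P.D, ℂ)) z * W z) +
      (∮ z in C(0, P.ρ k1), ext ((T g : OO P.D) : C(P.D, ℂ)) z * W z) := by
    have hi12 : CircleIntegrable (fun z : ℂ =>
        ext ((f - T f : OO P.D) : C(P.D, ℂ)) z * W z +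
          ext ((T (f - g) : OO P.D) : C(P.D, ℂ)) z * W z) 0 (P.ρ k1) := (hint _).add (hint _)
    rw [← circleIntegral.integral_add (hint _) (hint _),
      ← circleIntegral.integral_add hi12 (hint _),
      ← hRes P k1 l m n (P.ρ k1) hn hρk]
    refine circleIntegral.integral_congr hρk.le fun z hz => ?_
    have hzD := hcirc1 z hz
    have e1 : ext (f : C(P.D, ℂ)) z = (z⁻¹) ^ n := by
      rw [hf]
      unfold coreF
      rw [pw_apply _ _ _ _ _ hzD, sub_zero]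
    have e2 : ext (f : C(P.D, ℂ)) z = ext ((f - T f : OO P.D) : C(P.D, ℂ)) z +
        ext ((T (f - g) : OO P.D) : C(P.D, ℂ)) z + ext ((T g : OO P.D) : C(P.D, ℂ)) z := by
      rw [← ext_add, ← ext_add]
      congr 1
      have e3 : f = (f - T f) + T (f - g) + T g := by
        have e5 : T (f - g) = T f - T g := map_sub T f g
        rw [e5]
        abel
      have e4 := congrArg (fun u : OO P.D => (u : C(P.D, ℂ))) e3
      exact e4
    simp only [hW]
    rw [← e1, e2]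
    ring
  have hn0 : ‖(2 * Real.pi * Complex.I : ℂ)‖ = 2 * Real.pi := by
    rw [norm_mul, norm_mul, Complex.norm_I, Complex.norm_real, Real.norm_of_nonneg Real.pi_pos.le]
    simp
  have hS1 := hcb (f - T f) _ hT2'
  have hS2 := hcb (T (f - g)) _ hTfg
  -- the third integral
  set B : ℝ := Real.exp (t / 20 + H) * (Real.exp t * (c K1 * (4 * Real.exp (t / 8))) *
    Real.exp (-(4 * t)) + c K3 * Real.exp (C * t) * Real.exp (-((2 * C + 4) * t))) with hB
  have hc1 := hc K1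
  have hc2 := hc K2
  have hc3 := hc K3
  have hB0 : 0 ≤ B := by positivity
  have hS3 := hSt (fun z => ext ((T g : OO P.D) : C(P.D, ℂ)) z * W z) B hB0
    (fun z h1 h2 h3 => hdiff _ z (hReg P k1 l hG hkl z ⟨h1, h2, h3⟩))
    (by
      intro z h1 h2 h3 ⟨k, hk, h4⟩
      have hzA : z ∈ P.Ann k := ⟨h3 k hk, h4⟩
      have hz1 : ‖z‖ ≤ 1 := h2.trans (core_rho_le P k1)
      have hWz : ‖W z‖ ≤ Real.exp (t / 20 + H - (if k ≤ k2 then 4 else 2 * C + 4) * t) := by
        simp only [hW]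
        rw [norm_mul, norm_pow]
        have h5 : ‖z‖ ^ (n - 1) ≤ 1 := pow_le_one₀ (norm_nonneg _) hz1
        calc ‖z‖ ^ (n - 1) * ‖P.Q k1 l m z‖ ≤
              1 * Real.exp (t / 20 + H - (if k ≤ k2 then 4 else 2 * C + 4) * t) :=
              mul_le_mul h5 (hQA z hz1 k hk hzA) (norm_nonneg _) zero_le_one
          _ = _ := one_mul _
      rw [norm_mul]
      by_cases hkk : k ≤ k2
      · rw [if_pos hkk] at hWz
        have hzS : z ∈ coreS P k1 k2 (P.ρ k1) := by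
          right
          simp only [mem_iUnion, exists_prop]
          exact ⟨k, Finset.mem_Ioc.2 ⟨(Finset.mem_Ioc.1 hk).1, hkk⟩, hzA⟩
        have h6 : ‖ext ((T g : OO P.D) : C(P.D, ℂ)) z‖ ≤
            Real.exp t * (c K1 * (4 * Real.exp (t / 8))) := by
          refine le_trans ?_ hTg2
          rw [hK2]
          exact le_nrm_mkK _ _ _ hzS
        calc _ ≤ (Real.exp t * (c K1 * (4 * Real.exp (t / 8)))) *
              Real.exp (t / 20 + H - 4 * t) :=
              mul_le_mul h6 hWz (norm_nonneg _) (by positivity)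
          _ = Real.exp (t / 20 + H) * (Real.exp t * (c K1 * (4 * Real.exp (t / 8))) *
              Real.exp (-(4 * t))) := by
              rw [sub_eq_add_neg, Real.exp_add]
              ring
          _ ≤ B := by
              rw [hB]
              refine mul_le_mul_of_nonneg_left ?_ (Real.exp_pos _).le
              have : 0 ≤ c K3 * Real.exp (C * t) * Real.exp (-((2 * C + 4) * t)) := by positivity
              linarith
      · rw [if_neg hkk] at hWz
        have hzS : z ∈ coreS P k1 l (P.ρ l) := by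
          right
          simp only [mem_iUnion, exists_prop]
          exact ⟨k, hk, hzA⟩
        have h6 : ‖ext ((T g : OO P.D) : C(P.D, ℂ)) z‖ ≤ c K3 * Real.exp (C * t) := by
          refine le_trans ?_ hTg3
          rw [hK3]
          exact le_nrm_mkK _ _ _ hzS
        calc _ ≤ (c K3 * Real.exp (C * t)) * Real.exp (t / 20 + H - (2 * C + 4) * t) :=
              mul_le_mul h6 hWz (norm_nonneg _) (by positivity)
          _ = Real.exp (t / 20 + H) * (c K3 * Real.exp (C * t) *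
              Real.exp (-((2 * C + 4) * t))) := by
              rw [sub_eq_add_neg, Real.exp_add]
              ring
          _ ≤ B := by
              rw [hB]
              refine mul_le_mul_of_nonneg_left ?_ (Real.exp_pos _).le
              have : 0 ≤ Real.exp t * (c K1 * (4 * Real.exp (t / 8))) * Real.exp (-(4 * t)) := by
                positivity
              linarith)
  have hS4 : ‖∮ z in C(0, P.ρ l), ext ((T g : OO P.D) : C(P.D, ℂ)) z * W z‖ ≤
      2 * Real.pi * (c K3 * Real.exp (C * t) * Real.exp (t / 20 + H) *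
        Real.exp (-((2 * C + 4) * t))) := by
    have h1 : ∀ z ∈ Metric.sphere (0 : ℂ) (P.ρ l), ‖ext ((T g : OO P.D) : C(P.D, ℂ)) z * W z‖ ≤
        c K3 * Real.exp (C * t) * (P.ρ l ^ (n - 1) * Real.exp (t / 20 + H)) := by
      intro z hz
      have hzn := mem_sphere_zero_iff_norm.1 hz
      rw [norm_mul]
      have hz1 : ‖z‖ ≤ 1 := by
        rw [hzn]
        exact core_rho_le P l
      refine mul_le_mul ?_ ?_ (norm_nonneg _) (by positivity)
      · refine le_trans ?_ hTg3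
        rw [hK3]
        exact le_nrm_mkK _ _ _ (Or.inl hz)
      · simp only [hW]
        rw [norm_mul, norm_pow, hzn]
        exact mul_le_mul_of_nonneg_left (hQb z hz1) (by positivity)
    refine (circleIntegral.norm_integral_le_of_norm_le_const hρl.le h1).trans ?_
    have h2 : P.ρ l * P.ρ l ^ (n - 1) = P.ρ l ^ n := by
      rw [← pow_succ']
      congr 1
      omega
    have hpi := Real.pi_pos
    calc 2 * Real.pi * P.ρ l * (c K3 * Real.exp (C * t) *
          (P.ρ l ^ (n - 1) * Real.exp (t / 20 + H)))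
        = 2 * Real.pi * (c K3 * Real.exp (C * t) * Real.exp (t / 20 + H) *
          (P.ρ l * P.ρ l ^ (n - 1))) := by ring
      _ ≤ _ := by
        rw [h2]
        gcongr
  -- conclusion
  have hfin : 2 * Real.pi ≤
      2 * Real.pi * (Real.exp (-t) * (c K2 * Real.exp (t / 4) + 1) * Real.exp (t / 20 + H)) +
      2 * Real.pi * (c K1 * (3 * (Real.exp (-(3 * t)) * Real.exp (t / 8))) *
        Real.exp (t / 20 + H)) +
      (2 * Real.pi * (c K3 * Real.exp (C * t) * Real.exp (t / 20 + H) *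
        Real.exp (-((2 * C + 4) * t))) + CS * B) := by
    have h1 := congrArg norm hmain
    rw [hn0] at h1
    have h2 := norm_add_le ((∮ z in C(0, P.ρ k1), ext ((f - T f : OO P.D) : C(P.D, ℂ)) z * W z) +
      (∮ z in C(0, P.ρ k1), ext ((T (f - g) : OO P.D) : C(P.D, ℂ)) z * W z))
      (∮ z in C(0, P.ρ k1), ext ((T g : OO P.D) : C(P.D, ℂ)) z * W z)
    have h3 := norm_add_le (∮ z in C(0, P.ρ k1), ext ((f - T f : OO P.D) : C(P.D, ℂ)) z * W z)
      (∮ z in C(0, P.ρ k1), ext ((T (f - g) : OO P.D) : C(P.D, ℂ)) z * W z)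
    have h4 := norm_le_norm_add_norm_sub'
      (∮ z in C(0, P.ρ k1), ext ((T g : OO P.D) : C(P.D, ℂ)) z * W z)
      (∮ z in C(0, P.ρ l), ext ((T g : OO P.D) : C(P.D, ℂ)) z * W z)
    linarith
  -- exponentials
  have x1 : ∀ x : ℝ, x ≤ -(t / 2) → Real.exp x ≤ Real.exp (-(t / 2)) := fun x hx =>
    Real.exp_le_exp.2 hx
  have hEH : Real.exp (t / 20 + H) = Real.exp H * Real.exp (t / 20) := by
    rw [add_comm, Real.exp_add]
  have y1 : Real.exp (-t) * (c K2 * Real.exp (t / 4) + 1) * Real.exp (t / 20 + H) ≤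
      Real.exp H * (c K2 + 1) * Real.exp (-(t / 2)) := by
    have a1 : Real.exp (-t) * Real.exp (t / 4) * Real.exp (t / 20) ≤ Real.exp (-(t / 2)) := by
      rw [← Real.exp_add, ← Real.exp_add]
      exact x1 _ (by linarith)
    have a2 : Real.exp (-t) * Real.exp (t / 20) ≤ Real.exp (-(t / 2)) := by
      rw [← Real.exp_add]
      exact x1 _ (by linarith)
    rw [hEH]
    calc _ = Real.exp H * (c K2 * (Real.exp (-t) * Real.exp (t / 4) * Real.exp (t / 20)) +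
          Real.exp (-t) * Real.exp (t / 20)) := by ring
      _ ≤ Real.exp H * (c K2 * Real.exp (-(t / 2)) + Real.exp (-(t / 2))) := by
          refine mul_le_mul_of_nonneg_left ?_ (Real.exp_pos _).le
          exact add_le_add (mul_le_mul_of_nonneg_left a1 hc2) a2
      _ = _ := by ring
  have y2 : c K1 * (3 * (Real.exp (-(3 * t)) * Real.exp (t / 8))) * Real.exp (t / 20 + H) ≤
      Real.exp H * (3 * c K1) * Real.exp (-(t / 2)) := by
    have a1 : Real.exp (-(3 * t)) * Real.exp (t / 8) * Real.exp (t / 20) ≤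
        Real.exp (-(t / 2)) := by
      rw [← Real.exp_add, ← Real.exp_add]
      exact x1 _ (by linarith)
    rw [hEH]
    calc _ = Real.exp H * (3 * c K1) * (Real.exp (-(3 * t)) * Real.exp (t / 8) *
          Real.exp (t / 20)) := by ring
      _ ≤ _ := mul_le_mul_of_nonneg_left a1 (by positivity)
  have hCt : 0 ≤ C * t := mul_nonneg hC0 ht0
  have a3 : Real.exp (C * t) * Real.exp (t / 20) * Real.exp (-((2 * C + 4) * t)) ≤
      Real.exp (-(t / 2)) := by
    rw [← Real.exp_add, ← Real.exp_add]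
    exact x1 _ (by nlinarith)
  have y3 : c K3 * Real.exp (C * t) * Real.exp (t / 20 + H) * Real.exp (-((2 * C + 4) * t)) ≤
      Real.exp H * c K3 * Real.exp (-(t / 2)) := by
    rw [hEH]
    calc _ = Real.exp H * c K3 * (Real.exp (C * t) * Real.exp (t / 20) *
          Real.exp (-((2 * C + 4) * t))) := by ring
      _ ≤ _ := mul_le_mul_of_nonneg_left a3 (by positivity)
  have y4 : B ≤ Real.exp H * (4 * c K1 + c K3) * Real.exp (-(t / 2)) := by
    have a1 : Real.exp t * Real.exp (t / 8) * Real.exp (-(4 * t)) * Real.exp (t / 20) ≤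
        Real.exp (-(t / 2)) := by
      rw [← Real.exp_add, ← Real.exp_add, ← Real.exp_add]
      exact x1 _ (by linarith)
    rw [hB, hEH]
    calc _ = Real.exp H * (4 * c K1 * (Real.exp t * Real.exp (t / 8) * Real.exp (-(4 * t)) *
          Real.exp (t / 20)) + c K3 * (Real.exp (C * t) * Real.exp (t / 20) *
          Real.exp (-((2 * C + 4) * t)))) := by ring
      _ ≤ Real.exp H * (4 * c K1 * Real.exp (-(t / 2)) + c K3 * Real.exp (-(t / 2))) := by
          refine mul_le_mul_of_nonneg_left ?_ (Real.exp_pos _).le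
          exact add_le_add (mul_le_mul_of_nonneg_left a1 (by positivity))
            (mul_le_mul_of_nonneg_left a3 hc3)
      _ = _ := by ring
  have hpi := Real.pi_pos
  refine hfin.trans ?_
  have z1 := mul_le_mul_of_nonneg_left y1 (by positivity : 0 ≤ 2 * Real.pi)
  have z2 := mul_le_mul_of_nonneg_left y2 (by positivity : 0 ≤ 2 * Real.pi)
  have z3 := mul_le_mul_of_nonneg_left y3 (by positivity : 0 ≤ 2 * Real.pi)
  have z4 := mul_le_mul_of_nonneg_left y4 hCS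
  calc _ ≤ 2 * Real.pi * (Real.exp H * (c K2 + 1) * Real.exp (-(t / 2))) +
        2 * Real.pi * (Real.exp H * (3 * c K1) * Real.exp (-(t / 2))) +
        (2 * Real.pi * (Real.exp H * c K3 * Real.exp (-(t / 2))) +
          CS * (Real.exp H * (4 * c K1 + c K3) * Real.exp (-(t / 2)))) :=
        add_le_add (add_le_add z1 z2) (add_le_add z3 z4)
    _ = _ := by
      ring

/-- There is no decomposition. -/
theorem core (hTail : TailStmt) (hGood : GoodExStmt) (hReg : RegSubStmt)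
    (hCirc : CircStmt) (hAnn : AnnSubStmt) (hBin : BinStmt) (hBinB : BinBStmt) (hQ : QAStmt)
    (hStokes : StokesStmt) (hTr : TruncStmt) (hDiff : DiffStmt) (hRes : ResStmt) : CoreStmt := by
  intro P ι v η hdec
  obtain ⟨Φ, c, hc, hT⟩ := hTr P.D ι v η hdec
  obtain ⟨kg, hkg⟩ := hGood P
  obtain ⟨ka, hka⟩ := hTail P (1 / 100) (by norm_num)
  set k1 : ℕ := max kg ka with hk1
  have hG : P.Good k1 := hkg k1 (le_max_left _ _)
  have hw1 := hka k1 (le_max_right _ _)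
  set K1 : Compacts P.D := mkK (Metric.sphere 0 (P.ρ k1)) (isCompact_sphere _ _)
      (fun z hz => core_circ1 hReg hCirc P hG le_rfl (Or.inl (mem_sphere_zero_iff_norm.1 hz)))
    with hK1
  obtain ⟨ρ'', hρ0, hρ1, haw1⟩ := core_away P (Φ K1)
  -- `k0`
  obtain ⟨k0', hk0'⟩ := exists_pow_lt_of_lt_one (show 0 < ρ'' / 4 by positivity) P.q1
  set k0 : ℕ := k0' + 1 with hk0
  have hqk : P.q ^ k0 ≤ ρ'' / 4 :=
    (pow_le_pow_of_le_one P.q0.le P.q1.le (by omega)).trans hk0'.le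
  have hk01 : 1 ≤ k0 := by omega
  set C : ℝ := 9 * Real.log (2 / P.r k0) with hC
  have hr0 := P.r0 k0 hk01
  have hr01 : P.r k0 ≤ 1 := (P.r1 k0 hk01).le.trans (pow_le_one₀ P.q0.le P.q1.le)
  have hC0 : 0 ≤ C := by
    have : 1 ≤ 2 / P.r k0 := by
      rw [le_div_iff₀ hr0]
      linarith
    have := Real.log_nonneg this
    positivity
  -- `k2`
  obtain ⟨kb, hkb⟩ := hTail P (1 / (100 * (2 * C + 4))) (by positivity)
  set k2 : ℕ := max k1 kb with hk2
  have h12 : k1 ≤ k2 := le_max_left _ _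
  have hw2 := hkb k2 (le_max_right _ _)
  set K2 : Compacts P.D := mkK (coreS P k1 k2 (P.ρ k1)) (coreS_compact _ _ _ _)
      (coreS_sub hReg hCirc hAnn P hG h12 (Or.inl rfl)) with hK2
  obtain ⟨ρ2, hρ20, -, haw2⟩ := core_away P (Φ K2)
  -- `M`
  obtain ⟨M, hM⟩ := exists_nat_ge (max (4 * Real.log (1 / ρ2)) (max (8 * Real.log (4 / ρ'')) 1))
  have hM1 : 1 ≤ M := by
    have : (1 : ℝ) ≤ M := (le_max_right _ _).trans ((le_max_right _ _).trans hM)
    exact_mod_cast this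
  have hM2 : Real.log (1 / ρ2) ≤ (M : ℝ) / 4 := by
    have := (le_max_left _ _).trans hM
    linarith
  have hM3 : Real.log (4 / ρ'') ≤ (M : ℝ) / 8 := by
    have := (le_max_left _ _).trans ((le_max_right _ _).trans hM)
    linarith
  -- `l`
  obtain ⟨l', hl'⟩ := exists_pow_lt_of_lt_one (Real.exp_pos (-((2 * C + 4) * M))) P.q1
  set l : ℕ := max k2 l' with hl
  have h2l : k2 ≤ l := le_max_left _ _
  have hll : (2 * C + 4) * M ≤ Real.log (1 / P.ρ l) := by
    have h1 : P.ρ l ≤ Real.exp (-((2 * C + 4) * M)) := by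
      have h2 : P.q ^ l ≤ P.q ^ l' := pow_le_pow_of_le_one P.q0.le P.q1.le (le_max_right _ _)
      have h3 : P.ρ l ≤ P.q ^ l := by
        unfold Par.ρ
        have h4 : 0 ≤ P.q ^ l := pow_nonneg P.q0.le _
        have h5 := P.q1
        nlinarith
      exact h3.trans (h2.trans hl'.le)
    rw [one_div, Real.log_inv]
    have h6 := Real.log_le_log (core_rho_pos P l) h1
    rw [Real.log_exp] at h6
    linarith
  have hkl : k1 ≤ l := h12.trans h2l
  have hρle : P.ρ l ≤ P.ρ k1 := by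
    unfold Par.ρ
    have h5 := P.q0
    exact mul_le_mul_of_nonneg_right (pow_le_pow_of_le_one P.q0.le P.q1.le hkl) (by positivity)
  obtain ⟨CS, hCS, hSt⟩ := hStokes (P.ρ l) (P.ρ k1) (Finset.Ioc k1 l) P.c P.r (core_rho_pos P l)
    hρle (fun k hk => P.r0 k (by
      have := (Finset.mem_Ioc.1 hk).1
      omega)) (fun z hz k hk => (hCirc P k1 l hG hkl z hz).2.2 k hk)
  set K3 : Compacts P.D := mkK (coreS P k1 l (P.ρ l)) (coreS_compact _ _ _ _)
      (coreS_sub hReg hCirc hAnn P hG hkl (Or.inr rfl)) with hK3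
  refine core_limit (M := M) (A := Real.exp (∑ k ∈ Finset.Ioc k1 l, P.h k) *
    (2 * Real.pi * (c K2 + 1) + 2 * Real.pi * (3 * c K1) +
      (2 * Real.pi * c K3 + CS * (4 * c K1 + c K3)))) (by exact_mod_cast hM1) fun n hn => ?_
  refine core_ineq hBin hBinB hQ hDiff hRes hReg hCirc hAnn P hG h12 h2l hk01 hM1 hC
    (hw1 k2) ?_ hρ0 hρ20 hqk hM2 hM3 hρ1 hll K1 K2 K3 hK1 hK2 hK3 Φ c hc haw1 haw2 hCS hSt hn
    (fun t f => hT K1 K2 t f)
  have h1 := hw2 l
  have h2 : (2 * C + 4) * ∑ k ∈ Finset.Ioc k2 l, P.w k ≤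
      (2 * C + 4) * (1 / (100 * (2 * C + 4))) := mul_le_mul_of_nonneg_left h1 (by positivity)
  refine h2.trans (le_of_eq ?_)
  field_simp

end Pool.Agent.Lib.MP_413903_an
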