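import Mathlib

/-!
# MP_413903_an: definitions

The domain `D(q, r)` of the Riemann sphere (one point compactification of the plane), the Frechet
space `O(D)` of the functions analytic in a domain `D` of the sphere (topology of uniform
convergence on compact subsets), Koethe echelon spaces.
-/

set_option autoImplicit false

namespace Pool.Agent.Lib.MP_413903_an

open Complex Set Filter Topology OnePoint NNReal

/-- The set removed from the plane: the closed discs `|z - q^j| ≤ r_j`, `j ≥ 1`, and the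
point `0`. -/
def Removed (q : ℝ) (r : ℕ → ℝ) : Set ℂ :=
  {z | z = 0 ∨ ∃ j : ℕ, 1 ≤ j ∧ ‖z - (q : ℂ) ^ j‖ ≤ r j}

/-- The domain `D(q, r)` of the Riemann sphere. -/
def Dom (q : ℝ) (r : ℕ → ℝ) : Set (OnePoint ℂ) :=
  ((fun z : ℂ => (z : OnePoint ℂ)) '' Removed q r)ᶜ

open Classical in
/-- The value at the point `p` of the sphere of a function on `D` (`0` outside `D`). -/
noncomputable def ext {D : Set (OnePoint ℂ)} (f : C(D, ℂ)) (p : OnePoint ℂ) : ℂ :=
  if h : p ∈ D then f ⟨p, h⟩ else 0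

open Classical in
/-- The chart of the sphere at `∞`: `w ↦ 1 / w`, `0 ↦ ∞`. -/
noncomputable def chartInf (w : ℂ) : OnePoint ℂ :=
  if w = 0 then ∞ else ((w⁻¹ : ℂ) : OnePoint ℂ)

theorem ext_of_mem {D : Set (OnePoint ℂ)} (f : C(D, ℂ)) {p : OnePoint ℂ} (h : p ∈ D) :
    ext f p = f ⟨p, h⟩ := by
  simp [ext, h]

theorem ext_add {D : Set (OnePoint ℂ)} (f g : C(D, ℂ)) (p : OnePoint ℂ) :
    ext (f + g) p = ext f p + ext g p := by
  unfold ext
  split_ifs <;> simp

theorem ext_zero {D : Set (OnePoint ℂ)} (p : OnePoint ℂ) : ext (0 : C(D, ℂ)) p = 0 := by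
  unfold ext
  split_ifs <;> simp

theorem ext_smul {D : Set (OnePoint ℂ)} (c : ℂ) (f : C(D, ℂ)) (p : OnePoint ℂ) :
    ext (c • f) p = c * ext f p := by
  unfold ext
  split_ifs <;> simp

/-- The space `O(D)` of the functions analytic in the open subset `D` of the Riemann sphere, with
the topology of uniform convergence on the compact subsets of `D` (subspace of the space `C(D, ℂ)`
with the compact-open topology).  Analyticity is tested in the two standard charts. -/
def OO (D : Set (OnePoint ℂ)) : Submodule ℂ C(D, ℂ) where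
  carrier := {f | (∀ z : ℂ, (z : OnePoint ℂ) ∈ D → AnalyticAt ℂ (fun w : ℂ => ext f w) z) ∧
    (∞ ∈ D → AnalyticAt ℂ (fun w : ℂ => ext f (chartInf w)) 0)}
  add_mem' := by
    rintro f g ⟨hf, hf'⟩ ⟨hg, hg'⟩
    refine ⟨fun z hz => ?_, fun h => ?_⟩
    · simpa only [ext_add] using (hf z hz).fun_add (hg z hz)
    · simpa only [ext_add] using (hf' h).fun_add (hg' h)
  zero_mem' := by
    refine ⟨fun z _ => ?_, fun _ => ?_⟩
    · simpa only [ext_zero] using analyticAt_const
    · simpa only [ext_zero] using analyticAt_const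
  smul_mem' := by
    rintro c f ⟨hf, hf'⟩
    refine ⟨fun z hz => ?_, fun h => ?_⟩
    · simpa only [ext_smul] using analyticAt_const.fun_mul (hf z hz)
    · simpa only [ext_smul] using analyticAt_const.fun_mul (hf' h)

/-- The sequences `ξ` with `∑ₙ |ξₙ| a_{n,k} < ∞` for all `k`. -/
def koetheSub {ι : Type} (A : ι → ℕ → ℝ≥0) : Submodule ℂ (ι → ℂ) where
  carrier := {ξ | ∀ k, Summable fun n => ‖ξ n‖ * (A n k : ℝ)}
  add_mem' := by
    intro ξ η hξ hη k
    refine Summable.of_nonneg_of_le (fun n => by positivity) (fun n => ?_) ((hξ k).add (hη k))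
    rw [← add_mul]
    exact mul_le_mul_of_nonneg_right (norm_add_le _ _) (A n k).2
  zero_mem' := by
    intro k
    simp
  smul_mem' := by
    intro c ξ hξ k
    have h := (hξ k).mul_left ‖c‖
    refine h.congr fun n => ?_
    simp [mul_assoc]

/-- The Koethe echelon space `λ¹(A)` of the weights `A n k = a_{n,k} ≥ 0` (the index set of the
sequences is arbitrary, the weights are indexed by `k ∈ ℕ`). -/
def Koethe {ι : Type} (A : ι → ℕ → ℝ≥0) : Type := koetheSub A

noncomputable instance {ι : Type} (A : ι → ℕ → ℝ≥0) : AddCommGroup (Koethe A) :=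
  inferInstanceAs (AddCommGroup (koetheSub A))

noncomputable instance {ι : Type} (A : ι → ℕ → ℝ≥0) : Module ℂ (Koethe A) :=
  inferInstanceAs (Module ℂ (koetheSub A))

/-- The norms `|ξ|_k = ∑ₙ |ξₙ| a_{n,k}`. -/
noncomputable def koetheNorm {ι : Type} (A : ι → ℕ → ℝ≥0) (k : ℕ) : Seminorm ℂ (Koethe A) :=
  let p : Seminorm ℂ (koetheSub A) := Seminorm.of (fun ξ => ∑' n, ‖ξ.1 n‖ * (A n k : ℝ))
    (fun ξ η => by
      have hs : Summable fun n => ‖(ξ + η).1 n‖ * (A n k : ℝ) := (ξ + η).2 k
      rw [← (ξ.2 k).tsum_add (η.2 k)]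
      refine hs.tsum_le_tsum (fun n => ?_) ((ξ.2 k).add (η.2 k))
      rw [← add_mul]
      exact mul_le_mul_of_nonneg_right (norm_add_le _ _) (A n k).2)
    (fun c ξ => by
      have h : ∀ n, ‖(c • ξ).1 n‖ * (A n k : ℝ) = ‖c‖ * (‖ξ.1 n‖ * (A n k : ℝ)) := fun n => by
        have : (c • ξ).1 n = c * ξ.1 n := rfl
        rw [this, norm_mul, mul_assoc]
      exact (tsum_congr h).trans tsum_mul_left)
  p

/-- The topology of `λ¹(A)`, given by the norms `|ξ|_k`. -/
noncomputable instance {ι : Type} (A : ι → ℕ → ℝ≥0) : TopologicalSpace (Koethe A) :=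
  SeminormFamily.moduleFilterBasis (𝕜 := ℂ) (ι := ℕ) (koetheNorm A) |>.topology

end Pool.Agent.Lib.MP_413903_an
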