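import Pool.Agent.Lib.MP_413903_an.Spec

/-!
# MP_413903_an: differentiability and residue
-/

set_option autoImplicit false

namespace Pool.Agent.Lib.MP_413903_an

open Complex Set Filter Topology OnePoint NNReal TopologicalSpace

theorem diffRes_Q (P : Par) (k1 l : ℕ) (m : ℕ → ℕ) : Differentiable ℂ (P.Q k1 l m) := by
  intro z
  unfold Par.Q
  fun_prop

/-- **Diff** -/
theorem diff : DiffStmt := by
  intro P f k1 l m n z hz
  have h1 : AnalyticAt ℂ (fun w : ℂ => ext (f : C(P.D, ℂ)) w) z := f.2.1 z hz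
  exact h1.differentiableAt.fun_mul
    ((differentiableAt_id.fun_pow (n - 1)).fun_mul (diffRes_Q P k1 l m z))

/-- **Res** -/
theorem res : ResStmt := by
  intro P k1 l m n ρ hn hρ
  have h1 : (∮ z in C(0, ρ), (z⁻¹) ^ n * (z ^ (n - 1) * P.Q k1 l m z)) =
      ∮ z in C(0, ρ), (z - 0)⁻¹ • P.Q k1 l m z := by
    refine circleIntegral.integral_congr hρ.le fun z hz => ?_
    have hz0 : z ≠ 0 := by
      rintro rfl
      simp only [mem_sphere_iff_norm, sub_self, norm_zero] at hz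
      exact hρ.ne hz
    obtain ⟨k, rfl⟩ : ∃ k, n = k + 1 := ⟨n - 1, by omega⟩
    have h2 : (z⁻¹) ^ k * z ^ k = 1 := by
      rw [← mul_pow, inv_mul_cancel₀ hz0, one_pow]
    show (z⁻¹) ^ (k + 1) * (z ^ (k + 1 - 1) * P.Q k1 l m z) = (z - 0)⁻¹ • P.Q k1 l m z
    rw [Nat.add_sub_cancel, sub_zero, smul_eq_mul, pow_succ]
    calc z⁻¹ ^ k * z⁻¹ * (z ^ k * P.Q k1 l m z) = (z⁻¹ ^ k * z ^ k) * (z⁻¹ * P.Q k1 l m z) := by
          ring
      _ = z⁻¹ * P.Q k1 l m z := by rw [h2, one_mul]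
  rw [h1, DiffContOnCl.circleIntegral_sub_inv_smul
    ((diffRes_Q P k1 l m).diffContOnCl) (Metric.mem_ball_self hρ)]
  have h3 : P.Q k1 l m 0 = 1 := by
    unfold Par.Q
    simp
  rw [h3, smul_eq_mul, mul_one]

end Pool.Agent.Lib.MP_413903_an
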