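import Pool.Agent.Lib.MP_413903_an.Spec

/-!
# MP_413903_an: elementary facts on the parameters
-/

set_option autoImplicit false

namespace Pool.Agent.Lib.MP_413903_an

open Complex Set Filter Topology OnePoint NNReal TopologicalSpace

theorem elemLogq (P : Par) : 0 < Real.log (1 / P.q) :=
  Real.log_pos ((one_lt_div P.q0).2 P.q1)

theorem elemLog3 : 0 < Real.log 3 := Real.log_pos (by norm_num)

/-- **Lpos** -/
theorem lpos : LposStmt := by
  intro P k hk
  have h1 := elemLogq P
  have h3 := elemLog3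
  have hk0 : (0 : ℝ) < (k : ℝ) := by exact_mod_cast hk
  have h4 : 0 < (k : ℝ) * Real.log (1 / P.q) := mul_pos hk0 h1
  have h5 : (k : ℝ) * Real.log (1 / P.q) < P.L k := by
    unfold Par.L
    rw [← Real.log_pow]
    refine Real.log_lt_log (pow_pos (one_div_pos.2 P.q0) k) ?_
    rw [one_div_pow]
    exact one_div_lt_one_div_of_lt (P.r0 k hk) (P.r1 k hk)
  refine ⟨?_, h5, h4.trans h5⟩
  unfold Par.h
  linarith

theorem elemSummable (P : Par) : Summable P.w := by
  refine (_root_.summable_nat_add_iff (f := P.w) 1).1 ?_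
  have h1 : Summable fun j : ℕ => (Real.log (1 / P.q) + Real.log 3) *
      (((j + 1 : ℕ) : ℝ) / Real.log (1 / P.r (j + 1))) :=
    ((_root_.summable_nat_add_iff 1).2 P.sum).mul_left _
  refine Summable.of_nonneg_of_le (fun j => ?_) (fun j => ?_) h1
  · have h2 := lpos P (j + 1) (by omega)
    unfold Par.w
    exact div_nonneg h2.1.le h2.2.2.le
  · have h2 := lpos P (j + 1) (by omega)
    unfold Par.w
    rw [← mul_div_assoc]
    refine div_le_div_of_nonneg_right ?_ h2.2.2.le
    unfold Par.h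
    have h3 := elemLog3
    have h4 : (1 : ℝ) ≤ ((j + 1 : ℕ) : ℝ) := by
      push_cast
      have : (0 : ℝ) ≤ (j : ℝ) := Nat.cast_nonneg j
      linarith
    nlinarith

/-- **Tail** -/
theorem tail : TailStmt := by
  intro P ε hε
  obtain ⟨s, hs⟩ := summable_iff_vanishing_norm.1 (elemSummable P) ε hε
  refine ⟨s.sup id, fun k hk l => ?_⟩
  have hd : Disjoint (Finset.Ioc k l) s := by
    rw [Finset.disjoint_left]
    intro i hi his
    have h1 : i ≤ s.sup id := Finset.le_sup (f := id) his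
    have h2 := (Finset.mem_Ioc.1 hi).1
    omega
  have h3 := hs _ hd
  exact (le_abs_self _).trans (by rw [Real.norm_eq_abs] at h3; exact h3.le)

/-- **GoodEx** -/
theorem goodEx : GoodExStmt := by
  intro P
  have hq0 := P.q0
  have hq1 := P.q1
  have hB : 0 < Real.log (4 / (1 - P.q)) := by
    refine Real.log_pos ?_
    rw [one_lt_div (by linarith)]
    linarith
  have hlq := elemLogq P
  have hA : 0 < Real.log (1 / P.q) + Real.log (4 / (1 - P.q)) := by linarith
  obtain ⟨j0, hj0⟩ := eventually_atTop.1 (P.sum.tendsto_atTop_zero.eventually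
    (ge_mem_nhds (show (0 : ℝ) < 1 / (Real.log (1 / P.q) + Real.log (4 / (1 - P.q))) from
      one_div_pos.2 hA)))
  -- the discs are small for `j ≥ j0`
  have hsmall : ∀ j, 1 ≤ j → j0 ≤ j → P.r j ≤ (1 - P.q) / 4 * P.q ^ j := by
    intro j h1 hj
    have h2 := hj0 j hj
    obtain ⟨_, _, hL⟩ := lpos P j h1
    have hL' : (0 : ℝ) < Real.log (1 / P.r j) := hL
    have hj' : (1 : ℝ) ≤ (j : ℝ) := by exact_mod_cast h1
    have h3 : (j : ℝ) * (Real.log (1 / P.q) + Real.log (4 / (1 - P.q))) ≤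
        Real.log (1 / P.r j) := by
      have h4 : (j : ℝ) / Real.log (1 / P.r j) ≤
        1 / (Real.log (1 / P.q) + Real.log (4 / (1 - P.q))) := h2
      rw [div_le_div_iff₀ hL' hA] at h4
      linarith
    have h5 : Real.log (1 / (((1 - P.q) / 4) * P.q ^ j)) ≤ Real.log (1 / P.r j) := by
      refine le_trans ?_ h3
      have h6 : 1 / (((1 - P.q) / 4) * P.q ^ j) = (1 / P.q) ^ j * (4 / (1 - P.q)) := by
        have : 1 - P.q ≠ 0 := by linarith
        rw [one_div_pow]
        field_simp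
      rw [h6, Real.log_mul (pow_ne_zero _ (one_div_pos.2 hq0).ne')
        (div_pos (by norm_num) (by linarith)).ne', Real.log_pow, mul_add]
      have : Real.log (4 / (1 - P.q)) ≤ (j : ℝ) * Real.log (4 / (1 - P.q)) := by nlinarith
      linarith
    have hpos : 0 < (1 - P.q) / 4 * P.q ^ j :=
      mul_pos (div_pos (by linarith) (by norm_num)) (pow_pos hq0 j)
    have h7 := (Real.log_le_log_iff (one_div_pos.2 hpos) (one_div_pos.2 (P.r0 j h1))).1 h5
    exact (one_div_le_one_div hpos (P.r0 j h1)).1 h7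
  -- `ρ_k → 0`
  have hρ : Tendsto (fun k => P.ρ k) atTop (𝓝 0) := by
    have h1 := (tendsto_pow_atTop_nhds_zero_of_lt_one hq0.le hq1).mul_const ((1 + P.q) / 2)
    rw [zero_mul] at h1
    exact h1
  have hfin : ∀ᶠ k in atTop, ∀ j ∈ Finset.Icc 1 j0, P.ρ k + P.r j < P.q ^ j := by
    rw [Filter.eventually_all_finset]
    intro j hj
    have h1 := P.r1 j (Finset.mem_Icc.1 hj).1
    have h2 := hρ.eventually (gt_mem_nhds (show (0 : ℝ) < P.q ^ j - P.r j by linarith))
    filter_upwards [h2] with k hk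
    linarith
  obtain ⟨k1, hk1⟩ := eventually_atTop.1 hfin
  refine ⟨max (max k1 j0) 1, fun k hk => ?_⟩
  have hka : k1 ≤ k := le_trans (le_trans (le_max_left _ _) (le_max_left _ _)) hk
  have hkb : j0 ≤ k := le_trans (le_trans (le_max_right _ _) (le_max_left _ _)) hk
  have hkc : 1 ≤ k := le_trans (le_max_right _ _) hk
  refine ⟨hkc, fun j hj => hsmall j (by omega) (by omega), fun j hj1 hjk => ?_⟩
  by_cases hj : j ≤ j0
  · exact hk1 k hka j (Finset.mem_Icc.2 ⟨hj1, hj⟩)
  · have h1 := hsmall j hj1 (by omega)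
    have h2 : P.q ^ k ≤ P.q ^ j := pow_le_pow_of_le_one hq0.le hq1.le hjk
    have h3 : 0 < P.q ^ j := pow_pos hq0 j
    have h4 : P.ρ k ≤ P.q ^ j * ((1 + P.q) / 2) := by
      unfold Par.ρ
      exact mul_le_mul_of_nonneg_right h2 (by linarith)
    have h5 : P.q ^ j * ((1 + P.q) / 2) + (1 - P.q) / 4 * P.q ^ j < P.q ^ j := by
      nlinarith
    linarith

end Pool.Agent.Lib.MP_413903_an
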