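import Pool.Agent.Lib.MP_413903_an.Spec

/-!
# MP_413903_an, module Exh: exhaustion of `D` by compact sets
-/

set_option autoImplicit false

namespace Pool.Agent.Lib.MP_413903_an

open Complex Set Filter Topology OnePoint NNReal TopologicalSpace

/-- The open sets `{infDist < 1/(j+1)}`. -/
def Exh_U (A : Set ℂ) (j : ℕ) : Set ℂ := {z | Metric.infDist z A < 1 / ((j : ℝ) + 1)}

theorem Exh_U_open (A : Set ℂ) (j : ℕ) : IsOpen (Exh_U A j) :=
  isOpen_lt (Metric.continuous_infDist_pt A) continuous_const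

theorem Exh_sub_U (A : Set ℂ) (j : ℕ) : A ⊆ Exh_U A j := by
  intro z hz
  show Metric.infDist z A < 1 / ((j : ℝ) + 1)
  rw [Metric.infDist_zero_of_mem hz]
  positivity

theorem Exh_U_anti (A : Set ℂ) (j : ℕ) : Exh_U A (j + 1) ⊆ Exh_U A j := by
  intro z hz
  have h1 : Metric.infDist z A < 1 / (((j + 1 : ℕ) : ℝ) + 1) := hz
  show Metric.infDist z A < 1 / ((j : ℝ) + 1)
  refine h1.trans_le ?_
  push_cast
  exact one_div_le_one_div_of_le (by positivity) (by linarith)

/-- The compact sets. -/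
def Exh_K (P : Par) (j : ℕ) : Compacts P.D where
  carrier := {p | (p : OnePoint ℂ) ∉ (fun z : ℂ => (z : OnePoint ℂ)) '' Exh_U (Removed P.q P.r) j}
  isCompact' := by
    rw [Topology.IsEmbedding.subtypeVal.isCompact_iff]
    have h1 : (Subtype.val '' {p : P.D |
        (p : OnePoint ℂ) ∉ (fun z : ℂ => (z : OnePoint ℂ)) '' Exh_U (Removed P.q P.r) j}) =
        ((fun z : ℂ => (z : OnePoint ℂ)) '' Exh_U (Removed P.q P.r) j)ᶜ := by
      ext p
      constructor
      · rintro ⟨p, hp, rfl⟩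
        exact hp
      · intro hp
        have hpD : p ∈ P.D := fun h => hp (image_mono (Exh_sub_U _ j) h)
        exact ⟨⟨p, hpD⟩, hp, rfl⟩
    rw [h1]
    exact ((OnePoint.isOpen_image_coe.2 (Exh_U_open _ j)).isClosed_compl).isCompact

theorem exh : ExhStmt := by
  intro P
  refine ⟨Exh_K P, fun j p hp h => hp (image_mono (Exh_U_anti _ j) h), fun L => ?_⟩
  have hne : (Removed P.q P.r).Nonempty := ⟨0, Or.inl rfl⟩
  have hcomp : IsCompact (Removed P.q P.r) := removed_compact P.q0 P.q1 P.r1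
  have h1 : IsCompact ((fun p : P.D => (p : OnePoint ℂ)) '' (L : Set P.D)) :=
    L.isCompact.image continuous_subtype_val
  have h2 : IsClosed ((fun z : ℂ => (z : OnePoint ℂ)) ⁻¹'
      ((fun p : P.D => (p : OnePoint ℂ)) '' (L : Set P.D))) :=
    h1.isClosed.preimage OnePoint.continuous_coe
  have h3 : Disjoint (Removed P.q P.r) ((fun z : ℂ => (z : OnePoint ℂ)) ⁻¹'
      ((fun p : P.D => (p : OnePoint ℂ)) '' (L : Set P.D))) := by
    rw [Set.disjoint_left]
    rintro z hz ⟨p, _, hp⟩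
    have hp' : (p : OnePoint ℂ) = (z : OnePoint ℂ) := hp
    exact p.2 ⟨z, hz, hp'.symm⟩
  obtain ⟨δ, hδ, hd⟩ := h3.exists_thickenings hcomp h2
  obtain ⟨j, hj⟩ := exists_nat_one_div_lt hδ
  refine ⟨j, fun p hp h => ?_⟩
  obtain ⟨z, hz, hzp⟩ := h
  have h4 : Metric.infDist z (Removed P.q P.r) < δ := lt_trans hz hj
  have h5 : z ∈ Metric.thickening δ (Removed P.q P.r) := by
    obtain ⟨y, hy, hzy⟩ := (Metric.infDist_lt_iff hne).1 h4
    exact Metric.mem_thickening_iff.2 ⟨y, hy, hzy⟩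
  have h6 : z ∈ Metric.thickening δ ((fun z : ℂ => (z : OnePoint ℂ)) ⁻¹'
      ((fun p : P.D => (p : OnePoint ℂ)) '' (L : Set P.D))) := by
    refine Metric.self_subset_thickening hδ _ ?_
    exact ⟨p, hp, hzp.symm⟩
  exact Set.disjoint_left.1 hd h5 h6

end Pool.Agent.Lib.MP_413903_an
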