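import Pool.Agent.Lib.MP_413903_an.Spec

/-!
# MP_413903_an: geometry of the region (RegSub, Circ, AnnSub)
-/

set_option autoImplicit false

namespace Pool.Agent.Lib.MP_413903_an

open Complex Set Filter Topology OnePoint NNReal TopologicalSpace

theorem Geo_norm_c (P : Par) (k : ℕ) : ‖P.c k‖ = P.q ^ k := by
  unfold Par.c
  rw [norm_pow, Complex.norm_real, Real.norm_of_nonneg P.q0.le]

theorem Geo_rho_pos (P : Par) (l : ℕ) : 0 < P.ρ l := by
  have h1 := pow_pos P.q0 l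
  have h2 := P.q0
  unfold Par.ρ
  positivity

theorem Geo_pow_anti (P : Par) {k l : ℕ} (h : k ≤ l) : P.q ^ l ≤ P.q ^ k :=
  pow_le_pow_of_le_one P.q0.le P.q1.le h

theorem Geo_pow_lt (P : Par) {k l : ℕ} (h : k < l) : P.q ^ l ≤ P.q * P.q ^ k := by
  have h1 := Geo_pow_anti P (show k + 1 ≤ l from h)
  rwa [pow_succ, mul_comm] at h1

theorem Geo_rho_anti (P : Par) {k l : ℕ} (h : k ≤ l) : P.ρ l ≤ P.ρ k := by
  unfold Par.ρ
  exact mul_le_mul_of_nonneg_right (Geo_pow_anti P h) (by linarith [P.q0])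

theorem Geo_sub_ge (P : Par) (z : ℂ) (k : ℕ) : ‖z‖ - P.q ^ k ≤ ‖z - P.c k‖ := by
  have := norm_sub_norm_le z (P.c k)
  rwa [Geo_norm_c] at this

theorem Geo_sub_ge' (P : Par) (z : ℂ) (k : ℕ) : P.q ^ k - ‖z‖ ≤ ‖z - P.c k‖ := by
  have := norm_sub_norm_le (P.c k) z
  rwa [Geo_norm_c, norm_sub_rev] at this

theorem Geo_r_pos (P : Par) {k1 j : ℕ} (h : k1 < j) : 0 < P.r j := P.r0 j (by omega)

theorem Geo_c_real (P : Par) (k : ℕ) : P.c k = ((P.q ^ k : ℝ) : ℂ) := by
  unfold Par.c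
  push_cast
  rfl

/-- distance of two centres -/
theorem Geo_dist_c (P : Par) {k j : ℕ} (h : k < j) :
    P.q ^ k * (1 - P.q) ≤ ‖P.c k - P.c j‖ := by
  rw [Geo_c_real, Geo_c_real, ← Complex.ofReal_sub, Complex.norm_real, Real.norm_eq_abs]
  refine le_trans ?_ (le_abs_self _)
  have := Geo_pow_lt P h
  linarith

theorem regSub : RegSubStmt := by
  rintro P k1 l ⟨_, hG2, hG3⟩ _ z ⟨hz1, hz2, hz3⟩
  show (z : OnePoint ℂ) ∈ Dom P.q P.r
  rw [coe_mem_dom]
  have hq0 := P.q0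
  have hq1 := P.q1
  rintro (h | ⟨j, hj, h⟩)
  · rw [h, norm_zero] at hz1
    linarith [Geo_rho_pos P l]
  · have h' : ‖z - P.c j‖ ≤ P.r j := h
    rcases le_or_gt j k1 with h1 | h1
    · have h2 := hG3 j hj h1
      have h3 := Geo_sub_ge' P z j
      linarith
    · have hr := Geo_r_pos P h1
      rcases le_or_gt j l with h2 | h2
      · have h3 := hz3 j (Finset.mem_Ioc.2 ⟨h1, h2⟩)
        have h4 : ‖z - P.c j‖ ^ 2 ≤ P.r j ^ 2 := pow_le_pow_left₀ (norm_nonneg _) h' 2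
        have h5 : 0 < P.r j ^ 2 := by positivity
        linarith
      · have h3 := Geo_sub_ge P z j
        have h4 := Geo_pow_lt P h2
        have h5 : P.ρ l = P.q ^ l * ((1 + P.q) / 2) := rfl
        have h6 := hG2 j h1
        have h7 := pow_pos hq0 l
        have h8 := pow_pos hq0 j
        have h9 : P.q ^ j ≤ P.q ^ l := Geo_pow_anti P h2.le
        have h10 : (1 - P.q) / 4 * P.q ^ j ≤ (1 - P.q) / 4 * P.q ^ l :=
          mul_le_mul_of_nonneg_left h9 (by linarith)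
        have h11 : 0 < (1 - P.q) * P.q ^ l := mul_pos (by linarith) h7
        nlinarith

theorem Geo_sq (a b : ℝ) (ha : 0 ≤ a) (h : 2 * a ≤ b) : 3 * a ^ 2 ≤ b ^ 2 := by
  nlinarith

theorem circ : CircStmt := by
  rintro P k1 l ⟨_, hG2, hG3⟩ hkl z hz
  have hq0 := P.q0
  have hq1 := P.q1
  have hanti := Geo_rho_anti P hkl
  refine ⟨?_, ?_, ?_⟩
  · rcases hz with h | h <;> rw [h]
    exact hanti
  · rcases hz with h | h <;> rw [h]
    exact hanti
  · intro k hk
    obtain ⟨hk1, hk2⟩ := Finset.mem_Ioc.1 hk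
    have hr := Geo_r_pos P hk1
    have h6 := hG2 k hk1
    refine Geo_sq _ _ hr.le ?_
    have h8 := pow_pos hq0 k
    rcases hz with h | h
    · have h3 := Geo_sub_ge P z k
      have h4 := Geo_pow_lt P hk1
      have h5 : P.ρ k1 = P.q ^ k1 * ((1 + P.q) / 2) := rfl
      have h9 : P.q ^ k ≤ P.q ^ k1 := Geo_pow_anti P hk1.le
      have h10 : (1 - P.q) / 4 * P.q ^ k ≤ (1 - P.q) / 4 * P.q ^ k1 :=
        mul_le_mul_of_nonneg_left h9 (by linarith)
      rw [h, h5] at h3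
      nlinarith
    · have h3 := Geo_sub_ge' P z k
      have h5 : P.ρ k = P.q ^ k * ((1 + P.q) / 2) := rfl
      have h7 := Geo_rho_anti P hk2
      rw [h] at h3
      nlinarith

theorem annSub : AnnSubStmt := by
  rintro P k1 l k ⟨_, hG2, hG3⟩ hkl hk z ⟨hz1, hz2⟩
  have hq0 := P.q0
  have hq1 := P.q1
  obtain ⟨hk1, hk2⟩ := Finset.mem_Ioc.1 hk
  have hr := Geo_r_pos P hk1
  have h6 := hG2 k hk1
  have h8 := pow_pos hq0 k
  -- distance to the centre
  have hd : ‖z - P.c k‖ ≤ 2 * P.r k := by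
    refine abs_le_of_sq_le_sq' ?_ (by positivity) |>.2
    nlinarith [sq_nonneg (P.r k)]
  have hu : ‖z‖ ≤ P.q ^ k + 2 * P.r k := by
    have := Geo_sub_ge P z k
    linarith
  have hl : P.q ^ k - 2 * P.r k ≤ ‖z‖ := by
    have := Geo_sub_ge' P z k
    linarith
  refine ⟨?_, ?_, ?_⟩
  · have h5 : P.ρ k = P.q ^ k * ((1 + P.q) / 2) := rfl
    have h7 := Geo_rho_anti P hk2
    nlinarith
  · have h4 := Geo_pow_lt P hk1
    have h5 : P.ρ k1 = P.q ^ k1 * ((1 + P.q) / 2) := rfl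
    have h9 := pow_pos hq0 k1
    have h10 : ‖z‖ ≤ P.q ^ k * ((3 - P.q) / 2) := by linarith
    have h11 : P.q ^ k * ((3 - P.q) / 2) ≤ P.q * P.q ^ k1 * ((3 - P.q) / 2) :=
      mul_le_mul_of_nonneg_right h4 (by linarith)
    have h12 : P.q * P.q ^ k1 * ((3 - P.q) / 2) ≤ P.q ^ k1 * ((1 + P.q) / 2) := by
      have : P.q * ((3 - P.q) / 2) ≤ (1 + P.q) / 2 := by nlinarith [sq_nonneg (1 - P.q)]
      calc P.q * P.q ^ k1 * ((3 - P.q) / 2) = P.q ^ k1 * (P.q * ((3 - P.q) / 2)) := by ring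
        _ ≤ _ := mul_le_mul_of_nonneg_left this h9.le
    rw [h5]
    linarith
  · intro j hj
    obtain ⟨hj1, hj2⟩ := Finset.mem_Ioc.1 hj
    have hrj := Geo_r_pos P hj1
    have h6j := hG2 j hj1
    have h8j := pow_pos hq0 j
    by_cases hjk : j = k
    · subst hjk
      exact hz1
    · have h2 : 2 * P.r j ≤ ‖z - P.c j‖ := by
        have ht : ‖P.c k - P.c j‖ ≤ ‖z - P.c k‖ + ‖z - P.c j‖ := by
          have := norm_sub_le (z - P.c j) (z - P.c k)
          have e : z - P.c j - (z - P.c k) = P.c k - P.c j := by ring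
          rw [e] at this
          linarith
        rcases lt_or_gt_of_ne hjk with h | h
        · have h3 := Geo_dist_c P h
          rw [norm_sub_rev] at h3
          have h9 : P.q ^ k ≤ P.q ^ j := Geo_pow_anti P h.le
          have h10 : (1 - P.q) / 4 * P.q ^ k ≤ (1 - P.q) / 4 * P.q ^ j :=
            mul_le_mul_of_nonneg_left h9 (by linarith)
          nlinarith
        · have h3 := Geo_dist_c P h
          have h9 : P.q ^ j ≤ P.q ^ k := Geo_pow_anti P h.le
          have h10 : (1 - P.q) / 4 * P.q ^ j ≤ (1 - P.q) / 4 * P.q ^ k :=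
            mul_le_mul_of_nonneg_left h9 (by linarith)
          nlinarith
      have h3 := Geo_sq _ _ hrj.le h2
      nlinarith [sq_nonneg (P.r j)]

end Pool.Agent.Lib.MP_413903_an
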