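import Pool.Agent.Lib.MP_413903_an.Spec

/-!
# MP_413903_an: KDec, from a factorization through a Koethe space to a decomposition
-/

set_option autoImplicit false

namespace Pool.Agent.Lib.MP_413903_an

open Complex Set Filter Topology OnePoint NNReal TopologicalSpace

theorem KDec_ws {ι : Type} (A : ι → ℕ → ℝ≥0) :
    WithSeminorms (𝕜 := ℂ) (koetheNorm A) := ⟨rfl⟩

theorem KDec_norm {ι : Type} (A : ι → ℕ → ℝ≥0) (k : ℕ) (x : Koethe A) :
    koetheNorm A k x = ∑' n, ‖x.1 n‖ * (A n k : ℝ) := rfl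

theorem KDec_summ {ι : Type} (A : ι → ℕ → ℝ≥0) (k : ℕ) (x : Koethe A) :
    Summable fun n => ‖x.1 n‖ * (A n k : ℝ) := x.2 k

open Classical in
/-- unit vector -/
noncomputable def KDec_e {ι : Type} (A : ι → ℕ → ℝ≥0) (i : ι) : Koethe A :=
  ⟨Pi.single i 1, fun k => summable_of_ne_finset_zero (s := {i}) (fun n hn => by
    have : n ≠ i := by simpa using hn
    simp [Pi.single_eq_of_ne this])⟩

/-- coordinate functional -/
noncomputable def KDec_co {ι : Type} (A : ι → ℕ → ℝ≥0) (i : ι) : Koethe A →ₗ[ℂ] ℂ where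
  toFun x := x.1 i
  map_add' _ _ := rfl
  map_smul' _ _ := rfl

open Classical in
theorem KDec_norm_e {ι : Type} (A : ι → ℕ → ℝ≥0) (k : ℕ) (i : ι) :
    koetheNorm A k (KDec_e A i) = A i k := by
  rw [KDec_norm, tsum_eq_single i]
  · simp [KDec_e]
  · intro n hn
    simp [KDec_e, Pi.single_eq_of_ne hn]

open Classical in
theorem KDec_part {ι : Type} (A : ι → ℕ → ℝ≥0) (x : Koethe A) (t : Finset ι) (n : ι) :
    (∑ i ∈ t, KDec_co A i x • KDec_e A i).1 n = if n ∈ t then x.1 n else 0 := by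
  have h1 : (∑ i ∈ t, KDec_co A i x • KDec_e A i).1 n
      = KDec_co A n (∑ i ∈ t, KDec_co A i x • KDec_e A i) := rfl
  rw [h1, map_sum]
  have h2 : ∀ i ∈ t, KDec_co A n (KDec_co A i x • KDec_e A i) = if n = i then x.1 n else 0 := by
    intro i _
    rw [LinearMap.map_smul]
    show x.1 i * (Pi.single i (1 : ℂ) : ι → ℂ) n = _
    by_cases h : n = i
    · subst h
      simp
    · simp [h]
  rw [Finset.sum_congr rfl h2]
  simp

open Classical in
theorem KDec_hasSum {ι : Type} (A : ι → ℕ → ℝ≥0) (x : Koethe A) :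
    HasSum (fun i => KDec_co A i x • KDec_e A i) x := by
  show Tendsto (fun t : Finset ι => ∑ i ∈ t, KDec_co A i x • KDec_e A i) atTop (𝓝 x)
  rw [(KDec_ws A).tendsto_nhds]
  intro k ε hε
  have hs := KDec_summ A k x
  have key : ∀ t : Finset ι, koetheNorm A k ((∑ i ∈ t, KDec_co A i x • KDec_e A i) - x)
      = (∑' n, ‖x.1 n‖ * (A n k : ℝ)) - ∑ n ∈ t, ‖x.1 n‖ * (A n k : ℝ) := by
    intro t
    have h1 : HasSum (fun n => if n ∈ t then ‖x.1 n‖ * (A n k : ℝ) else 0)
        (∑ n ∈ t, ‖x.1 n‖ * (A n k : ℝ)) := by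
      have := hasSum_sum_of_ne_finset_zero (f := fun n => if n ∈ t then ‖x.1 n‖ * (A n k : ℝ) else 0)
        (s := t) (L := SummationFilter.unconditional ι) (fun n hn => by simp [hn])
      rwa [Finset.sum_congr rfl (fun n hn => if_pos hn)] at this
    have h2 := hs.hasSum.sub h1
    rw [← h2.tsum_eq, KDec_norm]
    refine tsum_congr fun n => ?_
    have h3 : ((∑ i ∈ t, KDec_co A i x • KDec_e A i) - x).1 n
        = (∑ i ∈ t, KDec_co A i x • KDec_e A i).1 n - x.1 n := rfl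
    rw [h3, KDec_part]
    by_cases h : n ∈ t
    · simp [h]
    · simp [h]
  have h4 : Tendsto (fun t : Finset ι => (∑' n, ‖x.1 n‖ * (A n k : ℝ))
      - ∑ n ∈ t, ‖x.1 n‖ * (A n k : ℝ)) atTop (𝓝 0) := by
    have := (tendsto_const_nhds (x := ∑' n, ‖x.1 n‖ * (A n k : ℝ))).sub hs.hasSum
    rwa [sub_self] at this
  filter_upwards [h4.eventually (gt_mem_nhds hε)] with t ht
  rw [key t]
  exact ht

/-- the seminorm `nrm K` on `O(D)` -/
noncomputable def KDec_sn {D : Set (OnePoint ℂ)} (K : Compacts D) : Seminorm ℂ (OO D) :=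
  Seminorm.of (fun f => nrm K (f : C(D, ℂ))) (fun _ _ => nrm_add K _ _)
    (fun c _ => nrm_smul K c _)

theorem KDec_sn_apply {D : Set (OnePoint ℂ)} (K : Compacts D) (f : OO D) :
    KDec_sn K f = nrm K (f : C(D, ℂ)) := rfl

/-- homogeneity: from small balls to a linear bound -/
theorem KDec_scale {E : Type} [AddCommGroup E] [Module ℂ E] (p q : Seminorm ℂ E) (ε : ℝ)
    (hε : 0 < ε) (h : ∀ x, p x < ε → q x < 1) (x : E) : q x ≤ 2 / ε * p x := by
  refine le_of_forall_pos_le_add fun δ hδ => ?_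
  have hp : 0 ≤ p x := apply_nonneg p x
  set y : ℝ := p x + δ * ε / 2 with hy
  have hy0 : 0 < y := by positivity
  set a : ℝ := ε / (2 * y) with ha
  have ha0 : 0 < a := by positivity
  have hna : ‖(a : ℂ)‖ = a := by
    rw [Complex.norm_real, Real.norm_of_nonneg ha0.le]
  have h1 : p ((a : ℂ) • x) < ε := by
    rw [map_smul_eq_mul, hna, ha, div_mul_eq_mul_div, div_lt_iff₀ (by positivity)]
    have h2 : p x < 2 * y := by
      have : 0 < δ * ε / 2 := by positivity
      linarith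
    nlinarith
  have h2 := h _ h1
  rw [map_smul_eq_mul, hna, ha, div_mul_eq_mul_div, div_lt_one (by positivity)] at h2
  have h3 : q x < 2 * y / ε := by
    rw [lt_div_iff₀ hε]
    linarith
  have h4 : 2 * y / ε = 2 / ε * p x + δ := by
    rw [hy]
    field_simp
  linarith

theorem KDec_R (h : NhStmt) {D : Set (OnePoint ℂ)} {ι : Type} (A : ι → ℕ → ℝ≥0)
    (R : Koethe A →L[ℂ] OO D) (K : Compacts D) :
    ∃ (s : Finset ℕ) (C : ℝ), 0 ≤ C ∧ ∀ x, nrm K (R x : C(D, ℂ)) ≤
      C * ∑ k ∈ s, koetheNorm A k x := by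
  have hc : Continuous ((KDec_sn K).comp (R : Koethe A →ₗ[ℂ] OO D)) := by
    have : IsTopologicalAddGroup (Koethe A) := (KDec_ws A).topologicalAddGroup
    have : ContinuousSMul ℂ (Koethe A) := (KDec_ws A).continuousSMul
    refine Seminorm.continuous (r := 1) ?_
    have h1 := (h D).2.1 K 1 one_pos
    have h2 : Tendsto R (𝓝 0) (𝓝 0) := by
      have := R.continuous.tendsto 0
      rwa [map_zero] at this
    have h3 := h2 h1
    refine mem_of_superset h3 ?_
    intro x hx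
    rw [Seminorm.mem_ball_zero]
    exact hx
  obtain ⟨s, C, _, hC⟩ := Seminorm.bound_of_continuous (KDec_ws A) _ hc
  refine ⟨s, C, C.2, fun x => ?_⟩
  have h1 := hC x
  have h2 : (C • s.sup (koetheNorm A)) x = (C : ℝ) * (s.sup (koetheNorm A)) x := rfl
  rw [h2] at h1
  have h3 : (s.sup (koetheNorm A)) x ≤ (∑ k ∈ s, koetheNorm A k) x :=
    Seminorm.finset_sup_le_sum (koetheNorm A) s x
  have h4 : (∑ k ∈ s, koetheNorm A k) x = ∑ k ∈ s, koetheNorm A k x := by
    change FunLike.coeAddMonoidHom _ _ _ (∑ k ∈ s, koetheNorm A k) x = _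
    simp_rw [map_sum, Finset.sum_apply]
    rfl
  rw [h4] at h3
  exact h1.trans (mul_le_mul_of_nonneg_left h3 C.2)

theorem KDec_S (h : NhStmt) {D : Set (OnePoint ℂ)} {ι : Type} (A : ι → ℕ → ℝ≥0)
    (S : OO D →L[ℂ] Koethe A) (k : ℕ) :
    ∃ (K : Compacts D) (C : ℝ), 0 ≤ C ∧ ∀ f : OO D, koetheNorm A k (S f) ≤
      C * nrm K (f : C(D, ℂ)) := by
  have hk : Continuous (koetheNorm A k) := (KDec_ws A).continuous_seminorm k
  have hU : {f : OO D | koetheNorm A k (S f) < 1} ∈ 𝓝 (0 : OO D) := by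
    have h1 : Continuous fun f : OO D => koetheNorm A k (S f) := hk.comp S.continuous
    have h2 : Tendsto (fun f : OO D => koetheNorm A k (S f)) (𝓝 0) (𝓝 0) := by
      have := h1.tendsto 0
      simpa using this
    exact h2.eventually (gt_mem_nhds (one_pos (α := ℝ)))
  obtain ⟨K, ε, hε, hK⟩ := (h D).1 _ hU
  refine ⟨K, 2 / ε, by positivity, fun f => ?_⟩
  exact KDec_scale (E := OO D) (KDec_sn K) ((koetheNorm A k).comp (S : OO D →ₗ[ℂ] Koethe A)) ε hε
    (fun g hg => hK g hg) f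

theorem KDec_Ssum (h : NhStmt) {D : Set (OnePoint ℂ)} {ι : Type} (A : ι → ℕ → ℝ≥0)
    (S : OO D →L[ℂ] Koethe A) (s : Finset ℕ) :
    ∃ (K : Compacts D) (C : ℝ), 0 ≤ C ∧ ∀ f : OO D, ∑ k ∈ s, koetheNorm A k (S f) ≤
      C * nrm K (f : C(D, ℂ)) := by
  classical
  induction s using Finset.induction_on with
  | empty => exact ⟨⊥, 0, le_rfl, fun f => by simp⟩
  | insert a s ha ih =>
    obtain ⟨K1, C1, hC1, h1⟩ := ih
    obtain ⟨K2, C2, hC2, h2⟩ := KDec_S h A S a
    refine ⟨K1 ⊔ K2, C1 + C2, by positivity, fun f => ?_⟩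
    rw [Finset.sum_insert ha]
    have m1 : nrm K1 (f : C(D, ℂ)) ≤ nrm (K1 ⊔ K2) (f : C(D, ℂ)) := by
      refine nrm_mono ?_ _
      intro x hx
      rw [Compacts.coe_sup]
      exact Or.inl hx
    have m2 : nrm K2 (f : C(D, ℂ)) ≤ nrm (K1 ⊔ K2) (f : C(D, ℂ)) := by
      refine nrm_mono ?_ _
      intro x hx
      rw [Compacts.coe_sup]
      exact Or.inr hx
    have e1 := (h1 f).trans (mul_le_mul_of_nonneg_left m1 hC1)
    have e2 := (h2 f).trans (mul_le_mul_of_nonneg_left m2 hC2)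
    rw [add_mul]
    linarith

theorem kDec (h : NhStmt) : KDecStmt := by
  intro D ι A S R hRS
  refine ⟨fun i => R (KDec_e A i), fun i => (KDec_co A i).comp (S : OO D →ₗ[ℂ] Koethe A), ?_, ?_⟩
  · intro K
    obtain ⟨s, C, hC, hR⟩ := KDec_R h A R K
    obtain ⟨K', C', hC', hS⟩ := KDec_Ssum h A S s
    refine ⟨K', C * C', by positivity, fun f => ?_⟩
    have hle : ∀ i, ‖((KDec_co A i).comp (S : OO D →ₗ[ℂ] Koethe A)) f‖ *
        nrm K (R (KDec_e A i) : C(D, ℂ)) ≤ C * ∑ k ∈ s, ‖(S f).1 i‖ * (A i k : ℝ) := by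
      intro i
      have h1 := hR (KDec_e A i)
      simp only [KDec_norm_e] at h1
      calc _ ≤ ‖(S f).1 i‖ * (C * ∑ k ∈ s, (A i k : ℝ)) :=
            mul_le_mul_of_nonneg_left h1 (norm_nonneg _)
        _ = _ := by
            rw [← Finset.mul_sum]
            ring
    have hsum : Summable fun i => C * ∑ k ∈ s, ‖(S f).1 i‖ * (A i k : ℝ) := by
      refine Summable.mul_left _ ?_
      exact summable_sum fun k _ => KDec_summ A k (S f)
    have hs1 : Summable fun i => ‖((KDec_co A i).comp (S : OO D →ₗ[ℂ] Koethe A)) f‖ *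
        nrm K (R (KDec_e A i) : C(D, ℂ)) :=
      Summable.of_nonneg_of_le (fun i => mul_nonneg (norm_nonneg _) (nrm_nonneg _ _)) hle hsum
    refine ⟨hs1, ?_⟩
    refine (hs1.tsum_le_tsum hle hsum).trans ?_
    have e1 : ∑' i, C * ∑ k ∈ s, ‖(S f).1 i‖ * (A i k : ℝ)
        = C * ∑' i, ∑ k ∈ s, ‖(S f).1 i‖ * (A i k : ℝ) := tsum_mul_left
    have e2 : ∑' i, ∑ k ∈ s, ‖(S f).1 i‖ * (A i k : ℝ) = ∑ k ∈ s, koetheNorm A k (S f) :=
      Summable.tsum_finsetSum (fun k _ => KDec_summ A k (S f))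
    refine e1.le.trans ?_
    refine (congrArg (fun x => C * x) e2).le.trans ?_
    rw [mul_assoc]
    exact mul_le_mul_of_nonneg_left (hS f) hC
  · intro f p
    have h1 := KDec_hasSum A (S f)
    have h2 := h1.mapL R
    rw [hRS f] at h2
    let ev : OO D →+ ℂ :=
      { toFun := fun g => (g : C(D, ℂ)) p, map_zero' := rfl, map_add' := fun _ _ => rfl }
    have hev : Continuous ev :=
      (continuous_eval_const p).comp continuous_subtype_val
    have h3 := h2.map ev hev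
    refine h3.congr_fun ?_
    intro i
    show _ = ev (R (KDec_co A i (S f) • KDec_e A i))
    rw [ContinuousLinearMap.map_smul]
    rfl

end Pool.Agent.Lib.MP_413903_an
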