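import Pool.Agent.Lib.MP_413903_an.Spec

set_option autoImplicit false

namespace Pool.Agent.Lib.MP_413903_an

open Complex Set Filter Topology OnePoint NNReal TopologicalSpace

theorem loc_circ {D : Set (OnePoint ℂ)} (φ : ℂ → OnePoint ℂ) (a : ℂ) (R : ℝ) (hR : 0 < R)
    (han : ∀ f : OO D, ∀ w ∈ Metric.closedBall a R,
      AnalyticAt ℂ (fun w => ext (f : C(D, ℂ)) (φ w)) w) (f : OO D) (i : ℕ) :
    CircleIntegrable (fun w => (w - a)⁻¹ ^ (i + 1) * ext (f : C(D, ℂ)) (φ w)) a R := by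
  refine ContinuousOn.circleIntegrable hR.le ?_
  intro w hw
  have hw1 : w - a ≠ 0 := by
    intro h
    rw [mem_sphere_iff_norm, h, norm_zero] at hw
    exact hR.ne hw
  have h1 : ContinuousAt (fun w : ℂ => (w - a)⁻¹ ^ (i + 1)) w :=
    ((continuousAt_id.sub continuousAt_const).inv₀ hw1).pow _
  exact (h1.mul (han f w (Metric.sphere_subset_closedBall hw)).continuousAt).continuousWithinAt

/-- The functionals. -/
noncomputable def locFun {D : Set (OnePoint ℂ)} (φ : ℂ → OnePoint ℂ) (a : ℂ) (R : ℝ) (hR : 0 < R)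
    (han : ∀ f : OO D, ∀ w ∈ Metric.closedBall a R,
      AnalyticAt ℂ (fun w => ext (f : C(D, ℂ)) (φ w)) w) (i : ℕ) : OO D →ₗ[ℂ] ℂ where
  toFun f := ∮ w in C(a, R), (w - a)⁻¹ ^ (i + 1) * ext (f : C(D, ℂ)) (φ w)
  map_add' f g := by
    rw [← circleIntegral.integral_add (loc_circ φ a R hR han f i) (loc_circ φ a R hR han g i)]
    congr 1
    funext w
    have : ((f + g : OO D) : C(D, ℂ)) = (f : C(D, ℂ)) + (g : C(D, ℂ)) := rfl
    rw [this, ext_add]
    ring
  map_smul' c f := by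
    rw [RingHom.id_apply, smul_eq_mul, ← circleIntegral.integral_const_mul]
    congr 1
    funext w
    have : ((c • f : OO D) : C(D, ℂ)) = c • (f : C(D, ℂ)) := rfl
    rw [this, ext_smul]
    ring

theorem loc_gen (h : SchwStmt) {D : Set (OnePoint ℂ)} (p : D) (φ : ℂ → OnePoint ℂ)
    (hφ : Continuous φ) (a : ℂ) (R : ℝ) (hR : 0 < R)
    (hD : ∀ w ∈ Metric.closedBall a R, φ w ∈ D)
    (han : ∀ f : OO D, ∀ w ∈ Metric.closedBall a R,
      AnalyticAt ℂ (fun w => ext (f : C(D, ℂ)) (φ w)) w)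
    (hU : φ '' (Metric.closedBall a (R / 3)) ∈ 𝓝 (p : OnePoint ℂ)) :
    ∃ U ∈ 𝓝 p, ∃ W : Compacts D, ∀ M : ℕ, ∃ ℓ : Fin M → (OO D →ₗ[ℂ] ℂ), ∀ f : OO D,
      (∀ i, ℓ i f = 0) → ∀ x ∈ U, ‖(f : C(D, ℂ)) x‖ ≤ (1 / 2) ^ M * nrm W (f : C(D, ℂ)) := by
  refine ⟨(fun x : D => (x : OnePoint ℂ)) ⁻¹' (φ '' (Metric.closedBall a (R / 3))),
    continuous_subtype_val.continuousAt.preimage_mem_nhds hU,
    ⟨range (fun w : Metric.closedBall a R => (⟨φ w.1, hD w.1 w.2⟩ : D)), ?_⟩, fun M => ?_⟩
  · have := isCompact_iff_compactSpace.1 (isCompact_closedBall a R)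
    exact isCompact_range (Continuous.subtype_mk (hφ.comp continuous_subtype_val) _)
  refine ⟨fun i => locFun φ a R hR han i.1, fun f hf x hx => ?_⟩
  obtain ⟨w, hw, hwx⟩ := hx
  have hwR : w ∈ Metric.closedBall a R :=
    Metric.closedBall_subset_closedBall (by linarith) hw
  have h1 := h a R (nrm ⟨range (fun w : Metric.closedBall a R => (⟨φ w.1, hD w.1 w.2⟩ : D)), by
    have := isCompact_iff_compactSpace.1 (isCompact_closedBall a R)
    exact isCompact_range (Continuous.subtype_mk (hφ.comp continuous_subtype_val) _)⟩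
      (f : C(D, ℂ))) M (fun w => ext (f : C(D, ℂ)) (φ w)) hR (nrm_nonneg _ _) ?_ ?_ ?_ w hw
  · have h2 : ext (f : C(D, ℂ)) (φ w) = (f : C(D, ℂ)) x := by
      have h3 : φ w = (x : OnePoint ℂ) := hwx
      rw [h3, ext_of_mem _ x.2]
    rw [← h2]
    exact h1
  · refine DifferentiableOn.diffContOnCl ?_
    rw [closure_ball a hR.ne']
    intro w hw
    exact (han f w hw).differentiableAt.differentiableWithinAt
  · intro w hw
    rw [ext_of_mem _ (hD w hw)]
    exact le_nrm _ _ ⟨⟨w, hw⟩, rfl⟩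
  · intro i hi
    exact hf ⟨i, hi⟩

theorem loc_chart_zero : chartInf 0 = ∞ := by simp [chartInf]

theorem loc_chart_ne {w : ℂ} (hw : w ≠ 0) : chartInf w = ((w⁻¹ : ℂ) : OnePoint ℂ) := by
  simp [chartInf, hw]

theorem loc_chart_ev {w : ℂ} (hw : w ≠ 0) :
    (fun u : ℂ => ((u⁻¹ : ℂ) : OnePoint ℂ)) =ᶠ[𝓝 w] chartInf := by
  filter_upwards [isOpen_ne.mem_nhds hw] with u hu
  exact (loc_chart_ne hu).symm

theorem loc_chart_cont : Continuous chartInf := by
  rw [continuous_iff_continuousAt]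
  intro w
  by_cases hw : w = 0
  · subst hw
    have h1 : Tendsto (fun z : ℂ => (z : OnePoint ℂ)) (Bornology.cobounded ℂ)
        (𝓝 (∞ : OnePoint ℂ)) := by
      have := OnePoint.tendsto_coe_infty (X := ℂ)
      rwa [Filter.coclosedCompact_eq_cocompact, ← Metric.cobounded_eq_cocompact] at this
    rw [continuousAt_iff_punctured_nhds, loc_chart_zero]
    refine (h1.comp tendsto_inv₀_nhdsNE_zero).congr' ?_
    filter_upwards [self_mem_nhdsWithin] with u hu
    exact (loc_chart_ne hu).symm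
  · refine ContinuousAt.congr ?_ (loc_chart_ev hw)
    exact OnePoint.continuous_coe.continuousAt.comp (continuousAt_inv₀ hw)

theorem loc (h : SchwStmt) : LocStmt := by
  intro D hD p
  obtain ⟨p, hp⟩ := p
  induction p using OnePoint.rec with
  | infty =>
    obtain ⟨ε, hε, hb⟩ := Metric.eventually_nhds_iff_ball.1 (chartInf_nhds hD hp)
    refine loc_gen h ⟨∞, hp⟩ chartInf loc_chart_cont 0 (ε / 2) (by positivity)
      (fun w hw => hb w (Metric.closedBall_subset_ball (by linarith) hw)) ?_ ?_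
    · intro f w hw
      by_cases hw0 : w = 0
      · subst hw0
        exact f.2.2 hp
      · have hwD := hb w (Metric.closedBall_subset_ball (by linarith) hw)
        rw [loc_chart_ne hw0] at hwD
        have h1 := f.2.1 _ hwD
        have h2 : AnalyticAt ℂ (fun u : ℂ => u⁻¹) w := analyticAt_inv hw0
        have h3 : AnalyticAt ℂ (fun u : ℂ => ext (f : C(D, ℂ)) ((u⁻¹ : ℂ) : OnePoint ℂ)) w :=
          AnalyticAt.comp (g := fun w : ℂ => ext (f : C(D, ℂ)) w) (f := fun u : ℂ => u⁻¹) h1 h2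
        refine h3.congr ?_
        filter_upwards [loc_chart_ev hw0] with u hu
        rw [hu]
    · have h1 : IsOpen (((fun z : ℂ => (z : OnePoint ℂ)) ''
          (Metric.closedBall (0 : ℂ) (3 / (ε / 2))))ᶜ) :=
        OnePoint.isOpen_compl_image_coe.2 ⟨Metric.isClosed_closedBall, isCompact_closedBall _ _⟩
      refine mem_of_superset (h1.mem_nhds (by simp)) ?_
      intro x hx
      induction x using OnePoint.rec with
      | infty => exact ⟨0, by simp; positivity, loc_chart_zero⟩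
      | coe z =>
        have hz : 3 / (ε / 2) < ‖z‖ := by
          by_contra hlt
          exact hx ⟨z, by simpa using not_lt.1 hlt, rfl⟩
        have hz0 : 0 < ‖z‖ := lt_trans (by positivity) hz
        have hz1 : z ≠ 0 := norm_pos_iff.1 hz0
        refine ⟨z⁻¹, ?_, ?_⟩
        · rw [mem_closedBall_zero_iff, norm_inv]
          rw [inv_le_comm₀ hz0 (by positivity)]
          refine le_trans (le_of_eq ?_) hz.le
          rw [inv_div]
        · rw [loc_chart_ne (inv_ne_zero hz1), inv_inv]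
  | coe z =>
    obtain ⟨ε, hε, hb⟩ := Metric.eventually_nhds_iff_ball.1 (openD_nhds hD hp)
    refine loc_gen h ⟨z, hp⟩ (fun w => (w : OnePoint ℂ)) OnePoint.continuous_coe z (ε / 2)
      (by positivity)
      (fun w hw => hb w (Metric.closedBall_subset_ball (by linarith) hw)) ?_ ?_
    · intro f w hw
      exact f.2.1 w (hb w (Metric.closedBall_subset_ball (by linarith) hw))
    · exact OnePoint.isOpenEmbedding_coe.isOpenMap.image_mem_nhds
        (Metric.closedBall_mem_nhds z (by positivity))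

end Pool.Agent.Lib.MP_413903_an
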