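import Pool.Agent.Lib.MP_413903_an.Spec

/-!
# MP_413903_an, module Nh: the topology of `O(D)` in terms of the seminorms
-/

set_option autoImplicit false

namespace Pool.Agent.Lib.MP_413903_an

open Complex Set Filter Topology OnePoint NNReal TopologicalSpace

theorem nh_basis {D : Set (OnePoint ℂ)} : (𝓝 (0 : C(D, ℂ))).HasBasis
      (fun p : Set D × ℝ => IsCompact p.1 ∧ 0 < p.2)
      (fun p => {g | ∀ x ∈ p.1, ‖g x‖ < p.2}) := by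
  have h := nhds_basis_uniformity (x := (0 : C(D, ℂ)))
    (Filter.HasBasis.compactConvergenceUniformity (α := D) Metric.uniformity_basis_dist)
  refine h.congr (fun _ => Iff.rfl) ?_
  intro p _
  ext g
  simp [dist_eq_norm]

theorem nh_nhdsC {D : Set (OnePoint ℂ)} (U : Set C(D, ℂ)) : U ∈ 𝓝 (0 : C(D, ℂ)) ↔
    ∃ (K : Compacts D) (ε : ℝ), 0 < ε ∧ ∀ f : C(D, ℂ), nrm K f < ε → f ∈ U := by
  rw [nh_basis.mem_iff]
  constructor
  · rintro ⟨⟨K, ε⟩, ⟨hK, hε⟩, h⟩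
    refine ⟨⟨K, hK⟩, ε, hε, fun f hf => h ?_⟩
    intro x hx
    exact (le_nrm ⟨K, hK⟩ f hx).trans_lt hf
  · rintro ⟨K, ε, hε, h⟩
    refine ⟨⟨(K : Set D), ε / 2⟩, ⟨K.isCompact, half_pos hε⟩, fun f hf => h f ?_⟩
    have h1 : nrm K f ≤ ε / 2 := nrm_le K _ (half_pos hε).le fun p hp => (hf p hp).le
    linarith

theorem nh_nhds {D : Set (OnePoint ℂ)} (U : Set (OO D)) : U ∈ 𝓝 (0 : OO D) ↔
    ∃ (K : Compacts D) (ε : ℝ), 0 < ε ∧ ∀ f : OO D, nrm K (f : C(D, ℂ)) < ε → f ∈ U := by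
  have hs : (𝓝 (0 : OO D)).HasBasis
      (fun p : Set D × ℝ => IsCompact p.1 ∧ 0 < p.2)
      (fun p => (Subtype.val : OO D → C(D, ℂ)) ⁻¹' {g | ∀ x ∈ p.1, ‖g x‖ < p.2}) := by
    rw [nhds_subtype]
    exact nh_basis.comap _
  rw [hs.mem_iff]
  constructor
  · rintro ⟨⟨K, ε⟩, ⟨hK, hε⟩, h⟩
    refine ⟨⟨K, hK⟩, ε, hε, fun f hf => h ?_⟩
    intro x hx
    exact (le_nrm ⟨K, hK⟩ (f : C(D, ℂ)) hx).trans_lt hf
  · rintro ⟨K, ε, hε, h⟩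
    refine ⟨⟨(K : Set D), ε / 2⟩, ⟨K.isCompact, half_pos hε⟩, fun f hf => h f ?_⟩
    have h1 : nrm K (f : C(D, ℂ)) ≤ ε / 2 := nrm_le K _ (half_pos hε).le fun p hp => (hf p hp).le
    linarith

theorem nh : NhStmt := by
  intro D
  have h1 : ∀ U ∈ 𝓝 (0 : OO D), ∃ (K : Compacts D) (ε : ℝ), 0 < ε ∧ ∀ f : OO D,
      nrm K (f : C(D, ℂ)) < ε → f ∈ U := fun U hU => (nh_nhds U).1 hU
  have h2 : ∀ (K : Compacts D) (ε : ℝ), 0 < ε →
      {f : OO D | nrm K (f : C(D, ℂ)) < ε} ∈ 𝓝 (0 : OO D) := fun K ε hε =>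
    (nh_nhds _).2 ⟨K, ε, hε, fun f hf => hf⟩
  refine ⟨h1, h2, fun F f => ?_⟩
  have h3 : Tendsto F atTop (𝓝 f) ↔
      Tendsto (fun m => (F m : C(D, ℂ)) - (f : C(D, ℂ))) atTop (𝓝 0) := by
    rw [tendsto_sub_nhds_zero_iff, tendsto_subtype_rng]
  rw [h3]
  constructor
  · intro h K
    rw [Metric.tendsto_atTop]
    intro ε hε
    have h4 := h ((nh_nhdsC {g : C(D, ℂ) | nrm K g < ε}).2 ⟨K, ε, hε, fun g hg => hg⟩)
    obtain ⟨N, hN⟩ := Filter.mem_atTop_sets.1 (Filter.mem_map.1 h4)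
    refine ⟨N, fun m hm => ?_⟩
    have h5 : nrm K (F m - f : C(D, ℂ)) < ε := hN m hm
    rw [Real.dist_eq, sub_zero, abs_of_nonneg (nrm_nonneg _ _)]
    exact h5
  · intro h U hU
    obtain ⟨K, ε, hε, hK⟩ := (nh_nhdsC U).1 hU
    have h4 : ∀ᶠ m in atTop, nrm K (F m - f : C(D, ℂ)) < ε := (h K).eventually (gt_mem_nhds hε)
    rw [Filter.mem_map]
    filter_upwards [h4] with m hm
    exact hK _ hm

end Pool.Agent.Lib.MP_413903_an
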