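import Pool.Agent.Lib.MP_413903_an.Spec

/-!
# MP_413903_an: size of the polynomial `Q`
-/

set_option autoImplicit false

namespace Pool.Agent.Lib.MP_413903_an

open Complex Set Filter Topology OnePoint NNReal TopologicalSpace

theorem qA_exp_h (P : Par) (k : ℕ) : Real.exp (P.h k) = (1 / P.q) ^ k * 3 := by
  unfold Par.h
  have h1 : 0 < 1 / P.q := one_div_pos.2 P.q0
  rw [Real.exp_add, Real.exp_nat_mul, Real.exp_log h1, Real.exp_log (by norm_num)]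

theorem qA_norm_c (P : Par) (k : ℕ) : ‖P.c k‖ = P.q ^ k := by
  unfold Par.c
  rw [norm_pow, Complex.norm_real, Real.norm_of_nonneg P.q0.le]

theorem qA_c_ne (P : Par) (k : ℕ) : P.c k ≠ 0 := by
  rw [← norm_pos_iff, qA_norm_c]
  exact pow_pos P.q0 k

theorem qA_factor (P : Par) (k : ℕ) (z : ℂ) (hz : ‖z‖ ≤ 1) :
    ‖1 - z / P.c k‖ ≤ Real.exp (P.h k) := by
  rw [qA_exp_h]
  have h1 : 0 < P.q ^ k := pow_pos P.q0 k
  have h2 : P.q ^ k ≤ 1 := pow_le_one₀ P.q0.le P.q1.le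
  have h3 : ‖1 - z / P.c k‖ ≤ 1 + ‖z‖ / P.q ^ k := by
    have := norm_sub_le (1 : ℂ) (z / P.c k)
    rw [norm_one, norm_div, qA_norm_c] at this
    exact this
  have h4 : ‖z‖ / P.q ^ k ≤ 1 / P.q ^ k := div_le_div_of_nonneg_right hz h1.le
  have h5 : 1 ≤ 1 / P.q ^ k := by
    rw [le_div_iff₀ h1]
    linarith
  have h6 : (1 / P.q) ^ k = 1 / P.q ^ k := by
    rw [one_div_pow]
  rw [h6]
  linarith

theorem qA_exp_L (P : Par) (k : ℕ) (hk : 1 ≤ k) : Real.exp (-P.L k) = P.r k := by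
  unfold Par.L
  have h1 := P.r0 k hk
  rw [Real.exp_neg, Real.exp_log (one_div_pos.2 h1)]
  simp

theorem qA_factor2 (P : Par) (k : ℕ) (hk : 1 ≤ k) (z : ℂ) (hz : z ∈ P.Ann k) :
    ‖1 - z / P.c k‖ ≤ Real.exp (P.h k - P.L k) := by
  have hr := P.r0 k hk
  have h1 : 0 < P.q ^ k := pow_pos P.q0 k
  have h2 : ‖z - P.c k‖ ≤ 2 * P.r k := by
    have h3 := hz.2
    refine abs_le_of_sq_le_sq' (a := ‖z - P.c k‖) (b := 2 * P.r k) ?_ (by linarith) |>.2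
    nlinarith [sq_nonneg (P.r k)]
  have h4 : 1 - z / P.c k = -(z - P.c k) / P.c k := by
    have := qA_c_ne P k
    field_simp
    ring
  rw [h4, norm_div, norm_neg, qA_norm_c, show P.h k - P.L k = P.h k + -P.L k from rfl,
    Real.exp_add, qA_exp_h, qA_exp_L P k hk, one_div_pow]
  have h5 : ‖z - P.c k‖ / P.q ^ k ≤ 2 * P.r k / P.q ^ k := div_le_div_of_nonneg_right h2 h1.le
  have h6 : 1 / P.q ^ k * 3 * P.r k - 2 * P.r k / P.q ^ k = P.r k / P.q ^ k := by ring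
  have h7 : 0 < P.r k / P.q ^ k := div_pos hr h1
  linarith

/-- the coefficient `4` or `2 C + 4` -/
noncomputable def qAa (k2 : ℕ) (C : ℝ) (k : ℕ) : ℝ := if k ≤ k2 then 4 else 2 * C + 4

theorem qAa_nonneg (k2 : ℕ) {C : ℝ} (hC : 0 ≤ C) (k : ℕ) : 0 ≤ qAa k2 C k := by
  unfold qAa
  split_ifs <;> linarith

theorem qA_mexp (P : Par) (k2 : ℕ) (C t : ℝ) (k : ℕ) :
    P.mexp k2 C t k = ⌈qAa k2 C k * t / P.L k⌉₊ := by
  unfold Par.mexp qAa
  split_ifs <;> rfl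

theorem qA_m_up (hL : LposStmt) (P : Par) (k2 : ℕ) {C t : ℝ} (hC : 0 ≤ C) (ht : 0 ≤ t) (k : ℕ)
    (hk : 1 ≤ k) : P.h k * (P.mexp k2 C t k : ℝ) ≤ qAa k2 C k * t * P.w k + P.h k := by
  obtain ⟨h1, _, h3⟩ := hL P k hk
  have h4 : 0 ≤ qAa k2 C k * t / P.L k :=
    div_nonneg (mul_nonneg (qAa_nonneg k2 hC k) ht) h3.le
  have h5 : (P.mexp k2 C t k : ℝ) ≤ qAa k2 C k * t / P.L k + 1 := by
    rw [qA_mexp]
    exact (Nat.ceil_lt_add_one h4).le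
  have h6 := mul_le_mul_of_nonneg_left h5 h1.le
  have h7 : P.h k * (qAa k2 C k * t / P.L k + 1) = qAa k2 C k * t * P.w k + P.h k := by
    unfold Par.w
    ring
  linarith

theorem qA_m_low (hL : LposStmt) (P : Par) (k2 : ℕ) (C t : ℝ) (k : ℕ)
    (hk : 1 ≤ k) : qAa k2 C k * t ≤ P.L k * (P.mexp k2 C t k : ℝ) := by
  obtain ⟨_, _, h3⟩ := hL P k hk
  have h5 : qAa k2 C k * t / P.L k ≤ (P.mexp k2 C t k : ℝ) := by
    rw [qA_mexp]
    exact Nat.le_ceil _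
  rw [div_le_iff₀ h3] at h5
  linarith

theorem qA_sum (P : Par) {k1 k2 l : ℕ} (C t : ℝ) (h12 : k1 ≤ k2) (h2l : k2 ≤ l) :
    ∑ k ∈ Finset.Ioc k1 l, (qAa k2 C k * t * P.w k + P.h k) =
      4 * t * ∑ k ∈ Finset.Ioc k1 k2, P.w k + (2 * C + 4) * t * ∑ k ∈ Finset.Ioc k2 l, P.w k +
      ∑ k ∈ Finset.Ioc k1 l, P.h k := by
  rw [Finset.sum_add_distrib, ← Finset.sum_Ioc_consecutive _ h12 h2l]
  have e1 : ∑ k ∈ Finset.Ioc k1 k2, qAa k2 C k * t * P.w k =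
      4 * t * ∑ k ∈ Finset.Ioc k1 k2, P.w k := by
    rw [Finset.mul_sum]
    refine Finset.sum_congr rfl fun k hk => ?_
    have : k ≤ k2 := (Finset.mem_Ioc.1 hk).2
    unfold qAa
    rw [if_pos this]
  have e2 : ∑ k ∈ Finset.Ioc k2 l, qAa k2 C k * t * P.w k =
      (2 * C + 4) * t * ∑ k ∈ Finset.Ioc k2 l, P.w k := by
    rw [Finset.mul_sum]
    refine Finset.sum_congr rfl fun k hk => ?_
    have : ¬ k ≤ k2 := not_le.2 (Finset.mem_Ioc.1 hk).1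
    unfold qAa
    rw [if_neg this]
  rw [e1, e2]

theorem qA_pow (hL : LposStmt) (P : Par) (k2 : ℕ) {C t : ℝ} (hC : 0 ≤ C) (ht : 0 ≤ t) (k : ℕ)
    (hk : 1 ≤ k) (z : ℂ) (hz : ‖z‖ ≤ 1) :
    ‖(1 - z / P.c k) ^ P.mexp k2 C t k‖ ≤ Real.exp (qAa k2 C k * t * P.w k + P.h k) := by
  rw [norm_pow]
  refine (pow_le_pow_left₀ (norm_nonneg _) (qA_factor P k z hz) _).trans ?_
  rw [← Real.exp_nat_mul]
  refine Real.exp_le_exp.2 ?_
  have := qA_m_up hL P k2 hC ht k hk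
  linarith

theorem qA_pow2 (hL : LposStmt) (P : Par) (k2 : ℕ) {C t : ℝ} (hC : 0 ≤ C) (ht : 0 ≤ t) (k : ℕ)
    (hk : 1 ≤ k) (z : ℂ) (hz : z ∈ P.Ann k) :
    ‖(1 - z / P.c k) ^ P.mexp k2 C t k‖ ≤
      Real.exp (qAa k2 C k * t * P.w k + P.h k - qAa k2 C k * t) := by
  rw [norm_pow]
  refine (pow_le_pow_left₀ (norm_nonneg _) (qA_factor2 P k hk z hz) _).trans ?_
  rw [← Real.exp_nat_mul]
  refine Real.exp_le_exp.2 ?_
  have h1 := qA_m_up hL P k2 hC ht k hk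
  have h2 := qA_m_low hL P k2 C t k hk
  have h3 : (P.mexp k2 C t k : ℝ) * (P.h k - P.L k) =
      P.h k * (P.mexp k2 C t k : ℝ) - P.L k * (P.mexp k2 C t k : ℝ) := by ring
  rw [h3]
  linarith

theorem qA (h : LposStmt) : QAStmt := by
  intro P k1 k2 l C t hk1 h12 h2l hC ht
  refine ⟨fun z hz => ?_, fun z hz k0 hk0 hA => ?_⟩
  · unfold Par.Q
    rw [norm_prod, ← qA_sum P C t h12 h2l, Real.exp_sum]
    refine Finset.prod_le_prod (fun k _ => norm_nonneg _) fun k hk => ?_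
    have hk' := Finset.mem_Ioc.1 hk
    exact qA_pow h P k2 hC ht k (by omega) z hz
  · have e : (if k0 ≤ k2 then (4 : ℝ) else 2 * C + 4) = qAa k2 C k0 := rfl
    rw [e]
    unfold Par.Q
    have hs : ∑ k ∈ Finset.Ioc k1 l, (qAa k2 C k * t * P.w k + P.h k -
        (if k = k0 then qAa k2 C k * t else 0)) =
        4 * t * ∑ k ∈ Finset.Ioc k1 k2, P.w k + (2 * C + 4) * t * ∑ k ∈ Finset.Ioc k2 l, P.w k +
      ∑ k ∈ Finset.Ioc k1 l, P.h k - qAa k2 C k0 * t := by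
      rw [Finset.sum_sub_distrib, qA_sum P C t h12 h2l, Finset.sum_ite_eq' , if_pos hk0]
    rw [norm_prod, ← hs, Real.exp_sum]
    refine Finset.prod_le_prod (fun k _ => norm_nonneg _) fun k hk => ?_
    have hk' := Finset.mem_Ioc.1 hk
    by_cases hkk : k = k0
    · rw [if_pos hkk]
      subst hkk
      exact qA_pow2 h P k2 hC ht k (by omega) z hA
    · rw [if_neg hkk, sub_zero]
      exact qA_pow h P k2 hC ht k (by omega) z hz

end Pool.Agent.Lib.MP_413903_an
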