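import Pool.Agent.Lib.MP_413903_an.Spec

/-!
# MP_413903_an, module SDec: a Schauder basis gives an absolutely convergent decomposition
-/

set_option autoImplicit false

namespace Pool.Agent.Lib.MP_413903_an

open Complex Set Filter Topology OnePoint NNReal TopologicalSpace

private theorem SDec_ev {D : Set (OnePoint ℂ)} (p : D) :
    Continuous fun f : OO D => (f : C(D, ℂ)) p :=
  (continuous_eval_const p).comp continuous_subtype_val

theorem sDec (h1 : BasisStmt) (h2 : CntStmt) : SDecStmt := by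
  intro P v hv
  obtain ⟨η, hη1, hη2, hη3⟩ := h1 P v hv
  have hc := h2 P.D P.isOpen v η hη2 hη3
  have hmain : ∀ K : Compacts P.D, ∃ (K' : Compacts P.D) (C : ℝ), 0 ≤ C ∧ ∀ f : OO P.D,
      (Summable fun i => ‖η i f‖ * nrm K (v i : C(P.D, ℂ))) ∧
      ∑' i, ‖η i f‖ * nrm K (v i : C(P.D, ℂ)) ≤ C * nrm K' (f : C(P.D, ℂ)) := by
    intro K
    obtain ⟨K'', hK, hs⟩ := hc K
    obtain ⟨K3, C, hC, hb⟩ := hη3 K''
    have ha : ∀ k, 0 ≤ nrm K (v k : C(P.D, ℂ)) / nrm K'' (v k : C(P.D, ℂ)) := fun k =>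
      div_nonneg (nrm_nonneg _ _) (nrm_nonneg _ _)
    refine ⟨K3, (∑' k, nrm K (v k : C(P.D, ℂ)) / nrm K'' (v k : C(P.D, ℂ))) * C,
      mul_nonneg (tsum_nonneg ha) hC, fun f => ?_⟩
    have hle : ∀ k, ‖η k f‖ * nrm K (v k : C(P.D, ℂ)) ≤
        nrm K (v k : C(P.D, ℂ)) / nrm K'' (v k : C(P.D, ℂ)) * (C * nrm K3 (f : C(P.D, ℂ))) := by
      intro k
      have h3 : nrm K (v k : C(P.D, ℂ)) ≤ nrm K'' (v k : C(P.D, ℂ)) := nrm_mono hK _
      rcases (nrm_nonneg K'' (v k : C(P.D, ℂ))).eq_or_lt with h0 | h0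
      · have h4 : nrm K (v k : C(P.D, ℂ)) = 0 := by
          have := nrm_nonneg K (v k : C(P.D, ℂ))
          linarith
        rw [h4, mul_zero, zero_div, zero_mul]
      · calc ‖η k f‖ * nrm K (v k : C(P.D, ℂ)) =
              nrm K (v k : C(P.D, ℂ)) / nrm K'' (v k : C(P.D, ℂ)) *
                (‖η k f‖ * nrm K'' (v k : C(P.D, ℂ))) := by
              field_simp
          _ ≤ _ := mul_le_mul_of_nonneg_left (hb f k) (ha k)
    have hs2 := hs.mul_right (C * nrm K3 (f : C(P.D, ℂ)))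
    have hs3 : Summable fun i => ‖η i f‖ * nrm K (v i : C(P.D, ℂ)) :=
      Summable.of_nonneg_of_le (fun k => mul_nonneg (norm_nonneg _) (nrm_nonneg _ _)) hle hs2
    refine ⟨hs3, ?_⟩
    calc ∑' i, ‖η i f‖ * nrm K (v i : C(P.D, ℂ)) ≤
          ∑' k, nrm K (v k : C(P.D, ℂ)) / nrm K'' (v k : C(P.D, ℂ)) *
            (C * nrm K3 (f : C(P.D, ℂ))) := hs3.tsum_le_tsum hle hs2
      _ = (∑' k, nrm K (v k : C(P.D, ℂ)) / nrm K'' (v k : C(P.D, ℂ))) * C *
            nrm K3 (f : C(P.D, ℂ)) := by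
          rw [hs.tsum_mul_right, mul_assoc]
  refine ⟨η, hmain, ?_⟩
  intro f p
  obtain ⟨K', C, -, hK'⟩ := hmain ⟨{p}, isCompact_singleton⟩
  have hs := (hK' f).1
  have hs2 : Summable fun i => η i f * (v i : C(P.D, ℂ)) p := by
    refine Summable.of_norm_bounded hs fun i => ?_
    rw [norm_mul]
    exact mul_le_mul_of_nonneg_left (le_nrm _ _ (Set.mem_singleton p)) (norm_nonneg _)
  have hlim : Tendsto (fun N => ∑ k ∈ Finset.range N, η k f * (v k : C(P.D, ℂ)) p) atTop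
      (𝓝 ((f : C(P.D, ℂ)) p)) := by
    have h3 := ((SDec_ev p).tendsto f).comp (hη1 f)
    refine h3.congr fun N => ?_
    have h4 : ((∑ k ∈ Finset.range N, η k f • v k : OO P.D) : C(P.D, ℂ)) =
        ∑ k ∈ Finset.range N, η k f • (v k : C(P.D, ℂ)) := by
      rw [AddSubmonoidClass.coe_finsetSum]
      rfl
    simp only [Function.comp_apply]
    rw [h4, ContinuousMap.sum_apply]
    rfl
  have h5 := hs2.hasSum.tendsto_sum_nat
  have h6 := tendsto_nhds_unique h5 hlim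
  rw [← h6]
  exact hs2.hasSum

end Pool.Agent.Lib.MP_413903_an
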