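import Pool.Agent.Lib.MP_413903_an.Spec

/-!
# MP_413903_an: Schwarz lemma of order `M`
-/

set_option autoImplicit false

namespace Pool.Agent.Lib.MP_413903_an

open Complex Set Filter Topology NNReal

theorem schw_avg {a : ℂ} {R S : ℝ} {g : ℂ → ℂ} (hR : 0 < R)
    (hg : ∀ w ∈ Metric.closedBall a R, ‖g w‖ ≤ S) :
    (2 * Real.pi)⁻¹ * ∫ θ : ℝ in (0 : ℝ)..2 * Real.pi, ‖g (circleMap a R θ)‖ ≤ S := by
  have h1 : ∀ θ ∈ Set.uIoc (0 : ℝ) (2 * Real.pi), ‖‖g (circleMap a R θ)‖‖ ≤ S := by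
    intro θ _
    rw [norm_norm]
    exact hg _ (circleMap_mem_closedBall a hR.le θ)
  have h2 := intervalIntegral.norm_integral_le_of_norm_le_const h1
  have h3 := le_trans (le_abs_self _) h2
  have hp := Real.pi_pos
  rw [sub_zero, abs_of_pos (by positivity)] at h3
  rw [inv_mul_le_iff₀ (by positivity)]
  linarith

theorem schw : SchwStmt := by
  intro a R S M g hR hS hd hb h0 w hw
  rcases Nat.eq_zero_or_pos M with hM | hM
  · subst hM
    rw [pow_zero, one_mul]
    apply hb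
    rw [Metric.mem_closedBall] at hw ⊢
    linarith
  obtain ⟨ρ, hρ⟩ : ∃ ρ : ℝ≥0, (ρ : ℝ) = R := ⟨⟨R, hR.le⟩, rfl⟩
  have hR' : 0 < ρ := by
    rw [← NNReal.coe_pos, hρ]
    exact hR
  have hps := DiffContOnCl.hasFPowerSeriesOnBall (R := ρ) (c := a) (f := g)
    (by rw [hρ]; exact hd) hR'
  rw [hρ] at hps
  have hwn : ‖w - a‖ ≤ R / 3 := by
    rw [← dist_eq_norm]
    exact Metric.mem_closedBall.1 hw
  have hy : w - a ∈ Metric.eball (0 : ℂ) (ρ : ENNReal) := by
    rw [Metric.mem_eball, edist_zero_right, enorm_eq_nnnorm, ENNReal.coe_lt_coe,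
      ← NNReal.coe_lt_coe, hρ, coe_nnnorm]
    linarith
  have hsum := hps.hasSum hy
  rw [add_sub_cancel] at hsum
  set t : ℕ → ℂ := fun n => cauchyPowerSeries g a R n (fun _ => w - a) with ht
  have hsum' : HasSum t (g w) := hsum
  have ht0 : ∀ n < M, t n = 0 := by
    intro n hn
    rw [ht]
    simp only
    rw [cauchyPowerSeries_apply]
    have h1 : (∮ z in C(a, R), ((w - a) / (z - a)) ^ n • (z - a)⁻¹ • g z) =
        (w - a) ^ n * ∮ z in C(a, R), (z - a)⁻¹ ^ (n + 1) * g z := by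
      rw [← circleIntegral.integral_const_mul]
      congr 1
      funext z
      rw [smul_eq_mul, smul_eq_mul, div_eq_mul_inv, mul_pow, pow_succ]
      ring
    rw [h1, h0 n hn, mul_zero, smul_zero]
  have htn : ∀ n, ‖t n‖ ≤ S * (1 / 3) ^ n := by
    intro n
    have h1 := (cauchyPowerSeries g a R n).le_opNorm (fun _ => w - a)
    rw [Finset.prod_const, Finset.card_univ, Fintype.card_fin] at h1
    have h2 := norm_cauchyPowerSeries_le g a R n
    have h3 : ‖cauchyPowerSeries g a R n‖ ≤ S * |R|⁻¹ ^ n :=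
      h2.trans (mul_le_mul_of_nonneg_right (schw_avg hR hb) (by positivity))
    rw [abs_of_pos hR] at h3
    calc ‖t n‖ ≤ ‖cauchyPowerSeries g a R n‖ * ‖w - a‖ ^ n := h1
      _ ≤ (S * R⁻¹ ^ n) * (R / 3) ^ n := by gcongr
      _ = S * (1 / 3) ^ n := by
          rw [mul_assoc, ← mul_pow]
          congr 2
          field_simp
  have hs1 : HasSum (fun n => t (n + M)) (g w) := by
    have := (hasSum_nat_add_iff' M).2 hsum'
    rwa [Finset.sum_eq_zero (fun i hi => ht0 i (Finset.mem_range.1 hi)), sub_zero] at this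
  have hs2 : HasSum (fun n : ℕ => S * (1 / 3) ^ (n + M)) (S * (1 / 3) ^ M * (3 / 2)) := by
    have h1 := (hasSum_geometric_of_lt_one (r := (1 / 3 : ℝ)) (by norm_num)
      (by norm_num)).mul_left (S * (1 / 3) ^ M)
    have h2 : (1 - (1 / 3 : ℝ))⁻¹ = 3 / 2 := by norm_num
    rw [h2] at h1
    refine h1.congr_fun ?_
    intro n
    rw [pow_add]
    ring
  have h1 := hs1.norm_le_of_bounded hs2 fun n => htn (n + M)
  refine h1.trans ?_
  obtain ⟨k, rfl⟩ : ∃ k, M = k + 1 := ⟨M - 1, by omega⟩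
  have h2 : (1 / 3 : ℝ) ^ k ≤ (1 / 2) ^ k := by gcongr; norm_num
  rw [pow_succ, pow_succ]
  have h3 := mul_le_mul_of_nonneg_left h2 hS
  nlinarith

end Pool.Agent.Lib.MP_413903_an
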