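import Pool.Agent.Lib.MP_413903_an.Spec

/-!
# Comparison of two circle integrals by a cutoff function
-/

set_option autoImplicit false

namespace Pool.Agent.Lib.MP_413903_an

open Complex Set Filter Topology OnePoint NNReal TopologicalSpace MeasureTheory
open scoped Interval

/-- the cutoff function -/
noncomputable def stokesChi (s : Finset ℕ) (c : ℕ → ℂ) (r : ℕ → ℝ) (z : ℂ) : ℝ :=
  ∏ k ∈ s, Real.smoothTransition (‖z - c k‖ ^ 2 / r k ^ 2 - 2)

theorem stokesChi_contDiff (s : Finset ℕ) (c : ℕ → ℂ) (r : ℕ → ℝ) :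
    ContDiff ℝ 1 (stokesChi s c r) := by
  unfold stokesChi
  refine contDiff_prod fun k _ => ?_
  have h1 : ContDiff ℝ 1 (fun z : ℂ => ‖z - c k‖ ^ 2) :=
    (contDiff_id.sub contDiff_const).norm_sq ℝ
  have h2 : ContDiff ℝ 1 (fun z : ℂ => ‖z - c k‖ ^ 2 / r k ^ 2 - 2) :=
    (h1.div_const _).sub contDiff_const
  exact (Real.smoothTransition.contDiff (n := 1)).comp h2

theorem stokesChi_zero {s : Finset ℕ} {c : ℕ → ℂ} {r : ℕ → ℝ} {z : ℂ} {k : ℕ} (hk : k ∈ s)
    (hr : 0 < r k) (h : ‖z - c k‖ ^ 2 ≤ 2 * r k ^ 2) : stokesChi s c r z = 0 := by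
  unfold stokesChi
  refine Finset.prod_eq_zero hk ?_
  apply Real.smoothTransition.zero_of_nonpos
  rw [sub_nonpos, div_le_iff₀ (by positivity)]
  exact h

theorem stokesChi_one {s : Finset ℕ} {c : ℕ → ℂ} {r : ℕ → ℝ} {z : ℂ} (hr : ∀ k ∈ s, 0 < r k)
    (h : ∀ k ∈ s, 3 * r k ^ 2 ≤ ‖z - c k‖ ^ 2) : stokesChi s c r z = 1 := by
  unfold stokesChi
  refine Finset.prod_eq_one fun k hk => ?_
  have hk0 := hr k hk
  apply Real.smoothTransition.one_of_one_le
  rw [le_sub_iff_add_le, le_div_iff₀ (by positivity)]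
  have := h k hk
  linarith

theorem stokesChi_zero_near {s : Finset ℕ} {c : ℕ → ℂ} {r : ℕ → ℝ} {z : ℂ} {k : ℕ} (hk : k ∈ s)
    (hr : 0 < r k) (h : ‖z - c k‖ ^ 2 < 2 * r k ^ 2) : ∀ᶠ y in 𝓝 z, stokesChi s c r y = 0 := by
  have hc : Continuous (fun y : ℂ => ‖y - c k‖ ^ 2) := by fun_prop
  filter_upwards [(isOpen_lt hc continuous_const).mem_nhds h] with y hy
  exact stokesChi_zero hk hr (le_of_lt hy)

theorem stokesChi_one_near {s : Finset ℕ} {c : ℕ → ℂ} {r : ℕ → ℝ} {z : ℂ}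
    (hr : ∀ k ∈ s, 0 < r k) (h : ∀ k ∈ s, 3 * r k ^ 2 < ‖z - c k‖ ^ 2) :
    ∀ᶠ y in 𝓝 z, stokesChi s c r y = 1 := by
  have h1 : ∀ᶠ y in 𝓝 z, ∀ k ∈ s, 3 * r k ^ 2 < ‖y - c k‖ ^ 2 := by
    rw [Filter.eventually_all_finset]
    intro k hk
    have hc : Continuous (fun y : ℂ => ‖y - c k‖ ^ 2) := by fun_prop
    exact (isOpen_lt continuous_const hc).mem_nhds (h k hk)
  filter_upwards [h1] with y hy
  exact stokesChi_one hr fun k hk => (hy k hk).le

/-- the function on the logarithmic plane -/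
noncomputable def stokesG (s : Finset ℕ) (c : ℕ → ℂ) (r : ℕ → ℝ) (F : ℂ → ℂ) (w : ℂ) : ℂ :=
  ((stokesChi s c r (Complex.exp w) : ℝ) : ℂ) * (F (Complex.exp w) * Complex.exp w)

theorem stokesX_contDiff (s : Finset ℕ) (c : ℕ → ℂ) (r : ℕ → ℝ) :
    ContDiff ℝ 1 (fun w : ℂ => stokesChi s c r (Complex.exp w)) := by
  have h : ContDiff ℝ 1 Complex.exp := (Complex.contDiff_exp (𝕜 := ℂ) (n := 1)).restrict_scalars ℝ
  exact (stokesChi_contDiff s c r).comp h

/-- the pointwise facts -/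
theorem stokes_point (ρ' ρ : ℝ) (s : Finset ℕ) (c : ℕ → ℂ) (r : ℕ → ℝ)
    (hr : ∀ k ∈ s, 0 < r k) (A : ℝ) (hA : 0 ≤ A) (F : ℂ → ℂ) (B : ℝ) (hB : 0 ≤ B)
    (hd : ∀ z : ℂ, ρ' ≤ ‖z‖ → ‖z‖ ≤ ρ → (∀ k ∈ s, 2 * r k ^ 2 ≤ ‖z - c k‖ ^ 2) →
      DifferentiableAt ℂ F z)
    (hb : ∀ z : ℂ, ρ' ≤ ‖z‖ → ‖z‖ ≤ ρ → (∀ k ∈ s, 2 * r k ^ 2 ≤ ‖z - c k‖ ^ 2) →
      (∃ k ∈ s, ‖z - c k‖ ^ 2 ≤ 3 * r k ^ 2) → ‖F z‖ ≤ B) (w : ℂ)
    (hw1 : ρ' ≤ ‖Complex.exp w‖) (hw2 : ‖Complex.exp w‖ ≤ ρ)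
    (hX : ‖fderiv ℝ (fun w : ℂ => stokesChi s c r (Complex.exp w)) w‖ ≤ A) :
    DifferentiableAt ℝ (stokesG s c r F) w ∧
      ‖I • fderiv ℝ (stokesG s c r F) w 1 - fderiv ℝ (stokesG s c r F) w I‖ ≤ 2 * A * ρ * B := by
  have hρ : 0 ≤ ρ := (norm_nonneg _).trans hw2
  by_cases hin : ∃ k ∈ s, ‖Complex.exp w - c k‖ ^ 2 < 2 * r k ^ 2
  · obtain ⟨k, hk, hlt⟩ := hin
    have h1 := stokesChi_zero_near hk (hr k hk) hlt
    have h2 : ∀ᶠ y in 𝓝 w, stokesChi s c r (Complex.exp y) = 0 :=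
      Complex.continuous_exp.continuousAt.eventually h1
    have h3 : stokesG s c r F =ᶠ[𝓝 w] fun _ => 0 := by
      filter_upwards [h2] with y hy
      simp [stokesG, hy]
    refine ⟨(differentiableAt_const (0 : ℂ)).congr_of_eventuallyEq h3, ?_⟩
    rw [h3.fderiv_eq]
    simp only [fderiv_fun_const, Pi.zero_apply, _root_.zero_apply, smul_zero, sub_zero,
      norm_zero]
    positivity
  · push Not at hin
    have hF : DifferentiableAt ℂ F (Complex.exp w) := hd _ hw1 hw2 hin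
    set X : ℂ → ℝ := fun w : ℂ => stokesChi s c r (Complex.exp w) with hXdef
    set H : ℂ → ℂ := fun w => F (Complex.exp w) * Complex.exp w with hH
    have hHd : DifferentiableAt ℂ H w := by
      have h1 : DifferentiableAt ℂ (fun w => F (Complex.exp w)) w :=
        DifferentiableAt.comp w hF Complex.differentiable_exp.differentiableAt
      exact h1.mul Complex.differentiable_exp.differentiableAt
    have hHR : HasFDerivAt H ((fderiv ℂ H w).restrictScalars ℝ) w :=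
      hHd.hasFDerivAt.restrictScalars ℝ
    have hXd : HasFDerivAt X (fderiv ℝ X w) w :=
      ((stokesX_contDiff s c r).differentiable (by simp) w).hasFDerivAt
    have hXc : HasFDerivAt (fun y => ((X y : ℝ) : ℂ)) (Complex.ofRealCLM.comp (fderiv ℝ X w)) w :=
      Complex.ofRealCLM.hasFDerivAt.comp w hXd
    have hG : HasFDerivAt (stokesG s c r F) (((X w : ℝ) : ℂ) • (fderiv ℂ H w).restrictScalars ℝ +
        H w • Complex.ofRealCLM.comp (fderiv ℝ X w)) w := hXc.mul hHR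
    refine ⟨hG.differentiableAt, ?_⟩
    rw [hG.fderiv]
    have hI : fderiv ℂ H w I = I * fderiv ℂ H w 1 := by
      have h1 : (I : ℂ) = I • (1 : ℂ) := by simp
      conv_lhs => rw [h1]
      rw [_root_.map_smul, smul_eq_mul]
    have e1 : I • (((X w : ℝ) : ℂ) • (fderiv ℂ H w).restrictScalars ℝ +
        H w • Complex.ofRealCLM.comp (fderiv ℝ X w)) 1 -
        (((X w : ℝ) : ℂ) • (fderiv ℂ H w).restrictScalars ℝ +
        H w • Complex.ofRealCLM.comp (fderiv ℝ X w)) I =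
        (I * ((fderiv ℝ X w 1 : ℝ) : ℂ) - ((fderiv ℝ X w I : ℝ) : ℂ)) * H w := by
      simp only [_root_.add_apply, _root_.smul_apply, ContinuousLinearMap.coe_restrictScalars',
        ContinuousLinearMap.comp_apply, Complex.ofRealCLM_apply, smul_eq_mul, hI]
      ring
    rw [e1, norm_mul]
    by_cases hann : ∃ k ∈ s, ‖Complex.exp w - c k‖ ^ 2 ≤ 3 * r k ^ 2
    · have hFB := hb _ hw1 hw2 hin hann
      have hHB : ‖H w‖ ≤ B * ρ := by
        rw [hH]
        simp only [norm_mul]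
        exact mul_le_mul hFB hw2 (norm_nonneg _) hB
      have h2 : ∀ v : ℂ, ‖v‖ ≤ 1 → ‖fderiv ℝ X w v‖ ≤ A := by
        intro v hv
        refine ((fderiv ℝ X w).le_opNorm v).trans ?_
        calc ‖fderiv ℝ X w‖ * ‖v‖ ≤ A * 1 := mul_le_mul hX hv (norm_nonneg _) hA
          _ = A := mul_one A
      have h3 : ‖I * ((fderiv ℝ X w 1 : ℝ) : ℂ) - ((fderiv ℝ X w I : ℝ) : ℂ)‖ ≤ 2 * A := by
        refine (norm_sub_le _ _).trans ?_
        rw [norm_mul, Complex.norm_I, one_mul, Complex.norm_real, Complex.norm_real]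
        have := h2 1 (by simp)
        have := h2 I (by simp)
        linarith
      calc ‖I * ((fderiv ℝ X w 1 : ℝ) : ℂ) - ((fderiv ℝ X w I : ℝ) : ℂ)‖ * ‖H w‖ ≤
            2 * A * (B * ρ) := mul_le_mul h3 hHB (norm_nonneg _) (by positivity)
        _ = 2 * A * ρ * B := by ring
    · push Not at hann
      have h1 := stokesChi_one_near hr hann
      have h2 : ∀ᶠ y in 𝓝 w, stokesChi s c r (Complex.exp y) = 1 :=
        Complex.continuous_exp.continuousAt.eventually h1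
      have h3 : X =ᶠ[𝓝 w] fun _ => 1 := h2
      have h4 : fderiv ℝ X w = 0 := by
        rw [h3.fderiv_eq]
        simp
      rw [h4]
      simp only [_root_.zero_apply, Complex.ofReal_zero, mul_zero, sub_zero, norm_zero,
        zero_mul]
      positivity

theorem stokes_circle (s : Finset ℕ) (c : ℕ → ℂ) (r : ℕ → ℝ) (hr : ∀ k ∈ s, 0 < r k)
    (F : ℂ → ℂ) (ρ : ℝ) (hρ : 0 < ρ)
    (h : ∀ z : ℂ, ‖z‖ = ρ → ∀ k ∈ s, 3 * r k ^ 2 ≤ ‖z - c k‖ ^ 2) :
    (∮ z in C(0, ρ), F z) =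
      I • ∫ y : ℝ in (0 : ℝ)..2 * Real.pi, stokesG s c r F ((Real.log ρ : ℝ) + y * I) := by
  rw [circleIntegral, ← intervalIntegral.integral_smul]
  refine intervalIntegral.integral_congr fun θ _ => ?_
  have e1 : Complex.exp (((Real.log ρ : ℝ) : ℂ) + θ * I) = circleMap 0 ρ θ := by
    rw [Complex.exp_add, ← Complex.ofReal_exp, Real.exp_log hρ, circleMap, zero_add]
  have e2 : ‖circleMap 0 ρ θ‖ = ρ := by
    rw [norm_circleMap_zero, abs_of_pos hρ]
  show deriv (circleMap 0 ρ) θ • F (circleMap 0 ρ θ) = I • stokesG s c r F (_ + θ * I)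
  rw [stokesG, e1, stokesChi_one hr (h _ e2), deriv_circleMap]
  simp only [smul_eq_mul, Complex.ofReal_one, one_mul]
  ring

theorem stokes : StokesStmt := by
  intro ρ' ρ s c r hρ' hρ hr hcirc
  have hρ0 : 0 < ρ := hρ'.trans_le hρ
  have hlog : Real.log ρ' ≤ Real.log ρ := Real.log_le_log hρ' hρ
  have hpi : (0 : ℝ) ≤ 2 * Real.pi := by positivity
  set R : Set ℂ := [[Real.log ρ', Real.log ρ]] ×ℂ [[(0 : ℝ), 2 * Real.pi]] with hR
  have hRc : IsCompact R := isCompact_uIcc.reProdIm isCompact_uIcc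
  have hcont : Continuous (fderiv ℝ (fun w : ℂ => stokesChi s c r (Complex.exp w))) :=
    (stokesX_contDiff s c r).continuous_fderiv (by simp)
  obtain ⟨A₀, hA₀⟩ := hRc.bddAbove_image hcont.norm.continuousOn
  set A : ℝ := max A₀ 0 with hAdef
  have hA : 0 ≤ A := le_max_right _ _
  have hAX : ∀ w ∈ R, ‖fderiv ℝ (fun w : ℂ => stokesChi s c r (Complex.exp w)) w‖ ≤ A :=
    fun w hw => (hA₀ ⟨w, hw, rfl⟩).trans (le_max_left _ _)
  have hexp : ∀ w ∈ R, ρ' ≤ ‖Complex.exp w‖ ∧ ‖Complex.exp w‖ ≤ ρ := by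
    intro w hw
    have h1 : w.re ∈ [[Real.log ρ', Real.log ρ]] := hw.1
    rw [uIcc_of_le hlog] at h1
    rw [Complex.norm_exp]
    constructor
    · rw [← Real.log_le_iff_le_exp hρ']
      exact h1.1
    · rw [← Real.le_log_iff_exp_le hρ0]
      exact h1.2
  refine ⟨2 * A * ρ * (2 * Real.pi) * (Real.log ρ - Real.log ρ'), ?_, ?_⟩
  · have : 0 ≤ Real.log ρ - Real.log ρ' := sub_nonneg.mpr hlog
    positivity
  intro F B hB hd hb
  have hpt : ∀ w ∈ R, DifferentiableAt ℝ (stokesG s c r F) w ∧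
      ‖I • fderiv ℝ (stokesG s c r F) w 1 - fderiv ℝ (stokesG s c r F) w I‖ ≤ 2 * A * ρ * B :=
    fun w hw => stokes_point ρ' ρ s c r hr A hA F B hB hd hb w (hexp w hw).1 (hexp w hw).2
      (hAX w hw)
  have hmeas : Measurable (fun w : ℂ => I • fderiv ℝ (stokesG s c r F) w 1 -
      fderiv ℝ (stokesG s c r F) w I) :=
    ((measurable_fderiv_apply_const ℝ _ 1).const_smul I).sub (measurable_fderiv_apply_const ℝ _ I)
  have hRm : MeasurableSet R := hRc.measurableSet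
  have hint : IntegrableOn (fun w : ℂ => I • fderiv ℝ (stokesG s c r F) w 1 -
      fderiv ℝ (stokesG s c r F) w I) R := by
    refine Measure.integrableOn_of_bounded (M := 2 * A * ρ * B) hRc.measure_lt_top.ne
      hmeas.aestronglyMeasurable ?_
    filter_upwards [ae_restrict_mem hRm] with w hw
    exact (hpt w hw).2
  have hgreen := Complex.integral_boundary_rect_of_differentiableOn_real (stokesG s c r F)
    ⟨Real.log ρ', 0⟩ ⟨Real.log ρ, 2 * Real.pi⟩
    (fun w hw => (hpt w hw).1.differentiableWithinAt) hint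
  simp only at hgreen
  have hper : (∫ x : ℝ in (Real.log ρ')..(Real.log ρ), stokesG s c r F (x + ((0 : ℝ) : ℂ) * I)) -
      (∫ x : ℝ in (Real.log ρ')..(Real.log ρ),
        stokesG s c r F (x + ((2 * Real.pi : ℝ) : ℂ) * I)) = 0 := by
    rw [sub_eq_zero]
    refine intervalIntegral.integral_congr fun x _ => ?_
    have e1 : Complex.exp ((x : ℂ) + ((2 * Real.pi : ℝ) : ℂ) * I) =
        Complex.exp ((x : ℂ) + ((0 : ℝ) : ℂ) * I) := by
      rw [Complex.exp_add, Complex.exp_add]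
      congr 1
      push_cast
      rw [Complex.exp_two_pi_mul_I, zero_mul, Complex.exp_zero]
    show stokesG s c r F _ = stokesG s c r F _
    unfold stokesG
    rw [e1]
  rw [hper, zero_add, ← stokes_circle s c r hr F ρ hρ0 (fun z hz => hcirc z (Or.inl hz)),
    ← stokes_circle s c r hr F ρ' hρ' (fun z hz => hcirc z (Or.inr hz))] at hgreen
  rw [hgreen]
  have hin : ∀ x ∈ [[Real.log ρ', Real.log ρ]], ∀ y ∈ [[(0 : ℝ), 2 * Real.pi]],
      ((x : ℂ) + y * I) ∈ R := by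
    intro x hx y hy
    refine ⟨?_, ?_⟩
    · simpa using hx
    · simpa using hy
  have hinner : ∀ x ∈ Ι (Real.log ρ') (Real.log ρ),
      ‖∫ y : ℝ in (0 : ℝ)..2 * Real.pi, I • fderiv ℝ (stokesG s c r F) (x + y * I) 1 -
        fderiv ℝ (stokesG s c r F) (x + y * I) I‖ ≤ 2 * A * ρ * B * (2 * Real.pi) := by
    intro x hx
    have h1 := intervalIntegral.norm_integral_le_of_norm_le_const (a := 0) (b := 2 * Real.pi)
      (C := 2 * A * ρ * B) (f := fun y : ℝ => I • fderiv ℝ (stokesG s c r F) (x + y * I) 1 -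
        fderiv ℝ (stokesG s c r F) (x + y * I) I)
      (fun y hy => (hpt _ (hin x (uIoc_subset_uIcc hx) y (uIoc_subset_uIcc hy))).2)
    rwa [sub_zero, abs_of_nonneg hpi] at h1
  have hout := intervalIntegral.norm_integral_le_of_norm_le_const (a := Real.log ρ')
    (b := Real.log ρ) (C := 2 * A * ρ * B * (2 * Real.pi)) hinner
  rw [abs_of_nonneg (sub_nonneg.mpr hlog)] at hout
  refine hout.trans (le_of_eq ?_)
  ring

end Pool.Agent.Lib.MP_413903_an
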