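import Pool.Agent.Lib.MP_413903_an.Spec

/-!
# MP_413903_an: truncation operators
-/

set_option autoImplicit false

namespace Pool.Agent.Lib.MP_413903_an

open Complex Set Filter Topology OnePoint NNReal TopologicalSpace

section trunc

variable {D : Set (OnePoint ℂ)} {ι : Type} (v : ι → OO D) (η : ι → OO D →ₗ[ℂ] ℂ)

/-- the sum over the finite set `F` -/
noncomputable def truncOp (F : Finset ι) : OO D →ₗ[ℂ] OO D := ∑ i ∈ F, (η i).smulRight (v i)

theorem truncOp_apply (F : Finset ι) (h : OO D) (p : D) :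
    (truncOp v η F h : C(D, ℂ)) p = ∑ i ∈ F, η i h * (v i : C(D, ℂ)) p := by
  unfold truncOp
  rw [LinearMap.sum_apply]
  have e : (((∑ i ∈ F, (η i).smulRight (v i) h : OO D)) : C(D, ℂ)) =
      ∑ i ∈ F, η i h • (v i : C(D, ℂ)) := by
    rw [Submodule.coe_sum]
    rfl
  rw [e, ContinuousMap.sum_apply]
  rfl

theorem truncOp_nrm (F : Finset ι) (h : OO D) (K : Compacts D) :
    nrm K (truncOp v η F h : C(D, ℂ)) ≤ ∑ i ∈ F, ‖η i h‖ * nrm K (v i : C(D, ℂ)) := by
  refine nrm_le K _ (Finset.sum_nonneg fun i _ => mul_nonneg (norm_nonneg _) (nrm_nonneg _ _))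
    fun p hp => ?_
  rw [truncOp_apply]
  refine (norm_sum_le _ _).trans (Finset.sum_le_sum fun i _ => ?_)
  rw [norm_mul]
  exact mul_le_mul_of_nonneg_left (le_nrm K _ hp) (norm_nonneg _)

theorem truncHasSum_off {E : Type} [AddCommGroup E] [TopologicalSpace E] [IsTopologicalAddGroup E]
    {x : ι → E} {S : E} (hx : HasSum x S) (F : Finset ι) [DecidablePred (· ∈ F)] :
    HasSum (fun i => x i - if i ∈ F then x i else 0) (S - ∑ i ∈ F, x i) := by
  refine hx.sub ?_
  have h1 : HasSum (fun i => if i ∈ F then x i else 0) (∑ i ∈ F, if i ∈ F then x i else 0) :=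
    hasSum_sum_of_ne_finset_zero fun i hi => if_neg hi
  have h2 : ∑ i ∈ F, (if i ∈ F then x i else 0) = ∑ i ∈ F, x i :=
    Finset.sum_congr rfl fun i hi => if_pos hi
  rwa [h2] at h1

end trunc

open Classical in
theorem trunc : TruncStmt := by
  intro D ι v η hdec
  obtain ⟨h1, h2⟩ := hdec
  choose Φ c hc0 hc using h1
  refine ⟨Φ, c, hc0, fun K1 K2 t f => ?_⟩
  set a : ι → ℝ := fun i => ‖η i f‖ * nrm K1 (v i : C(D, ℂ)) with ha
  set b : ι → ℝ := fun i => ‖η i f‖ * nrm K2 (v i : C(D, ℂ)) with hb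
  have ha0 : ∀ i, 0 ≤ a i := fun i => mul_nonneg (norm_nonneg _) (nrm_nonneg _ _)
  have hb0 : ∀ i, 0 ≤ b i := fun i => mul_nonneg (norm_nonneg _) (nrm_nonneg _ _)
  have hasum : HasSum a (∑' i, a i) := (hc K1 f).1.hasSum
  have hbsum : HasSum b (∑' i, b i) := (hc K2 f).1.hasSum
  obtain ⟨s, hs⟩ : ∃ s : Finset ι, dist (∑ i ∈ s, a i) (∑' i, a i) < Real.exp (-t) :=
    (hasum.eventually (Metric.ball_mem_nhds _ (Real.exp_pos _))).exists
  set F : Finset ι := s.filter (fun i => nrm K2 (v i : C(D, ℂ)) ≤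
    Real.exp t * nrm K1 (v i : C(D, ℂ))) with hF
  have hgen : ∀ K (h : OO D), ∑ i ∈ F, ‖η i h‖ * nrm K (v i : C(D, ℂ)) ≤
      c K * nrm (Φ K) (h : C(D, ℂ)) := fun K h =>
    ((hc K h).1.sum_le_tsum F (fun i _ => mul_nonneg (norm_nonneg _) (nrm_nonneg _ _))).trans
      (hc K h).2
  refine ⟨truncOp v η F, fun K h => (truncOp_nrm v η F h K).trans (hgen K h), ?_, fun h => ?_⟩
  · have hpos : 0 ≤ Real.exp (-t) * (c K2 * nrm (Φ K2) (f : C(D, ℂ)) + 1) :=
      mul_nonneg (Real.exp_pos _).le (add_nonneg (mul_nonneg (hc0 _) (nrm_nonneg _ _)) zero_le_one)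
    refine nrm_le K1 _ hpos fun p hp => ?_
    have e1 : ((f - truncOp v η F f : C(D, ℂ))) p =
        (f : C(D, ℂ)) p - ∑ i ∈ F, η i f * (v i : C(D, ℂ)) p := by
      rw [ContinuousMap.sub_apply, truncOp_apply]
    rw [e1]
    have g1 := truncHasSum_off (h2 f p) F
    have g2 := (truncHasSum_off hasum s).add (hbsum.mul_left (Real.exp (-t)))
    refine (g1.norm_le_of_bounded g2 fun i => ?_).trans ?_
    · have hterm : ‖η i f * (v i : C(D, ℂ)) p‖ ≤ a i := by
        rw [norm_mul]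
        exact mul_le_mul_of_nonneg_left (le_nrm K1 _ hp) (norm_nonneg _)
      have hexpb : 0 ≤ Real.exp (-t) * b i := mul_nonneg (Real.exp_pos _).le (hb0 i)
      by_cases hiF : i ∈ F
      · rw [if_pos hiF, sub_self, norm_zero]
        have hle : (if i ∈ s then a i else 0) ≤ a i := by
          split_ifs
          · exact le_rfl
          · exact ha0 i
        linarith
      · rw [if_neg hiF, sub_zero]
        by_cases his : i ∈ s
        · rw [if_pos his, sub_self, zero_add]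
          have hB : Real.exp t * nrm K1 (v i : C(D, ℂ)) < nrm K2 (v i : C(D, ℂ)) := by
            by_contra hcon
            exact hiF (Finset.mem_filter.2 ⟨his, not_lt.1 hcon⟩)
          refine hterm.trans ?_
          have hB2 : nrm K1 (v i : C(D, ℂ)) ≤ Real.exp (-t) * nrm K2 (v i : C(D, ℂ)) := by
            have h3 := mul_le_mul_of_nonneg_left hB.le (Real.exp_pos (-t)).le
            rwa [← mul_assoc, ← Real.exp_add, neg_add_cancel, Real.exp_zero, one_mul] at h3
          calc a i ≤ ‖η i f‖ * (Real.exp (-t) * nrm K2 (v i : C(D, ℂ))) :=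
                mul_le_mul_of_nonneg_left hB2 (norm_nonneg _)
            _ = Real.exp (-t) * b i := by rw [hb]; ring
        · rw [if_neg his, sub_zero]
          linarith
    · have h3 : (∑' i, a i) - ∑ i ∈ s, a i ≤ Real.exp (-t) := by
        rw [dist_comm, Real.dist_eq] at hs
        exact (le_abs_self _).trans hs.le
      have h4 : Real.exp (-t) * ∑' i, b i ≤
          Real.exp (-t) * (c K2 * nrm (Φ K2) (f : C(D, ℂ))) :=
        mul_le_mul_of_nonneg_left (hc K2 f).2 (Real.exp_pos _).le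
      rw [mul_add, mul_one]
      linarith
  · refine (truncOp_nrm v η F h K2).trans ?_
    calc ∑ i ∈ F, ‖η i h‖ * nrm K2 (v i : C(D, ℂ))
        ≤ ∑ i ∈ F, Real.exp t * (‖η i h‖ * nrm K1 (v i : C(D, ℂ))) := by
          refine Finset.sum_le_sum fun i hi => ?_
          have h3 := mul_le_mul_of_nonneg_left (Finset.mem_filter.1 hi).2 (norm_nonneg (η i h))
          calc ‖η i h‖ * nrm K2 (v i : C(D, ℂ))
              ≤ ‖η i h‖ * (Real.exp t * nrm K1 (v i : C(D, ℂ))) := h3
            _ = Real.exp t * (‖η i h‖ * nrm K1 (v i : C(D, ℂ))) := by ring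
      _ = Real.exp t * ∑ i ∈ F, ‖η i h‖ * nrm K1 (v i : C(D, ℂ)) := by rw [Finset.mul_sum]
      _ ≤ _ := mul_le_mul_of_nonneg_left (hgen K1 h) (Real.exp_pos _).le

end Pool.Agent.Lib.MP_413903_an
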