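import Pool.Agent.Lib.MP_413903_an.Elem
import Pool.Agent.Lib.MP_413903_an.Geo
import Pool.Agent.Lib.MP_413903_an.Bin
import Pool.Agent.Lib.MP_413903_an.QA
import Pool.Agent.Lib.MP_413903_an.Stokes
import Pool.Agent.Lib.MP_413903_an.Trunc
import Pool.Agent.Lib.MP_413903_an.KDec
import Pool.Agent.Lib.MP_413903_an.Exh
import Pool.Agent.Lib.MP_413903_an.Clos
import Pool.Agent.Lib.MP_413903_an.Nh
import Pool.Agent.Lib.MP_413903_an.Comp
import Pool.Agent.Lib.MP_413903_an.Abs
import Pool.Agent.Lib.MP_413903_an.Basis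
import Pool.Agent.Lib.MP_413903_an.Schw
import Pool.Agent.Lib.MP_413903_an.Loc
import Pool.Agent.Lib.MP_413903_an.Cod
import Pool.Agent.Lib.MP_413903_an.Cnt
import Pool.Agent.Lib.MP_413903_an.SDec
import Pool.Agent.Lib.MP_413903_an.DiffRes
import Pool.Agent.Lib.MP_413903_an.Core

/-!
# MP_413903_an: the spaces `O(D(q, r))` with `0` irregular have no Schauder basis and are not
isomorphic to complemented subspaces of Koethe spaces.
-/

set_option autoImplicit false

namespace Pool.Agent.Lib.MP_413903_an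

open Complex Set Filter Topology OnePoint NNReal TopologicalSpace

theorem coreStmt : CoreStmt :=
  core tail goodEx regSub circ annSub bin binB (qA lpos) stokes trunc diff res

theorem basisStmt : BasisStmt := basis exh nh (comp clos nh) absStmt

theorem sDecStmt : SDecStmt := sDec basisStmt (cnt (cod (loc schw)))

theorem main_noBasis (P : Par) (v : ℕ → OO P.D) :
    ¬ ∀ f : OO P.D, ∃! c : ℕ → ℂ,
      Tendsto (fun N => ∑ k ∈ Finset.range N, c k • v k) atTop (𝓝 f) := by
  intro h
  obtain ⟨η, hη⟩ := sDecStmt P v h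
  exact coreStmt P ℕ v η hη

theorem main_notKoethe (P : Par) (ι : Type) (A : ι → ℕ → ℝ≥0)
    (S : OO P.D →L[ℂ] Koethe A) (R : Koethe A →L[ℂ] OO P.D) : ¬ ∀ f, R (S f) = f := by
  intro h
  obtain ⟨v, η, hη⟩ := kDec nh P.D ι A S R h
  exact coreStmt P ι v η hη

end Pool.Agent.Lib.MP_413903_an
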