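import Pool.Agent.Lib.MP_413903_an.Main

/-!
# MP_413903_an: the space `O(D)` as a type
-/

set_option autoImplicit false

namespace Pool.Agent.Lib.MP_413903_an

/-- The space `O(D)` of the functions analytic in the open subset `D` of the Riemann sphere, as a
topological vector space (the subspace `OO D` of `C(D, ℂ)`; uniform convergence on compact sets). -/
def OSp (D : Set (OnePoint ℂ)) : Type := OO D

noncomputable instance (D : Set (OnePoint ℂ)) : AddCommGroup (OSp D) :=
  inferInstanceAs (AddCommGroup (OO D))

noncomputable instance (D : Set (OnePoint ℂ)) : Module ℂ (OSp D) :=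
  inferInstanceAs (Module ℂ (OO D))

noncomputable instance (D : Set (OnePoint ℂ)) : TopologicalSpace (OSp D) :=
  inferInstanceAs (TopologicalSpace (OO D))

end Pool.Agent.Lib.MP_413903_an
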