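import Pool.Agent.Lib.MP_413903_an.Basic

/-!
# MP_413903_an: the spaces `O(D(q, r))` have no basis. Statements with complete proofs

GOAL. If `0` is an irregular boundary point of `D = D(q, r)` (i.e. `∑ j / log(1/r_j) < ∞`), then
(i) `O(D)` has no Schauder basis, (ii) `O(D)` is not isomorphic to a complemented subspace of a
Koethe space. Both follow from: there is no decomposition `f = ∑ η_i(f) v_i` as in `Decomp`.

Every module: file `Pool/Agent/Lib/MP_413903_an/<Name>.lean`, `import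
Pool.Agent.Lib.MP_413903_an.Spec`, `namespace Pool.Agent.Lib.MP_413903_an`, helper lemmas with
names starting with the name of the module; the final theorem is named in the task. Other
statements are hypotheses only where the task says so.

`Basic.lean` has: `nrm K f` (sup norm of `f : C(D, ℂ)` over the compact `K : Compacts D`,
`le_nrm`, `nrm_le`, `nrm_add`, `nrm_sub`, `nrm_smul`, `nrm_mono`), `mkK` (compact subset of `D` from a
compact subset of the plane, `le_nrm_mkK`, `nrm_mkK_le`), `far`, `pw hD c hc b hb ∈ OO D`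
(the function `(z - c)^(-b)`, `pw_apply`, `pw_coe`), `isOpen_dom`, `coe_mem_dom`, `openD_nhds`,
`chartInf_nhds`, `removed_compact`. `ext f p` is the value of `f : C(D, ℂ)` at `p : OnePoint ℂ`.
-/

set_option autoImplicit false

namespace Pool.Agent.Lib.MP_413903_an

open Complex Set Filter Topology OnePoint NNReal TopologicalSpace

/-- The parameters. -/
structure Par where
  q : ℝ
  r : ℕ → ℝ
  q0 : 0 < q
  q1 : q < 1
  r0 : ∀ j, 1 ≤ j → 0 < r j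
  r1 : ∀ j, 1 ≤ j → r j < q ^ j
  sum : Summable fun j : ℕ => (j : ℝ) / Real.log (1 / r j)

namespace Par

/-- the domain -/
def D (P : Par) : Set (OnePoint ℂ) := Dom P.q P.r

theorem isOpen (P : Par) : IsOpen P.D := isOpen_dom P.q0 P.q1 P.r1

/-- centre of the disc `k`, as a complex number -/
noncomputable def c (P : Par) (k : ℕ) : ℂ := (P.q : ℂ) ^ k

/-- `log (1 / r_k)` -/
noncomputable def L (P : Par) (k : ℕ) : ℝ := Real.log (1 / P.r k)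

/-- `ρ_l = q^l (1 + q) / 2`, a radius between `q^(l+1)` and `q^l` -/
noncomputable def ρ (P : Par) (l : ℕ) : ℝ := P.q ^ l * ((1 + P.q) / 2)

/-- `k log(1/q) + log 3`, so that `3 / q^k = exp (h k)` -/
noncomputable def h (P : Par) (k : ℕ) : ℝ := (k : ℝ) * Real.log (1 / P.q) + Real.log 3

/-- `w_k = (k log(1/q) + log 3) / log(1 / r_k)` -/
noncomputable def w (P : Par) (k : ℕ) : ℝ := P.h k / P.L k

/-- `k1` is large: the discs `j > k1` are small, and the discs `j ≤ k1` do not meet the circle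
of radius `ρ_{k1}`. -/
def Good (P : Par) (k1 : ℕ) : Prop :=
  1 ≤ k1 ∧ (∀ j, k1 < j → P.r j ≤ (1 - P.q) / 4 * P.q ^ j) ∧
    ∀ j, 1 ≤ j → j ≤ k1 → P.ρ k1 + P.r j < P.q ^ j

/-- the annulus `ρ_l ≤ |z| ≤ ρ_{k1}` without the open discs `|z - c_k|² < a r_k²`, `k1 < k ≤ l` -/
def Reg (P : Par) (k1 l : ℕ) (a : ℝ) : Set ℂ :=
  {z | P.ρ l ≤ ‖z‖ ∧ ‖z‖ ≤ P.ρ k1 ∧ ∀ k ∈ Finset.Ioc k1 l, a * P.r k ^ 2 ≤ ‖z - P.c k‖ ^ 2}

/-- the closed annulus `2 r_k² ≤ |z - c_k|² ≤ 3 r_k²` -/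
def Ann (P : Par) (k : ℕ) : Set ℂ :=
  {z | 2 * P.r k ^ 2 ≤ ‖z - P.c k‖ ^ 2 ∧ ‖z - P.c k‖ ^ 2 ≤ 3 * P.r k ^ 2}

/-- the polynomial `∏_{k1 < k ≤ l} (1 - z / c_k)^{m_k}` -/
noncomputable def Q (P : Par) (k1 l : ℕ) (m : ℕ → ℕ) (z : ℂ) : ℂ :=
  ∏ k ∈ Finset.Ioc k1 l, (1 - z / P.c k) ^ m k

/-- the exponents `m_k = ⌈4 t / L_k⌉` for `k ≤ k2`, `⌈(2 C + 4) t / L_k⌉` for `k > k2` -/
noncomputable def mexp (P : Par) (k2 : ℕ) (C t : ℝ) (k : ℕ) : ℕ :=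
  if k ≤ k2 then ⌈4 * t / P.L k⌉₊ else ⌈(2 * C + 4) * t / P.L k⌉₊

end Par

/-- A decomposition `f = ∑ η_i(f) v_i` (absolutely convergent, with continuity estimates). -/
def Decomp {D : Set (OnePoint ℂ)} (ι : Type) (v : ι → OO D) (η : ι → OO D →ₗ[ℂ] ℂ) : Prop :=
  (∀ K : Compacts D, ∃ (K' : Compacts D) (C : ℝ), 0 ≤ C ∧ ∀ f : OO D,
    (Summable fun i => ‖η i f‖ * nrm K (v i : C(D, ℂ))) ∧
    ∑' i, ‖η i f‖ * nrm K (v i : C(D, ℂ)) ≤ C * nrm K' (f : C(D, ℂ))) ∧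
  ∀ (f : OO D) (p : D), HasSum (fun i => η i f * (v i : C(D, ℂ)) p) ((f : C(D, ℂ)) p)

/-! ### Part 1: elementary facts -/

/-- **Tail** the tails of `w`. Proof. `r_k < q^k` gives `L_k > k log(1/q) > 0` for `k ≥ 1`, so
`w_k ≤ (log(1/q) + log 3) k / L_k` for `k ≥ 1`: `w` is summable. The sums over `Ioc k l` are at most the
tails `∑_{i > k} w_i → 0` (`Summable.tendsto_sum_compl_atTop_zero`-type lemma or
`summable_nat_add_iff`, `tendsto_sum_nat_add`; or Cauchy criterion). -/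
def TailStmt : Prop := ∀ (P : Par) (ε : ℝ), 0 < ε → ∃ k0 : ℕ, ∀ k, k0 ≤ k → ∀ l,
  ∑ i ∈ Finset.Ioc k l, P.w i ≤ ε

/-- **Lpos** Proof. `r_k < q^k`. -/
def LposStmt : Prop := ∀ (P : Par) (k : ℕ), 1 ≤ k → 0 < P.h k ∧
  (k : ℝ) * Real.log (1 / P.q) < P.L k ∧ 0 < P.L k

/-- **GoodEx** Proof. `j / L_j → 0` (summable, terms tend to `0`), so `L_j ≥ A j` for large `j` and any given
`A`; hence `r_j = exp(-L_j) ≤ ((1-q)/4) q^j` for `j ≥ j0`. For every single `j ≥ 1`, `q^j - r_j > 0` and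
`ρ_k → 0`, so for `k` large `ρ_k + r_j < q^j` for all `1 ≤ j < j0`. For `j0 ≤ j ≤ k`:
`ρ_k ≤ ρ_j = q^j (1+q)/2` and `r_j ≤ q^j (1-q)/4`, the sum is `q^j (3+q)/4 < q^j`. -/
def GoodExStmt : Prop := ∀ P : Par, ∃ k0 : ℕ, ∀ k, k0 ≤ k → P.Good k

/-- **RegSub** the region is in `D`. Proof. Let `z ∈ Reg`. `z ≠ 0` as `ρ_l > 0`. `j ≤ k1`:
`|z - c_j| ≥ q^j - ρ_{k1} > r_j`. `k1 < j ≤ l`: `|z - c_j|² ≥ 2 r_j² > r_j²`. `j > l`: `Good` (2) and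
`|z - c_j| ≥ ρ_l - q^j ≥ q^l (1+q)/2 - q^{l+1} = q^l (1-q)/2 ≥ q^j (1-q)/2 > r_j`. -/
def RegSubStmt : Prop := ∀ (P : Par) (k1 l : ℕ), P.Good k1 → k1 ≤ l → ∀ z ∈ P.Reg k1 l 2,
  (z : OnePoint ℂ) ∈ P.D

/-- **Circ** the two circles. Proof. `|z| = ρ_{k1}` and `k1 < k ≤ l`: `|z - c_k| ≥ ρ_{k1} - q^k ≥
q^k (1-q)/2 ≥ 2 r_k` (as in RegSub), and `4 ≥ 3`. `|z| = ρ_l`, `k1 < k ≤ l`: `|z - c_k| ≥ q^k - ρ_l ≥
q^k - ρ_k = q^k (1-q)/2 ≥ 2 r_k`. -/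
def CircStmt : Prop := ∀ (P : Par) (k1 l : ℕ), P.Good k1 → k1 ≤ l → ∀ z : ℂ,
  (‖z‖ = P.ρ k1 ∨ ‖z‖ = P.ρ l) → z ∈ P.Reg k1 l 3

/-- **AnnSub** the annuli are in the region. Proof. Let `z ∈ Ann k`, `|z - c_k| ≤ 2 r_k ≤
q^k (1-q)/2`. So `|z| ≤ q^k (1 + (1-q)/2) = q^k (3-q)/2 ≤ q^{k-1} (1+q)/2 ≤ ρ_{k1}` (`q (3-q) ≤ 1+q` as
`(1-q)² ≥ 0`) and `|z| ≥ q^k (1 - (1-q)/2) = ρ_k ≥ ρ_l`. For `j ≠ k` in `Ioc k1 l`:
`|z - c_j| ≥ |c_k - c_j| - 2 r_k`; if `j > k`, `|c_k - c_j| ≥ q^k (1-q)` and `2 r_k + 2 r_j ≤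
q^k (1-q)/2 + q^j (1-q)/2 ≤ q^k (1-q)`; if `j < k`, `|c_k - c_j| ≥ q^j (1-q)` in the same way. So
`|z - c_j| ≥ 2 r_j`. -/
def AnnSubStmt : Prop := ∀ (P : Par) (k1 l k : ℕ), P.Good k1 → k1 ≤ l → k ∈ Finset.Ioc k1 l →
  P.Ann k ⊆ P.Reg k1 l 2

/-- **Bin** approximation of `z^{-n}` by a rational function with a pole at `c`. Proof. Put
`u = c / (z - c)`. `|z - c| ≥ (3/4) ρ`, `|u| ≤ 1/3`, `z^{-n} = (z-c)^{-n} (1+u)^{-n}` and
`(1+u)^{-n} = ∑_i C(n-1+i, n-1) (-u)^i` (`hasSum_choose_mul_geometric_of_norm_lt_one` with `k = n-1`,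
`r = -u`). The remainder is at most `∑_{i ≥ N} 2^{n-1+i} 3^{-i} = 2^{n-1} 3 (2/3)^N` times
`|z-c|^{-n} ≤ (4/(3ρ))^n`, and `2^{n-1} 3 (4/(3ρ))^n ≤ 3 (4/ρ)^n`. -/
def BinStmt : Prop := ∀ (n N : ℕ) (ρ : ℝ) (z c : ℂ), 1 ≤ n → 0 < ρ → ρ ≤ ‖z‖ → ‖c‖ ≤ ρ / 4 →
  ‖(z⁻¹) ^ n - ∑ i ∈ Finset.range N, (-1) ^ i * ((n - 1 + i).choose i : ℂ) * c ^ i *
    ((z - c)⁻¹) ^ (n + i)‖ ≤ 3 * (2 / 3) ^ N * (4 / ρ) ^ n

/-- **BinB** global bound. Proof. The term `i` is at most `2^{n-1+i} a^{-(n+i)} ≤ (2/a)^{n+i}`, and with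
`x = 2/a ≥ 2`, `∑_{i<N} x^{n+i} ≤ x^{n+N}` (induction on `N`: `x^{n+N} + x^{n+N} ≤ x^{n+N+1}`). -/
def BinBStmt : Prop := ∀ (n N : ℕ) (a : ℝ) (z c : ℂ), 1 ≤ n → 0 < a → a ≤ 1 → a ≤ ‖z - c‖ →
  ‖c‖ ≤ 1 → ‖∑ i ∈ Finset.range N, (-1) ^ i * ((n - 1 + i).choose i : ℂ) * c ^ i *
    ((z - c)⁻¹) ^ (n + i)‖ ≤ (2 / a) ^ (n + N)

/-- **QA** size of `Q` (uses `Lpos`). Proof. For `|z| ≤ 1`: `|1 - z/c_k| ≤ 1 + q^{-k} ≤ 3 q^{-k} = exp(h k)`,
and `mexp k ≤ a_k t / L_k + 1` with `a_k = 4` or `2C+4`, so `mexp k * h k ≤ a_k t w_k + h k`: (1).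
(2): for `z ∈ Ann k`, `|1 - z/c_k| = |z - c_k| q^{-k} ≤ 2 r_k q^{-k} ≤ exp(-L_k + h k)` (`2 ≤ 3`),
its power `mexp k` is at most `exp(-L_k mexp k) exp(h k mexp k)` and `L_k mexp k ≥ a_k t`; the other
factors as in (1). -/
def QAStmt : Prop := ∀ (P : Par) (k1 k2 l : ℕ) (C t : ℝ), 1 ≤ k1 → k1 ≤ k2 → k2 ≤ l → 0 ≤ C →
  0 ≤ t →
  (∀ z : ℂ, ‖z‖ ≤ 1 → ‖P.Q k1 l (P.mexp k2 C t) z‖ ≤
    Real.exp (4 * t * ∑ k ∈ Finset.Ioc k1 k2, P.w k + (2 * C + 4) * t * ∑ k ∈ Finset.Ioc k2 l, P.w k +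
      ∑ k ∈ Finset.Ioc k1 l, P.h k)) ∧
  ∀ z : ℂ, ‖z‖ ≤ 1 → ∀ k ∈ Finset.Ioc k1 l, z ∈ P.Ann k → ‖P.Q k1 l (P.mexp k2 C t) z‖ ≤
    Real.exp (4 * t * ∑ k ∈ Finset.Ioc k1 k2, P.w k + (2 * C + 4) * t * ∑ k ∈ Finset.Ioc k2 l, P.w k +
      ∑ k ∈ Finset.Ioc k1 l, P.h k - (if k ≤ k2 then 4 else 2 * C + 4) * t)

/-- **Stokes** comparison of two circles. Proof. Let `χ(z) = ∏_{k ∈ s} smoothTransition
(|z - c_k|²/r_k² - 2)` (real valued, `C^∞` on the plane, `0` if `|z - c_k|² ≤ 2 r_k²` for some `k`, `1` if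
`|z - c_k|² ≥ 3 r_k²` for all `k`), `X(w) = χ(e^w)`, `H(w) = F(e^w) e^w`, `G = X H`. Apply
`Complex.integral_boundary_rect_of_differentiableOn_real` to `G` on the rectangle
`[log ρ', log ρ] × [0, 2π]`. `G` is real differentiable at every point of the closed rectangle: if
`|e^w - c_k|² < 2 r_k²` for some `k` then `X = 0` near `w`, so `G = 0` near `w`; otherwise `F` is complex
differentiable at `e^w`. By the `2πi` periodicity of `G` the two horizontal integrals cancel; the vertical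
ones are the circle integrals of `F` (`χ = 1` on the circles; `circleIntegral` unfolds to
`∫ θ in 0..2π, deriv (circleMap 0 ρ) θ • F (circleMap 0 ρ θ)`, `e^{log ρ + iθ} = circleMap 0 ρ θ`):
`G(log ρ + iθ) = F e^w`, and `∮ F = I ∫ F(e^w) e^w dθ`. The integrand on the right is
`(I X'(w) 1 - X'(w) I) H(w)` (`H` is complex differentiable where `X ≠ 0` nearby, its contribution
cancels: `I (H'(w) 1) - H'(w) I = 0`); it vanishes if `|e^w - c_k|² < 2 r_k²` for some `k` or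
`|e^w - c_k|² > 3 r_k²` for all `k` (`X` is locally constant), otherwise its norm is at most
`2 ‖X'(w)‖ ρ B`. `‖X'‖ ≤ A` on the rectangle (compact, `X` is `C^1`). So everything is at most
`(log ρ - log ρ') 2π · 2 A ρ B`; `C` = this without `B`. Integrability: `fderiv` is measurable
(`measurable_fderiv`) and the integrand is bounded on the rectangle. The case `ρ' = ρ` is included
(trivial). -/
def StokesStmt : Prop := ∀ (ρ' ρ : ℝ) (s : Finset ℕ) (c : ℕ → ℂ) (r : ℕ → ℝ), 0 < ρ' → ρ' ≤ ρ →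
  (∀ k ∈ s, 0 < r k) →
  (∀ z : ℂ, ‖z‖ = ρ ∨ ‖z‖ = ρ' → ∀ k ∈ s, 3 * r k ^ 2 ≤ ‖z - c k‖ ^ 2) →
  ∃ C : ℝ, 0 ≤ C ∧ ∀ (F : ℂ → ℂ) (B : ℝ), 0 ≤ B →
    (∀ z : ℂ, ρ' ≤ ‖z‖ → ‖z‖ ≤ ρ → (∀ k ∈ s, 2 * r k ^ 2 ≤ ‖z - c k‖ ^ 2) →
      DifferentiableAt ℂ F z) →
    (∀ z : ℂ, ρ' ≤ ‖z‖ → ‖z‖ ≤ ρ → (∀ k ∈ s, 2 * r k ^ 2 ≤ ‖z - c k‖ ^ 2) →
      (∃ k ∈ s, ‖z - c k‖ ^ 2 ≤ 3 * r k ^ 2) → ‖F z‖ ≤ B) →
    ‖(∮ z in C(0, ρ), F z) - ∮ z in C(0, ρ'), F z‖ ≤ C * B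

/-! ### Part 2: decompositions -/

/-- **Trunc** truncation. Proof. Choose `Φ K`, `c K` by the definition of `Decomp`. Given `K1, K2, t, f`:
`B = {i : nrm K2 (v i) ≤ e^t nrm K1 (v i)}`; as `∑ ‖η_i f‖ nrm K1 (v i)` is summable there is a finite
set `s` such that the sum over every (finite) set disjoint from `s` is at most `e^{-t}`
(`summable_iff_vanishing_norm` or `tendsto_tsum_compl_atTop_zero`). `P h = ∑_{i ∈ s, i ∈ B} η_i(h) v_i`.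
(1) `nrm K (P h) ≤ ∑_{i ∈ s ∩ B} ‖η_i h‖ nrm K (v i) ≤ c K nrm (Φ K) h`. (2) at every point `p ∈ K1`,
`f(p) - (P f)(p) = ∑_{i ∉ s ∩ B} η_i(f) v_i(p)` has norm at most
`∑_{i ∉ B} ‖η_i f‖ nrm K1 (v i) + ∑_{i ∉ s} ‖η_i f‖ nrm K1 (v i) ≤ e^{-t} c K2 nrm (Φ K2) f + e^{-t}`, as
`nrm K1 (v i) ≤ e^{-t} nrm K2 (v i)` for `i ∉ B`. (3) `nrm K2 (P h) ≤ ∑_{i ∈ s ∩ B} ‖η_i h‖ nrm K2 (v i)
≤ e^t ∑ ‖η_i h‖ nrm K1 (v i)`. -/
def TruncStmt : Prop := ∀ (D : Set (OnePoint ℂ)) (ι : Type) (v : ι → OO D)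
  (η : ι → OO D →ₗ[ℂ] ℂ), Decomp ι v η → ∃ (Φ : Compacts D → Compacts D) (c : Compacts D → ℝ),
    (∀ K, 0 ≤ c K) ∧ ∀ (K1 K2 : Compacts D) (t : ℝ) (f : OO D), ∃ T : OO D →ₗ[ℂ] OO D,
      (∀ K (h : OO D), nrm K (T h : C(D, ℂ)) ≤ c K * nrm (Φ K) (h : C(D, ℂ))) ∧
      nrm K1 (f - T f : C(D, ℂ)) ≤ Real.exp (-t) * (c K2 * nrm (Φ K2) (f : C(D, ℂ)) + 1) ∧
      ∀ h : OO D, nrm K2 (T h : C(D, ℂ)) ≤ Real.exp t * (c K1 * nrm (Φ K1) (h : C(D, ℂ)))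

/-- **KDec** from a factorization of the identity through a Koethe space to a decomposition. Proof.
`e_i ∈ Koethe A` the unit vectors (`Pi.single i 1`), `v i = R e_i`, `η i f = (S f)_i`.
Continuity of `R`: the set `{x : nrm K (R x) < 1}` is a neighbourhood of `0` (the set
`{f : nrm K f < 1}` is one in the compact-open topology), so there are a finite set `s` of indices and
`C` with `nrm K (R x) ≤ C ∑_{k ∈ s} koetheNorm A k x` (`Seminorm.bound_of_continuous` for the seminorm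
`x ↦ nrm K (R x)` and `WithSeminorms (koetheNorm A)`, which holds by the definition of the topology; a
finite supremum of seminorms is at most the sum). Continuity of `S`: for every `k` there are a compact `K'` and `C` with
`koetheNorm A k (S f) ≤ C nrm K' f` (the set `{f : koetheNorm A k (S f) < 1}` is a neighbourhood of `0`;
basis of neighbourhoods of `0` in the compact-open topology: `{f : nrm K f < ε}`; scaling).
So `nrm K (v i) ≤ C ∑_{k ∈ s} A i k` and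
`∑_i ‖η_i f‖ nrm K (v i) ≤ C ∑_{k ∈ s} koetheNorm A k (S f) ≤ C' nrm K'' f`, `K''` = union of finitely many
compact sets. Pointwise: `x = ∑ x_i e_i` converges in `Koethe A` (unconditionally, in every norm
`koetheNorm A k`), so by continuity of `x ↦ (R x)(p)`, `(R x)(p) = ∑ x_i v_i(p)`; take `x = S f`. -/
def KDecStmt : Prop := ∀ (D : Set (OnePoint ℂ)) (ι : Type) (A : ι → ℕ → ℝ≥0)
  (S : OO D →L[ℂ] Koethe A) (R : Koethe A →L[ℂ] OO D), (∀ f, R (S f) = f) →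
    ∃ (v : ι → OO D) (η : ι → OO D →ₗ[ℂ] ℂ), Decomp ι v η

/-- **Exh** exhaustion of `D` by compact sets. Proof. `Removed` is compact and nonempty (`0`).
`K_j = {p ∈ D : p = ∞ or p = z with infDist z Removed ≥ 1/(j+1)}`. The complement of its image in
`OnePoint ℂ` is the image of the open set `{z : infDist z Removed < 1/(j+1)}`
(`OnePoint.isOpen_image_coe`), so the image is closed, hence compact, and `K_j` is compact
(`Topology.IsEmbedding.subtypeVal.isCompact_iff`). If `L ⊆ D` is compact, the set of all `z` in the plane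
which are in `L` is closed and disjoint from the compact set `Removed`, so
`infDist z Removed ≥ δ > 0` for all such `z` (`IsCompact.exists_thickening`/
`Disjoint.exists_thickenings`/`IsCompact.exists_infDist`...: distance of a compact and a disjoint closed
set is positive). -/
def ExhStmt : Prop := ∀ P : Par, ∃ K : ℕ → Compacts P.D,
  (∀ j, (K j : Set P.D) ⊆ K (j + 1)) ∧ ∀ L : Compacts P.D, ∃ j, (L : Set P.D) ⊆ K j

/-- **Clos** `O(D)` is closed in `C(D, ℂ)` for open `D`. Proof. If `f_a → f` in `C(D, ℂ)` along a filter,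
`f_a ∈ O(D)`, then near a point `z ∈ D` of the plane the functions `w ↦ ext f_a w` converge uniformly on a
closed disc around `z`, so the limit is complex differentiable in the open disc
(`TendstoLocallyUniformlyOn.differentiableOn`), hence analytic. At `∞` the same with
`w ↦ ext f_a (chartInf w)` on a small closed disc around `0` (`chartInf_nhds`; `chartInf` is continuous at
every point; for `w ≠ 0` near `0` the function is the composition of an analytic function with `w ↦ 1/w`,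
at `0` it is analytic by definition of `OO`). -/
def ClosStmt : Prop := ∀ D : Set (OnePoint ℂ), IsOpen D → IsClosed (OO D : Set C(D, ℂ))

/-- **Nh** the topology of `O(D)` in terms of the seminorms. Proof. The compact-open topology is the
topology of uniform convergence on compact sets (`ContinuousMap.tendsto_iff_forall_isCompact_tendstoUniformlyOn`,
`ContinuousMap.hasBasis_compactConvergenceUniformity`, subspace topology). (1), (2): a neighbourhood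
of `0` contains `{f : |f| < ε on K}`. (3) `f_a → f` iff for all compact `K`, `f_a → f` uniformly on `K`. -/
def NhStmt : Prop := ∀ D : Set (OnePoint ℂ),
  (∀ U ∈ 𝓝 (0 : OO D), ∃ (K : Compacts D) (ε : ℝ), 0 < ε ∧ ∀ f : OO D,
    nrm K (f : C(D, ℂ)) < ε → f ∈ U) ∧
  (∀ (K : Compacts D) (ε : ℝ), 0 < ε → {f : OO D | nrm K (f : C(D, ℂ)) < ε} ∈ 𝓝 (0 : OO D)) ∧
  ∀ (F : ℕ → OO D) (f : OO D), Tendsto F atTop (𝓝 f) ↔
    ∀ K : Compacts D, Tendsto (fun m => nrm K (F m - f : C(D, ℂ))) atTop (𝓝 0)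

/-- **Comp** completeness (uses `Clos`, `Nh`). Proof. `D` is open in the compact Hausdorff space `OnePoint ℂ`, so it
is locally compact and `C(D, ℂ)` is complete (`ContinuousMap.instCompleteSpaceOfCompactlyCoherentSpace`
or similar); the sequence is a Cauchy sequence in `C(D, ℂ)` (`ContinuousMap.hasBasis_compactConvergenceUniformity`);
the limit is in `O(D)` by `Clos`. -/
def CompStmt : Prop := ∀ D : Set (OnePoint ℂ), IsOpen D → ∀ F : ℕ → OO D,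
  (∀ (K : Compacts D) (ε : ℝ), 0 < ε → ∃ N, ∀ m, N ≤ m → ∀ n, N ≤ n →
    nrm K (F m - F n : C(D, ℂ)) ≤ ε) →
  ∃ g : OO D, ∀ K : Compacts D, Tendsto (fun m => nrm K (F m - g : C(D, ℂ))) atTop (𝓝 0)

/-- completeness for a sequence of seminorms -/
def SCompl {E : Type} [AddCommGroup E] [Module ℂ E] (p : ℕ → Seminorm ℂ E) : Prop :=
  ∀ F : ℕ → E, (∀ (j : ℕ) (ε : ℝ), 0 < ε → ∃ N, ∀ m, N ≤ m → ∀ n, N ≤ n → p j (F m - F n) ≤ ε) →
    ∃ g : E, ∀ j, Tendsto (fun m => p j (F m - g)) atTop (𝓝 0)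

/-- **Abs** open mapping theorem for two sequences of seminorms. Proof. Fix `j`.
CLAIM: there are `n ≥ 1`, `i`, `ε > 0`, `x0` such that for every `y` with `p_i(y - x0) ≤ ε` and all `i', ε' > 0`
there is `z` with `π_j(z) ≤ n`, `p_{i'}(y - z) ≤ ε'`. Otherwise construct `x_n, i_n, ε_n`: `x_0 = 0, i_0 = 0,
ε_0 = 1`; given `x_n, i_n, ε_n` there are `x_{n+1}` with `p_{i_n}(x_{n+1} - x_n) ≤ ε_n/2` and `i', ε' > 0` with
`p_{i'}(x_{n+1} - z) > ε'` for all `z` with `π_j(z) ≤ n + 1`; `i_{n+1} = max (i', i_n + 1)`,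
`ε_{n+1} = min (ε', ε_n/2)`. The sequence is Cauchy for all `p_i`, `x_n → x`, and
`p_{i_{n+1}}(x - x_{n+1}) ≤ ∑_{k ≥ n+1} ε_k/2 ≤ ε_{n+1} ≤ ε'`, so (`z = x`) `π_j(x) > n + 1` for all `n`:
contradiction. From the claim, for `p_i(y) ≤ ε`: approximate `x0 + y` and `x0 - y` by `z1`, `z2`; then
`(z1 - z2)/2` approximates `y`, `π_j ≤ n`. After scaling: there are `i(j)`, `ε_j > 0` such that for
`p_{i(j)}(y) ≤ ε_j` and all `i', ε' > 0` there is `z` with `π_j(z) ≤ 1`, `p_{i'}(y - z) ≤ ε'`; we may take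
`i(j) ≥ j`, `ε_j ≤ 1`.
Now let `p_{i(j)}(f) ≤ ε_j`. Choose `f_0` with `π_j(f_0) ≤ 1`, `p_{i(j+1)}(f - f_0) ≤ ε_{j+1}/2`; then (apply the
statement for `j+1` to `2 (f - f_0)`) `f_1` with `π_{j+1}(f_1) ≤ 1/2`, `p_{i(j+2)}(f - f_0 - f_1) ≤ ε_{j+2}/4`,
and so on. The partial sums of `∑ f_m` are Cauchy for all `π` (monotone), so they converge for all `π` to
some `g`, `π_j(g) ≤ ∑ 2^{-m} = 2`; `f - f_0 - ... - f_m → 0` for all `p` (`i(k) ≥ k`), so `p_k(f - g) = 0` for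
all `k` and `f = g`. So `π_j(f) ≤ 2` if `p_{i(j)}(f) ≤ ε_j`, hence `π_j ≤ (2/ε_j) p_{i(j)}` (scaling; if
`p_{i(j)}(f) = 0` then all multiples of `f` satisfy the condition and `π_j(f) = 0`). -/
def AbsStmt : Prop := ∀ (E : Type) [AddCommGroup E] [Module ℂ E] (p π : ℕ → Seminorm ℂ E),
  (∀ j f, p j f ≤ p (j + 1) f) → (∀ j f, π j f ≤ π (j + 1) f) → (∀ j f, p j f ≤ π j f) →
  (∀ f, (∀ j, p j f = 0) → f = 0) → SCompl p → SCompl π →
  ∀ j, ∃ (i : ℕ) (C : ℝ), 0 ≤ C ∧ ∀ f, π j f ≤ C * p i f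

/-- **Basis** automatic continuity of the coefficients (uses `Exh`, `Nh`, `Comp`, `Abs`). Proof. Let `η_k f` be
the `k`-th coefficient of `f`; by uniqueness `η_k` is linear, `η_k (v_j) = 1(j = k)`, and `v_k ≠ 0`.
`S_N f = ∑_{k<N} η_k(f) v_k → f`, so `π_K(f) = sup_N nrm K (S_N f)` is finite (a convergent sequence is
bounded), a seminorm, `nrm K ≤ π_K`. Let `K_j` be the exhaustion, `p_j = nrm K_j`, `π_j = π_{K_j}`.
`SCompl p` by `Comp`. `SCompl π`: if `(f_m)` is Cauchy for all `π_j`, then it is Cauchy for all `p_j`,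
`f_m → f` in `O(D)`, and `‖η_k f‖ nrm K (v_k) = nrm K (S_{k+1} f - S_k f) ≤ 2 π_K(f)` (with
`nrm K (v_k) > 0` for some `K = K_j`) shows that `η_k(f_m)` is Cauchy, `→ a_k`. Let
`g_N = ∑_{k<N} a_k v_k`. For every `K = K_j` and `ε` there is `m_0` with `nrm K (S_N f_m - S_N f_n) ≤ ε` for all
`N` and `m, n ≥ m_0`; let `n → ∞`: `nrm K (S_N f_m - g_N) ≤ ε`. So `nrm K (g_N - f) ≤
nrm K (g_N - S_N f_m) + nrm K (S_N f_m - f_m) + nrm K (f_m - f)` is small for large `N`: `g_N → f`, by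
uniqueness `a_k = η_k f`, and `π_K(f_m - f) ≤ ε` for `m ≥ m_0`. `Abs` gives `π_j ≤ C p_i`, and
`‖η_k f‖ nrm K_j (v_k) ≤ 2 π_j(f)`. -/
def BasisStmt : Prop := ∀ (P : Par) (v : ℕ → OO P.D),
  (∀ f : OO P.D, ∃! c : ℕ → ℂ, Tendsto (fun N => ∑ k ∈ Finset.range N, c k • v k) atTop (𝓝 f)) →
  ∃ η : ℕ → OO P.D →ₗ[ℂ] ℂ,
    (∀ f : OO P.D, Tendsto (fun N => ∑ k ∈ Finset.range N, η k f • v k) atTop (𝓝 f)) ∧
    (∀ k j, η k (v j) = if k = j then 1 else 0) ∧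
    ∀ K : Compacts P.D, ∃ (K' : Compacts P.D) (C : ℝ), 0 ≤ C ∧ ∀ (f : OO P.D) (k : ℕ),
      ‖η k f‖ * nrm K (v k : C(P.D, ℂ)) ≤ C * nrm K' (f : C(P.D, ℂ))

/-- **Schw** Schwarz lemma of order `M` for continuous linear families: `g ↦ (coefficients)`. Proof. Let
`g` be continuous on the closed disc of radius `R` and complex differentiable in the open disc.
`a_i(g) = (2πi)⁻¹ ∮_{|w - a| = R} g(w) (w-a)^{-i-1} dw`. `g(w) = ∑ a_i(g) (w-a)^i` in the open disc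
(`hasFPowerSeriesOnBall` of a `DiffContOnCl` function, `cauchyPowerSeries`), `|a_i(g)| ≤ S R^{-i}` if
`|g| ≤ S` on the closed disc. If `a_i(g) = 0` for `i < M` and `|w - a| ≤ R/3`:
`|g(w)| ≤ S ∑_{i ≥ M} 3^{-i} = S (3/2) 3^{-M} ≤ S 2^{-M}` (for `M ≥ 1`; for `M = 0` trivial). -/
def SchwStmt : Prop := ∀ (a : ℂ) (R S : ℝ) (M : ℕ) (g : ℂ → ℂ), 0 < R → 0 ≤ S →
  DiffContOnCl ℂ g (Metric.ball a R) → (∀ w ∈ Metric.closedBall a R, ‖g w‖ ≤ S) →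
  (∀ i < M, (∮ w in C(a, R), (w - a)⁻¹ ^ (i + 1) * g w) = 0) →
  ∀ w ∈ Metric.closedBall a (R / 3), ‖g w‖ ≤ (1 / 2) ^ M * S

/-- **Loc** local version in `D` (uses `Schw`). Proof. Let `p = z` be in the plane. Choose `R > 0` such that
the closed disc of radius `R` around `z` is in `D` (`openD_nhds`), `W = mkK` of it, `U` = the set of
points of `D` in the open disc of radius `R/3`, `ℓ_i f = ∮_{C(z,R)} (w-z)^{-i-1} ext f w dw` (linear: the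
integrands are continuous on the circle). If `p = ∞` use `g = fun w => ext f (chartInf w)` on a small closed
disc of radius `R` around `0` with `chartInf w ∈ D` (`chartInf_nhds`), `W` = image of the disc under `chartInf`
(`chartInf` is continuous, so `W` is compact), `U` = points of `D` which are `∞` or `z` with
`|z| > 3/R`. -/
def LocStmt : Prop := ∀ (D : Set (OnePoint ℂ)), IsOpen D → ∀ p : D, ∃ U ∈ 𝓝 p,
  ∃ W : Compacts D, ∀ M : ℕ, ∃ ℓ : Fin M → (OO D →ₗ[ℂ] ℂ), ∀ f : OO D, (∀ i, ℓ i f = 0) →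
    ∀ x ∈ U, ‖(f : C(D, ℂ)) x‖ ≤ (1 / 2) ^ M * nrm W (f : C(D, ℂ))

/-- **Cod** subspaces of finite codimension (uses `Loc`). Proof. Cover `K` by finitely many
(`A` many) sets `U_p` of `Loc` (`IsCompact.elim_nhds_subcover`); `K''` = union of `K` and the `W_p`; the
functionals are all `A M` functionals `ℓ_{p,i}` (reindex by `Fin A × Fin M ≃ Fin (A * M)`). -/
def CodStmt : Prop := ∀ (D : Set (OnePoint ℂ)), IsOpen D → ∀ K : Compacts D,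
  ∃ (K'' : Compacts D) (A : ℕ), (K : Set D) ⊆ K'' ∧ ∀ M : ℕ,
    ∃ ℓ : Fin (A * M) → (OO D →ₗ[ℂ] ℂ), ∀ f : OO D, (∀ i, ℓ i f = 0) →
      nrm K (f : C(D, ℂ)) ≤ (1 / 2) ^ M * nrm K'' (f : C(D, ℂ))

/-- **Cnt** counting (uses `Cod`). Proof. Let `K` be given, `K'`, `C` as in the hypothesis for `K`; we may
take `K ⊆ K'` (replace `K'` by `K' ∪ K`) and `1 ≤ C`. `K''`, `A` from `Cod` for `K'`. Let `s ≥ 1` and `I` a finite set of
indices `k` with `0 < nrm K (v k)` and `nrm K'' (v k) ≤ s nrm K (v k)`. Suppose `card I = A M + 1`.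
`u_k = v_k / nrm K (v_k)`. There are `b_k`, `k ∈ I`, not all zero, with `ℓ_i(∑ b_k u_k) = 0` for all
`i < A M` (more unknowns than equations: `exists_ne_zero_of_...`/`LinearMap.exists_ne_zero...`,
`Matrix.exists_mulVec_eq_zero...`, `LinearMap.ker_ne_bot_of_finrank_lt`); normalise `max |b_k| = 1 =
|b_{k0}|`. With `f = ∑ b_k u_k`: `1 = |b_{k0}| = ‖η_{k0} f‖ nrm K (v_{k0}) ≤ C nrm K' f ≤ C 2^{-M} nrm K'' f ≤
C 2^{-M} (A M + 1) s`. So: if `C (A M + 1) s < 2^M` then every such set `I` has at most `A M` elements.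
Hence (choose `M = M_j` for `s = 2^j` with `M_j ≤ 2 j + B`, `B` a constant with
`C (A (2j+B) + 1) 2^j < 2^{2j+B}` for all `j`: possible as `C (A (2 j + B) + 1) < 2^{j+B}` for large `B`) the
number of `k` with `a_k := nrm K (v k) / nrm K'' (v k) ≥ 2^{-j}` is at most `A (2 j + B)`. As `0 ≤ a_k ≤ 1`,
every finite partial sum of `a` is at most
`∑_j 2^{-j} #{k : 2^{-j-1} ≤ a_k} ≤ ∑_j 2^{-j} A (2 j + 2 + B) < ∞`. (`a_k = 0` if `nrm K (v k) = 0`.) -/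
def CntStmt : Prop := ∀ (D : Set (OnePoint ℂ)), IsOpen D → ∀ (v : ℕ → OO D)
  (η : ℕ → OO D →ₗ[ℂ] ℂ), (∀ k j, η k (v j) = if k = j then 1 else 0) →
  (∀ K : Compacts D, ∃ (K' : Compacts D) (C : ℝ), 0 ≤ C ∧ ∀ (f : OO D) (k : ℕ),
      ‖η k f‖ * nrm K (v k : C(D, ℂ)) ≤ C * nrm K' (f : C(D, ℂ))) →
  ∀ K : Compacts D, ∃ K'' : Compacts D, (K : Set D) ⊆ K'' ∧
    Summable fun k => nrm K (v k : C(D, ℂ)) / nrm K'' (v k : C(D, ℂ))

/-- **SDec** a Schauder basis gives a decomposition (uses `Basis`, `Cnt`; the theorem of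
Dynin-Mityagin for `O(D)`). Proof. Let `K''` be as in `Cnt` for `K` and `K3`, `C` as in `Basis` (3) for `K''`.
`‖η_k f‖ nrm K (v k) = (nrm K (v k)/nrm K'' (v k)) ‖η_k f‖ nrm K'' (v k) ≤ a_k C nrm K3 f`
(if `nrm K'' (v k) = 0` then `nrm K (v k) = 0`), so it is summable with sum at most
`(∑ a_k) C nrm K3 f`. Pointwise: the partial sums converge to `f(p)` (evaluation is continuous) and the
series is absolutely convergent (`K = {p}`), so it has the sum `f(p)`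
(`HasSum` from `Summable` and `HasSum.tendsto_sum_nat`, uniqueness of limits). -/
def SDecStmt : Prop := ∀ (P : Par) (v : ℕ → OO P.D),
  (∀ f : OO P.D, ∃! c : ℕ → ℂ, Tendsto (fun N => ∑ k ∈ Finset.range N, c k • v k) atTop (𝓝 f)) →
  ∃ η : ℕ → OO P.D →ₗ[ℂ] ℂ, Decomp ℕ v η

/-! ### Part 3: the contradiction -/

/-- **Diff** differentiability. Proof. `ext f` is analytic at every point of `D` in the plane, the other
factors are polynomials. -/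
def DiffStmt : Prop := ∀ (P : Par) (f : OO P.D) (k1 l : ℕ) (m : ℕ → ℕ) (n : ℕ) (z : ℂ),
  (z : OnePoint ℂ) ∈ P.D →
    DifferentiableAt ℂ (fun z : ℂ => ext (f : C(P.D, ℂ)) z * (z ^ (n - 1) * P.Q k1 l m z)) z

/-- **Res** the residue. Proof. `z^{-n} z^{n-1} Q = Q(z)/z` on the circle; Cauchy's formula
(`Complex.circleIntegral_sub_inv_smul_of_differentiable_on_off_countable` or
`DiffContOnCl.circleIntegral_sub_inv_smul`) gives `2πi Q(0)`, `Q(0) = 1`. -/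
def ResStmt : Prop := ∀ (P : Par) (k1 l : ℕ) (m : ℕ → ℕ) (n : ℕ) (ρ : ℝ), 1 ≤ n → 0 < ρ →
  (∮ z in C(0, ρ), (z⁻¹) ^ n * (z ^ (n - 1) * P.Q k1 l m z)) = 2 * Real.pi * Complex.I

/-- **Core** there is no decomposition (uses `Tail`, `Lpos`, `GoodEx`, `RegSub`, `Circ`, `AnnSub`, `Bin`,
`BinB`, `QA`, `Stokes`, `Trunc`, `Diff`, `Res`). Proof. Let `Φ`, `c` be from `Trunc`.
CHOICES. `k1` with `Good k1`, `∑_{Ioc k1 l} w ≤ 1/100` for all `l`. `K1` = circle `|z| = ρ_{k1}`.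
`ρ'' ∈ (0, 1]` with `|z| ≥ ρ''` for all `z` in the plane which are in `Φ K1` (`far`). `k0 ≥ 1` with
`q^{k0} ≤ ρ''/4`, `a = r_{k0} ≤ 1`, `C = 9 log(2/a) ≥ 0`. `k2 ≥ k1` with
`(2C+4) ∑_{Ioc k2 l} w ≤ 1/100` for all `l`. `K2` = `{|z| = ρ_{k1}} ∪ ⋃_{k1 < k ≤ k2} Ann k` (in `D` by
`AnnSub`, `RegSub`, `Circ`). `ρ2 ∈ (0,1]` with `|z| ≥ ρ2` on `Φ K2`. `M ≥ 1` a natural number with
`log(1/ρ2) ≤ M/4`, `log(4/ρ'') ≤ M/8`. `l ≥ k2` with `log(1/ρ_l) ≥ (2C+4) M`.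
`K3` = `{|z| = ρ_l} ∪ ⋃_{k1 < k ≤ l} Ann k`. `C_S` from `Stokes` (`s = Ioc k1 l`). `H = ∑_{Ioc k1 l} h k`.
For `n ≥ 1` let `t = M n`, `f = z^{-n} = pw 0 n`, `g = ∑_{i < 8Mn} (-1)^i C(n-1+i,i) c_{k0}^i (z-c_{k0})^{-(n+i)}`
`∈ O(D)`, `T` from `Trunc` for `K1, K2, t, f`; `Q = Q k1 l (mexp k2 C t)`. By `QA`:
`|Q| ≤ e^{t/20 + H}` on `|z| ≤ 1`, on `Ann k`: `|Q| ≤ e^{t/20 + H - 4t}` (`k ≤ k2`),
`≤ e^{t/20 + H - (2C+4) t}` (`k > k2`). All circles have radius `≤ 1`.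
ESTIMATES. `|f - g| ≤ 3 (2/3)^{8Mn} (4/ρ'')^n ≤ 3 e^{-3t + t/8}` on `Φ K1` (`Bin`; at `∞` both are `0`;
`(2/3)^8 ≤ e^{-3}`), `|g| ≤ e^{Ct}` on `D` (`BinB`, `n + 8Mn ≤ 9Mn`),
`|f| ≤ ρ''^{-n} ≤ e^{t/8}` on `Φ K1`, `|f| ≤ ρ2^{-n} ≤ e^{t/4}` on `Φ K2`.
`2π = |∮_{ρ_{k1}} f z^{n-1} Q| ≤ |∮ (f - T f) z^{n-1} Q| + |∮ T(f - g) z^{n-1} Q| + |∮_{ρ_{k1}} (T g) z^{n-1} Q|`
(`Res`, `circleIntegral.norm_integral_le_of_norm_le_const`), where
(1) `≤ 2π e^{-t} (c(K2) e^{t/4} + 1) e^{t/20 + H}`,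
(2) `≤ 2π c(K1) 3 e^{-3t+t/8} e^{t/20+H}`,
(3) `≤ |∮_{ρ_l} (T g) z^{n-1} Q| + C_S B`, where the first is at most
`2π c(K3) e^{Ct} ρ_l^n e^{t/20 + H}`, `ρ_l^n ≤ e^{-(2C+4)t}`, and `B` = the maximum of the bounds on `Ann k`:
`e^t c(K1) (4 e^{t/8}) e^{t/20+H-4t}` (`k ≤ k2`; `|g| ≤ |f| + |f-g| ≤ 4 e^{t/8}` on `Φ K1`) and
`c(K3) e^{Ct} e^{t/20+H-(2C+4)t}` (`k > k2`). So `2π ≤ A e^{-t/2}` with a constant `A` for all `n`:
contradiction for large `n`. -/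
def CoreStmt : Prop := ∀ (P : Par) (ι : Type) (v : ι → OO P.D) (η : ι → OO P.D →ₗ[ℂ] ℂ),
  ¬ Decomp ι v η

end Pool.Agent.Lib.MP_413903_an
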